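import Pool.Agent.Work.MP_d32a8c_gt.Defs

/-!
# AOmega: the omega_1 free sequence lemma (M)

PROOF. Suppose `Z` is closed and not Lindelof: there is a family of open sets `U : ι → Set Y`
covering `Z` with no countable subfamily covering `Z`. For every set `C ⊆ Z` countable choose a
countable `cv C ⊆ ι` with `closure C ⊆ ⋃ i ∈ cv C, U i` (for other `C` put `cv C = ∅`). Let
`Ω := (Ordinal.omega 1).toType` or any well ordered type (`LinearOrder`, `WellFoundedLT`) without
maximum in which all `Iio a` are countable and every countable subset is bounded above strictly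
(see how Mathlib treats `ω₁`; e.g. `Ordinal.ToType`, `Cardinal.ord`, `Cardinal.IsRegular aleph_one`).
By well-founded recursion choose `x b ∈ Z` outside `⋃ i ∈ S b, U i`, with
`S b = (⋃ a < b, cv {x c | c ≤ a}) ∪ (⋃ a < b, cv {x c | c < a}) ∪ cv {x c | c < b}` (countable;
recursion without side conditions: a point of `Z` outside the union of any countable subfamily
exists).

`F = range x ⊆ Z` is discrete: `x a ∉ closure {x c | c < a}` (covered by `cv {x c | c < a}`,
whose union misses `x a`), and the open set `⋃ i ∈ cv {x c | c ≤ a}, U i` contains `x a` and no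
`x b` with `b > a`. Hence `closure F` is Lindelof, contained in `Z`. Let `q ∈ closure F`; by first countability
`q ∈ closure F₀` with `F₀ ⊆ F` countable (`mem_closure_iff_seq_limit`), so
`q ∈ closure {x c | c < a}` for some `a`, thus `q ∈ V a := ⋃ i ∈ cv {x c | c < a}, U i`. So the open
sets `V a` cover `closure F`; countably many `V a_n` do. Take `b > a_n` for all `n`: `x b ∈ F` is
in no `V a_n` since `cv {x c | c < a_n} ⊆ S b`. Contradiction.
-/

namespace PoolD32

open Set Topology
open scoped Cardinal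

universe u v

/-- recursion scheme -/
private theorem omega_rec {Y : Type u} (P : ∀ a : (Cardinal.aleph.{u} 1).ord.ToType,
    (Iio a → Y) → Y → Prop)
    (hP : ∀ a (prev : Iio a → Y), ∃ y, P a prev y) :
    ∃ x : (Cardinal.aleph.{u} 1).ord.ToType → Y, ∀ a, P a (fun b => x b) (x a) := by
  classical
  let F : (a : (Cardinal.aleph.{u} 1).ord.ToType) → (∀ b, b < a → Y) → Y := fun a prev =>
    Classical.choose (hP a (fun b => prev b.1 b.2))
  let x : (Cardinal.aleph.{u} 1).ord.ToType → Y :=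
    (wellFounded_lt (α := (Cardinal.aleph.{u} 1).ord.ToType)).fix F
  refine ⟨x, fun a => ?_⟩
  have h1 : x a = F a (fun b _ => x b) := WellFounded.fix_eq _ _ _
  have h2 := Classical.choose_spec (hP a (fun b => x b.1))
  have h3 : Classical.choose (hP a (fun b => x b.1)) = x a := h1.symm
  rw [h3] at h2
  exact h2

private theorem omega_Iio_countable (a : (Cardinal.aleph.{u} 1).ord.ToType) :
    (Iio a).Countable := by
  rw [← Cardinal.le_aleph0_iff_set_countable]
  exact Cardinal.lt_aleph_one_iff.mp (Cardinal.mk_Iio_toType_ord_lt a)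

private theorem omega_bdd (S : Set (Cardinal.aleph.{u} 1).ord.ToType) (hS : S.Countable) :
    ∃ b, ∀ s ∈ S, s < b := by
  have h1 : ¬ IsCofinal S := by
    intro h
    have := Order.cof_le h
    rw [Ordinal.cof_toType, (Cardinal.isRegular_aleph_one).cof_ord] at this
    exact absurd (Cardinal.le_aleph0_iff_set_countable.mpr hS)
      (not_le.mpr (Cardinal.aleph0_lt_aleph_one.trans_le this))
  rw [not_isCofinal_iff] at h1
  obtain ⟨b, hb⟩ := h1
  exact ⟨b, fun s hs => by simpa using hb s hs⟩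

private theorem discrete_of_seq {Y : Type u} [TopologicalSpace Y] {θ : Type v} [LinearOrder θ]
    (x : θ → Y) (h1 : ∀ a, x a ∉ closure (x '' Iio a))
    (h2 : ∀ a, ∃ V, IsOpen V ∧ x a ∈ V ∧ ∀ b, a < b → x b ∉ V) : IsDiscrete (range x) := by
  rw [isDiscrete_iff_nhdsWithin]
  rintro _ ⟨a, rfl⟩
  obtain ⟨V, hV, hxV, hVb⟩ := h2 a
  have hN : V ∩ (closure (x '' Iio a))ᶜ ∈ 𝓝 (x a) :=
    (hV.inter isClosed_closure.isOpen_compl).mem_nhds ⟨hxV, h1 a⟩
  have hset : V ∩ (closure (x '' Iio a))ᶜ ∩ range x = {x a} := by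
    ext y
    constructor
    · rintro ⟨⟨hyV, hyc⟩, b, rfl⟩
      rcases lt_trichotomy b a with h | h | h
      · exact (hyc (subset_closure ⟨b, h, rfl⟩)).elim
      · rw [h]; rfl
      · exact (hVb b h hyV).elim
    · rintro rfl
      exact ⟨⟨hxV, h1 a⟩, a, rfl⟩
  have := nhdsWithin_inter_of_mem' (s := range x) (t := V ∩ (closure (x '' Iio a))ᶜ)
    (a := x a) (mem_nhdsWithin_of_mem_nhds hN)
  rw [← this, inter_comm, hset, nhdsWithin_singleton]

theorem lindelof_of_countable_closures {Y : Type u} [TopologicalSpace Y] [T1Space Y]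
    [FirstCountableTopology Y] (hY : DiscretelyLindelof Y) {Z : Set Y} (hZ : IsClosed Z)
    (h : ∀ C ⊆ Z, C.Countable → IsLindelof (closure C)) : IsLindelof Z := by
  classical
  by_contra hcon
  rw [isLindelof_iff_countable_subcover] at hcon
  push Not at hcon
  obtain ⟨ι, U, hUo, hUZ, hUn⟩ := hcon
  have hcv : ∀ A : Set Y, ∃ S : Set ι, S.Countable ∧
      (A ⊆ Z → A.Countable → closure A ⊆ ⋃ i ∈ S, U i) := by
    intro A
    by_cases hA : A ⊆ Z ∧ A.Countable
    · obtain ⟨S, hS, hS'⟩ := (h A hA.1 hA.2).elim_countable_subcover U hUo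
        ((closure_minimal hA.1 hZ).trans hUZ)
      exact ⟨S, hS, fun _ _ => hS'⟩
    · exact ⟨∅, countable_empty, fun h1 h2 => (hA ⟨h1, h2⟩).elim⟩
  choose cv hcvc hcv' using hcv
  obtain ⟨x, hx⟩ := omega_rec (Y := Y) (fun a prev y => y ∈ Z ∧
      (∀ b : Iio a, y ∉ ⋃ i ∈ cv ((fun c : Iio a => prev c) '' {c | c ≤ b}), U i) ∧
      (∀ b : Iio a, y ∉ ⋃ i ∈ cv ((fun c : Iio a => prev c) '' {c | c < b}), U i) ∧
      y ∉ ⋃ i ∈ cv (range prev), U i) (by
    intro a prev
    have hc : (⋃ b : Iio a, cv ((fun c : Iio a => prev c) '' {c | c ≤ b})) ∪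
        (⋃ b : Iio a, cv ((fun c : Iio a => prev c) '' {c | c < b})) ∪ cv (range prev) |>.Countable := by
      have : Countable (Iio a) := (omega_Iio_countable a).to_subtype
      exact ((countable_iUnion fun b => hcvc _).union (countable_iUnion fun b => hcvc _)).union
        (hcvc _)
    have h1 := hUn _ hc
    obtain ⟨y, hyZ, hy⟩ := not_subset.mp h1
    refine ⟨y, hyZ, fun b hb => hy ?_, fun b hb => hy ?_, fun hb => hy ?_⟩
    · exact biUnion_subset_biUnion_left (fun i hi => Or.inl (Or.inl (mem_iUnion.mpr ⟨b, hi⟩))) hb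
    · exact biUnion_subset_biUnion_left (fun i hi => Or.inl (Or.inr (mem_iUnion.mpr ⟨b, hi⟩))) hb
    · exact biUnion_subset_biUnion_left (fun i hi => Or.inr hi) hb)
  have hxZ : ∀ a, x a ∈ Z := fun a => (hx a).1
  have e1 : ∀ a (b : Iio a), (fun c : Iio a => x c) '' {c | c ≤ b} = x '' Iic b.1 := by
    intro a b
    ext y
    constructor
    · rintro ⟨c, hc, rfl⟩
      exact ⟨c.1, hc, rfl⟩
    · rintro ⟨c, hc, rfl⟩
      exact ⟨⟨c, mem_Iio.mpr (lt_of_le_of_lt (mem_Iic.mp hc) (mem_Iio.mp b.2))⟩, mem_Iic.mp hc, rfl⟩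
  have e2 : ∀ a (b : Iio a), (fun c : Iio a => x c) '' {c | c < b} = x '' Iio b.1 := by
    intro a b
    ext y
    constructor
    · rintro ⟨c, hc, rfl⟩
      exact ⟨c.1, hc, rfl⟩
    · rintro ⟨c, hc, rfl⟩
      exact ⟨⟨c, mem_Iio.mpr (lt_trans (mem_Iio.mp hc) (mem_Iio.mp b.2))⟩, mem_Iio.mp hc, rfl⟩
  have e3 : ∀ a, range (fun b : Iio a => x b) = x '' Iio a := by
    intro a
    ext y
    simp
  have k1 : ∀ a b, a < b → x b ∉ ⋃ i ∈ cv (x '' Iic a), U i := by
    intro a b hab
    have := (hx b).2.1 ⟨a, hab⟩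
    rwa [e1] at this
  have k2 : ∀ a b, a < b → x b ∉ ⋃ i ∈ cv (x '' Iio a), U i := by
    intro a b hab
    have := (hx b).2.2.1 ⟨a, hab⟩
    rwa [e2] at this
  have k3 : ∀ a, x a ∉ ⋃ i ∈ cv (x '' Iio a), U i := by
    intro a
    have := (hx a).2.2.2
    rwa [e3] at this
  have hIio : ∀ a, closure (x '' Iio a) ⊆ ⋃ i ∈ cv (x '' Iio a), U i := fun a =>
    hcv' _ (by rintro _ ⟨c, -, rfl⟩; exact hxZ c) ((omega_Iio_countable a).image _)
  have hIic : ∀ a, closure (x '' Iic a) ⊆ ⋃ i ∈ cv (x '' Iic a), U i := fun a =>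
    hcv' _ (by rintro _ ⟨c, -, rfl⟩; exact hxZ c) (by
      refine Countable.image ?_ _
      rw [← Iio_insert]
      exact (omega_Iio_countable a).insert a)
  have hdis : IsDiscrete (range x) := discrete_of_seq x (fun a ha => k3 a (hIio a ha))
    (fun a => ⟨_, isOpen_biUnion fun i _ => hUo i, hIic a (subset_closure ⟨a, mem_Iic.mpr le_rfl, rfl⟩),
      fun b hab => k1 a b hab⟩)
  have hL := hY _ hdis.to_subtype
  obtain ⟨t, htc, hti⟩ := hL.elim_countable_subcover (fun a => ⋃ i ∈ cv (x '' Iio a), U i)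
    (fun a => isOpen_biUnion fun i _ => hUo i) (by
      intro q hq
      obtain ⟨s, hs, hsq⟩ := mem_closure_iff_seq_limit.mp hq
      choose c hc using hs
      obtain ⟨b, hb⟩ := omega_bdd (range c) (countable_range c)
      refine mem_iUnion.mpr ⟨b, hIio b ?_⟩
      refine mem_closure_of_tendsto hsq (Filter.Eventually.of_forall fun n => ?_)
      exact ⟨c n, hb _ (mem_range_self n), hc n⟩)
  obtain ⟨b, hb⟩ := omega_bdd t htc
  have := hti (subset_closure (mem_range_self b))
  simp only [mem_iUnion] at this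
  obtain ⟨a, hat, i, hi, hxi⟩ := this
  exact k2 a b (hb a hat) (mem_biUnion hi hxi)

end PoolD32
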