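import Pool.Agent.Work.MP_d32a8c_gt.ASep
import Pool.Agent.Work.MP_d32a8c_gt.AOmega

/-!
# AFirst: first countable regular discretely Lindelof spaces are Lindelof (S)

PROOF. (1) Every closed `L` with empty interior is Lindelof: `lindelof_of_countable_closures` with
`Z = L`; for countable `C ⊆ L` the set `closure C ⊆ L` is closed, has empty interior
(`interior_mono`), and `nwd_separable_lindelof` applies to it.
(2) For every countable `C ⊆ Y` the set `closure C` is Lindelof: given open sets `U i` covering
`closure C`, a countable subfamily covers `C` (`Set.Countable.isLindelof`), with union `W` open.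
`N := closure C \ W` is closed; its interior `O` is an open subset of `closure C` missing
`C ⊆ W`, hence empty. By (1) `N` is Lindelof and a countable subfamily covers it. (Use
`isLindelof_of_countable_subcover` or work with `IsLindelof` of `N` and of `C`.)
(3) `lindelof_of_countable_closures` with `Z = univ`.
-/

namespace PoolD32

open Set Topology

universe u

theorem lindelof_of_firstCountable {Y : Type u} [TopologicalSpace Y] [T3Space Y]
    [FirstCountableTopology Y] (hY : DiscretelyLindelof Y) : IsLindelof (univ : Set Y) := by
  classical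
  have h1 : ∀ L : Set Y, IsClosed L → interior L = ∅ → IsLindelof L := by
    intro L hL hint
    refine lindelof_of_countable_closures hY hL fun C hCL hC => ?_
    have hsub : closure C ⊆ L := closure_minimal hCL hL
    exact nwd_separable_lindelof hY isClosed_closure
      (subset_empty_iff.1 ((interior_mono hsub).trans hint.subset)) hC subset_closure subset_rfl
  refine lindelof_of_countable_closures hY isClosed_univ fun C _ hC => ?_
  refine isLindelof_of_countable_subcover fun {ι} U hU hcov => ?_
  obtain ⟨r, hr, hrC⟩ := hC.isLindelof.elim_countable_subcover U hU (subset_closure.trans hcov)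
  have hW : IsOpen (⋃ i ∈ r, U i) := isOpen_biUnion fun i _ => hU i
  have hN : IsClosed (closure C \ ⋃ i ∈ r, U i) := isClosed_closure.sdiff hW
  have hNint : interior (closure C \ ⋃ i ∈ r, U i) = ∅ := by
    rw [← not_nonempty_iff_eq_empty]
    rintro ⟨x, hx⟩
    have hx1 : x ∈ closure C := (interior_subset hx).1
    obtain ⟨y, hy1, hy2⟩ := mem_closure_iff.1 hx1 _ isOpen_interior hx
    exact (interior_subset hy1).2 (hrC hy2)
  obtain ⟨r', hr', hr'N⟩ := (h1 _ hN hNint).elim_countable_subcover U hU
    (sdiff_subset.trans hcov)
  refine ⟨r ∪ r', hr.union hr', fun x hx => ?_⟩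
  by_cases hxr : x ∈ ⋃ i ∈ r, U i
  · simp only [mem_iUnion] at hxr ⊢
    obtain ⟨i, hi, hxi⟩ := hxr
    exact ⟨i, Or.inl hi, hxi⟩
  · have := hr'N ⟨hx, hxr⟩
    simp only [mem_iUnion] at this ⊢
    obtain ⟨i, hi, hxi⟩ := this
    exact ⟨i, Or.inr hi, hxi⟩

end PoolD32
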