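import Pool.Agent.Work.MP_d32a8c_gt.Defs

/-!
# ASep: separable nowhere dense closed subsets of a first countable regular space (M)

PROOF. If `L` is empty it is clear. Let `t : ℕ → Y` enumerate a countable subset of `L` dense in
`L` (`C` is nonempty since `L` is nonempty and `L ⊆ closure C`), and for every `k` let
`(B k n)_n` be an antitone basis of open neighbourhoods of `t k` (`(𝓝 (t k)).exists_antitone_basis`,
take interiors, or `exists_antitone_basis` and use `nhds_basis_opens`). Enumerate the pairs `(k,n)`
by `j` (`Nat.unpair`). By recursion on `j` choose points `e j` and open sets `V j` with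
`e j ∈ V j`, `Disjoint (closure (V j)) L`, `e j ∈ B (k j) (n j)`, `e j ∉ L` and
`e j ∉ closure (V i)` for `i < j`. This is possible: `B k n \ ⋃ i<j, closure (V i)` is an open set
containing `t k ∈ L` (closures disjoint from `L`), and `L` has empty interior, so it contains a
point `e ∉ L`; `V` exists since `Y` is regular and `L` is closed.
(For the recursion it is convenient to recurse on the finite union `W` of the closures, or on the
function from a closed set `W` disjoint from `L`, e.g. `Nat.rec` on pairs `(e, W)` or
`exists_seq_of_forall_finset_exists`-style lemmas.)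

`D := range e` is discrete: `V j` contains no `e i` with `i > j`, so `V j ∩ D` is finite, and in a
T1 space a point with a neighbourhood meeting `D` in a finite set is isolated in `D`
(if it belongs to `D`). `closure D ⊇ {t k}` since `e j ∈ B k n` for the `j` coding `(k,n)`; so
`L ⊆ closure C ⊆ closure D`. `closure D` is Lindelof by hypothesis and `L` is closed.
-/

namespace PoolD32

open Set Topology

universe u

theorem nwd_separable_lindelof {Y : Type u} [TopologicalSpace Y] [T3Space Y]
    [FirstCountableTopology Y] (hY : DiscretelyLindelof Y) {L C : Set Y} (hL : IsClosed L)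
    (hint : interior L = ∅) (hC : C.Countable) (hCL : C ⊆ L) (hLC : L ⊆ closure C) :
    IsLindelof L := by
  classical
  rcases L.eq_empty_or_nonempty with rfl | hLne
  · exact isLindelof_empty
  have hCne : C.Nonempty := by
    obtain ⟨x, hx⟩ := hLne
    by_contra h
    rw [not_nonempty_iff_eq_empty] at h
    subst h
    simpa using hLC hx
  haveI : Nonempty Y := ⟨hLne.some⟩
  obtain ⟨t, ht⟩ := hC.exists_eq_range hCne
  have hb := fun k => (𝓝 (t k)).exists_antitone_basis
  choose B hB using hb
  have htL : ∀ k, t k ∈ L := fun k => hCL (ht ▸ mem_range_self k)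
  have step : ∀ (W : Set Y) (j : ℕ), IsClosed W → Disjoint W L → ∃ (e : Y) (V : Set Y),
      IsOpen V ∧ e ∈ V ∧ Disjoint (closure V) L ∧ e ∈ B (Nat.unpair j).1 (Nat.unpair j).2 ∧
      e ∉ W := by
    intro W j hW hWL
    have hU : interior (B (Nat.unpair j).1 (Nat.unpair j).2) ∩ Wᶜ ∈ 𝓝 (t (Nat.unpair j).1) :=
      Filter.inter_mem (interior_mem_nhds.2 ((hB _).toHasBasis.mem_of_mem trivial))
        (hW.isOpen_compl.mem_nhds (disjoint_right.1 hWL (htL _)))
    have hUo : IsOpen (interior (B (Nat.unpair j).1 (Nat.unpair j).2) ∩ Wᶜ) :=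
      isOpen_interior.inter hW.isOpen_compl
    have hns : ¬ (interior (B (Nat.unpair j).1 (Nat.unpair j).2) ∩ Wᶜ ⊆ L) := by
      intro hsub
      have := interior_maximal hsub hUo (mem_of_mem_nhds hU)
      rw [hint] at this
      exact this
    obtain ⟨e, he, heL⟩ := not_subset.1 hns
    obtain ⟨s, hs, hsc, hsL⟩ := exists_mem_nhds_isClosed_subset (hL.isOpen_compl.mem_nhds heL)
    refine ⟨e, interior s, isOpen_interior, mem_interior_iff_mem_nhds.2 hs, ?_,
      interior_subset he.1, he.2⟩
    rw [← subset_compl_iff_disjoint_right]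
    exact (closure_minimal interior_subset hsc).trans hsL
  choose! E V hEV using step
  let W : ℕ → Set Y := fun j => Nat.rec (motive := fun _ => Set Y) ∅
    (fun j W => W ∪ closure (V W j)) j
  have hWs : ∀ j, W (j + 1) = W j ∪ closure (V (W j) j) := fun _ => rfl
  have hWp : ∀ j, IsClosed (W j) ∧ Disjoint (W j) L := by
    intro j
    induction j with
    | zero => exact ⟨isClosed_empty, empty_disjoint _⟩
    | succ j ih =>
      rw [hWs]
      exact ⟨ih.1.union isClosed_closure, ih.2.union_left (hEV (W j) j ih.1 ih.2).2.2.1⟩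
  have hmono : Monotone W := monotone_nat_of_le_succ fun j => by
    rw [hWs]; exact subset_union_left
  have hp := fun j => hEV (W j) j (hWp j).1 (hWp j).2
  set e : ℕ → Y := fun j => E (W j) j with hedef
  have hD : IsDiscrete (range e) := by
    rw [isDiscrete_iff_forall_mem_exists_isOpen]
    rintro _ ⟨j, rfl⟩
    have hfin : ((e '' Iic j) \ {e j}).Finite := ((finite_Iic j).image e).subset sdiff_subset
    refine ⟨V (W j) j ∩ ((e '' Iic j) \ {e j})ᶜ, (hp j).1.inter hfin.isClosed.isOpen_compl, ?_⟩
    ext z
    simp only [mem_inter_iff, mem_range, mem_singleton_iff]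
    constructor
    · rintro ⟨⟨hz1, hz2⟩, i, rfl⟩
      rcases le_or_gt i j with hij | hij
      · by_contra hne
        exact hz2 ⟨⟨i, hij, rfl⟩, hne⟩
      · exfalso
        have h1 : e i ∉ W i := (hp i).2.2.2.2
        refine h1 (hmono (Nat.succ_le_of_lt hij) ?_)
        rw [Nat.succ_eq_add_one, hWs]
        exact Or.inr (subset_closure hz1)
    · rintro rfl
      exact ⟨⟨(hp j).2.1, fun h => h.2 rfl⟩, j, rfl⟩
  have hcl : L ⊆ closure (range e) := by
    refine hLC.trans (closure_minimal ?_ isClosed_closure)
    rw [ht]
    rintro _ ⟨k, rfl⟩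
    rw [mem_closure_iff_nhds]
    intro s hs
    obtain ⟨n, -, hn⟩ := (hB k).toHasBasis.mem_iff.1 hs
    have h1 := (hp (Nat.pair k n)).2.2.2.1
    rw [Nat.unpair_pair] at h1
    exact ⟨_, hn h1, mem_range_self _⟩
  exact (hY (range e) hD.to_subtype).of_isClosed_subset hL hcl

end PoolD32
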