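import Pool.Agent.Work.MP_d32a8c_gt.Defs

/-!
# BadEx: a non-Lindelof space has a bad cover (S)

PROOF. Let `P κ` say: there are `ι : Type u` with `#ι = κ` and an open cover `U : ι → Set X` of `X`
without countable subcover (`∀ S : Set ι, S.Countable → (⋃ i ∈ S, U i) ≠ univ`). `P κ` holds for
some `κ` by `isLindelof_iff_countable_subcover` (the index types there live in the same universe).
Let `κ` be minimal (`Cardinal` is well ordered: `WellFounded.min` / `sInf_mem`). If
`#S < κ` and `⋃ i ∈ S, U i = univ` then the restriction of `U` to the index type `↥S` has no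
countable subcover either, contradicting minimality. `κ > ℵ₀` since otherwise `univ : Set ι` is
countable.
-/

namespace PoolD32

open Set Topology
open scoped Cardinal

universe u

theorem exists_bad {X : Type u} [TopologicalSpace X] (h : ¬ IsLindelof (univ : Set X)) :
    ∃ (κ : Cardinal.{u}) (ι : Type u) (U : ι → Set X), Bad X κ U := by
  classical
  let P : Set Cardinal.{u} := {κ | ∃ (ι : Type u) (U : ι → Set X), #ι = κ ∧ (∀ i, IsOpen (U i)) ∧
    (⋃ i, U i) = univ ∧ ∀ S : Set ι, S.Countable → (⋃ i ∈ S, U i) ≠ univ}
  have hP : P.Nonempty := by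
    rw [isLindelof_iff_countable_subcover] at h
    push Not at h
    obtain ⟨ι, U, hU, hc, hn⟩ := h
    refine ⟨#ι, ι, U, rfl, hU, univ_subset_iff.1 hc, fun S hS heq => ?_⟩
    exact hn S hS heq.ge
  obtain ⟨ι, U, hι, hU, hc, hn⟩ := csInf_mem hP
  refine ⟨sInf P, ι, U, hU, hc, hι, ?_, ?_⟩
  · by_contra hle
    push Not at hle
    have : Countable ι := by
      rw [← Cardinal.mk_le_aleph0_iff, hι]; exact hle
    exact hn univ (to_countable _) (by simpa using hc)
  · intro S hS heq
    have hmem : #S ∈ P := by
      refine ⟨S, fun i => U i, rfl, fun i => hU i, ?_, ?_⟩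
      · rw [← heq, biUnion_eq_iUnion]
      · intro S' hS' heq'
        refine hn (Subtype.val '' S') (hS'.image _) ?_
        rw [biUnion_image]
        exact heq'
    exact absurd (csInf_le' hmem) (not_le.2 hS)

end PoolD32
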