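import Pool.Agent.Work.MP_d32a8c_gt.Defs

/-!
# Base: translation of the hypothesis (S)

`DiscretelyLindelof (OffDiagonal X)` implies `DL X`.

PROOF. Let `D ⊆ X × X` be discrete and disjoint from the diagonal. `D' := Subtype.val ⁻¹' D` is a
discrete subset of `OffDiagonal X` (`IsDiscrete.preimage` / `IsDiscrete.preimage'`, the map
`Subtype.val` is an embedding), so `closure D'` is Lindelof and so is its image under
`Subtype.val` (`IsLindelof.image`). This image is `closure D \ diagonal X`: for an embedding `f`,
`closure (f ⁻¹' D) = f ⁻¹' (closure D)` when `D ⊆ range f`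
(`Topology.IsInducing.closure_eq_preimage_closure_image`), and
`Subtype.val '' (Subtype.val ⁻¹' closure D) = closure D ∩ {p | p.1 ≠ p.2}`.
-/

namespace PoolD32

open Set Topology

universe u

theorem dl_of_discretelyLindelof {X : Type u} [TopologicalSpace X]
    (h : DiscretelyLindelof (OffDiagonal X)) : DL X := by
  intro D hD hoff
  have hemb : IsEmbedding (Subtype.val : OffDiagonal X → X × X) := IsEmbedding.subtypeVal
  have hr : D ⊆ range (Subtype.val : OffDiagonal X → X × X) := fun p hp => ⟨⟨p, hoff p hp⟩, rfl⟩
  have hdis : IsDiscrete ((Subtype.val : OffDiagonal X → X × X) ⁻¹' D) :=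
    hD.preimage hemb.continuous.continuousOn hemb.injective
  have hL := (h _ hdis.to_subtype).image continuous_subtype_val
  rw [hemb.isInducing.closure_eq_preimage_closure_image, image_preimage_eq_of_subset hr,
    image_preimage_eq_inter_range, Subtype.range_coe_subtype] at hL
  have : closure D \ diagonal X = closure D ∩ {x | x.1 ≠ x.2} := by
    ext ⟨a, b⟩
    simp
  rw [this]
  exact hL

end PoolD32
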