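import Pool.Agent.Work.MP_d32a8c_gt.Defs

/-!
# Dsc: a union of blocks is discrete (S)

PROOF. Let `x ∈ B a`. Since `B a` is discrete there is an open `W ∋ x` with `W ∩ B a = {x}`
(`isOpen_inter_eq_singleton_of_mem_discrete`). Let `O` be the open set of `h1 a` and `V` the one of
`h2 a`. `x ∉ closure (⋃ b < a, B b)` because this closure is in `O`, disjoint from `B a`. The open
set `N = W ∩ V ∩ (closure (⋃ b < a, B b))ᶜ` contains `x`; a point `y ∈ N ∩ B c`: `c < a`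
impossible, `c > a` impossible (`V` misses `B c`), `c = a` gives `y = x`. So `N ∩ ⋃ B = {x}`, and
`⋃ a, B a` is discrete (`isDiscrete_iff_nhdsWithin` or `discreteTopology_subtype_iff`).
-/

namespace PoolD32

open Set Topology

universe u v

theorem isDiscrete_iUnion_blocks {X : Type u} [TopologicalSpace X] {θ : Type v} [LinearOrder θ]
    (B : θ → Set X) (hB : ∀ a, IsDiscrete (B a))
    (h1 : ∀ a, ∃ O, IsOpen O ∧ closure (⋃ b ∈ Iio a, B b) ⊆ O ∧ Disjoint O (B a))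
    (h2 : ∀ a, ∃ V, IsOpen V ∧ B a ⊆ V ∧ ∀ c, a < c → Disjoint V (B c)) :
    IsDiscrete (⋃ a, B a) := by
  rw [isDiscrete_iff_nhdsWithin]
  intro x hx
  obtain ⟨a, hxa⟩ := mem_iUnion.mp hx
  obtain ⟨W, hW, hWB⟩ := isOpen_inter_eq_singleton_of_mem_discrete (hB a) hxa
  obtain ⟨O, hO, hcl, hdO⟩ := h1 a
  obtain ⟨V, hV, hBV, hVd⟩ := h2 a
  have hxW : x ∈ W := by
    have : x ∈ W ∩ B a := by rw [hWB]; rfl
    exact this.1
  have hxcl : x ∉ closure (⋃ b ∈ Iio a, B b) := fun h =>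
    disjoint_left.mp hdO (hcl h) hxa
  have hN : W ∩ V ∩ (closure (⋃ b ∈ Iio a, B b))ᶜ ∈ 𝓝 x :=
    ((hW.inter hV).inter isClosed_closure.isOpen_compl).mem_nhds ⟨⟨hxW, hBV hxa⟩, hxcl⟩
  have hset : W ∩ V ∩ (closure (⋃ b ∈ Iio a, B b))ᶜ ∩ (⋃ a, B a) = {x} := by
    ext y
    constructor
    · rintro ⟨⟨⟨hyW, hyV⟩, hyc⟩, hy⟩
      obtain ⟨c, hyc'⟩ := mem_iUnion.mp hy
      rcases lt_trichotomy c a with h | h | h
      · exact (hyc (subset_closure (mem_biUnion (mem_Iio.mpr h) hyc'))).elim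
      · subst h
        have : y ∈ W ∩ B c := ⟨hyW, hyc'⟩
        rw [hWB] at this
        exact this
      · exact (disjoint_left.mp (hVd c h) hyV hyc').elim
    · rintro rfl
      exact ⟨⟨⟨hxW, hBV hxa⟩, hxcl⟩, hx⟩
  have := nhdsWithin_inter_of_mem' (s := ⋃ a, B a) (t := W ∩ V ∩ (closure (⋃ b ∈ Iio a, B b))ᶜ)
    (a := x) (mem_nhdsWithin_of_mem_nhds hN)
  rw [← this, inter_comm, hset, nhdsWithin_singleton]

end PoolD32
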