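import Pool.Agent.Work.MP_d32a8c_gt.ClosE
import Pool.Agent.Work.MP_d32a8c_gt.Dsc

/-!
# Blocks: the recursion producing free sequences of blocks (M-L)

PROOF. For every set `A` fix a countable `cv A : Set ι` such that, if `A` is discrete,
`closure A ⊆ ⋃ i ∈ cv A, U i` (`closure_lindelof`, the `U i` are an open cover). By well-founded
recursion on `a : θ` define `B a` as a chosen set with `Q a (B a)` and
`Disjoint (B a) (⋃ i ∈ S a, U i)`, where
`S a = {e b | b < a} ∪ (⋃ b < a, cv (⋃ c ≤ b, B c)) ∪ (⋃ b < a, cv (⋃ c < b, B c)) ∪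
cv (⋃ c < a, B c)`.
`#(S a) ≤ #(Iio a) * ℵ₀ + ... < κ` because `#(Iio a) < κ` and `ℵ₀ < κ`
(`Cardinal.mk_bUnion_le`/`mk_iUnion_le`, `Cardinal.mul_lt_of_lt`, `add_lt_of_lt`), so `hQ` applies;
no induction hypothesis is needed for the recursion.

By strong induction on `a`: `⋃ c ≤ a, B c` is discrete. Assume this for all `b < a`. First
`⋃ c < a, B c` is discrete: apply `isDiscrete_iUnion_blocks` to `B' c = if c < a then B c else ∅`;
for `c < a` the set `O = ⋃ i ∈ cv (⋃ c' < c, B c'), U i` works for (h1) (`⋃ c' < c, B c'` is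
discrete as a subset of the discrete set `⋃ c' ≤ c, B c'`, or of the induction hypothesis), being
disjoint from `B c` by the choice of `S c`; and `V = ⋃ i ∈ cv (⋃ c' ≤ c, B c'), U i` works for
(h2) (contains `B c ⊆ closure ...`, disjoint from `B d` for `d > c` by the choice of `S d`). Then
the same for `B' c = if c ≤ a then B c else ∅` (for `c = a` take `V = univ`). Finally the same for
`B` itself. (For `c` not below `a` use `O = ∅`... the closure of the union is that of
`⋃ c' < a`; take `O = univ` and `B' c = ∅`.)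

Conclusions: (3) with `O = ⋃ i ∈ cv (⋃ c < a, B c), U i`, disjoint from `B c` for all `c ≥ a`;
(4) from `e a ∈ S b`; (5) `closure (B a) ⊆ closure (⋃ c ≤ a, B c) ⊆ ⋃ i ∈ cv _, U i`, disjoint
from `B b` for `b > a`.
-/

namespace PoolD32

open Set Topology
open scoped Cardinal

universe u

private theorem biUnion_congr_lt {X : Type u} {θ : Type u} [LinearOrder θ] {a : θ}
    {P P' : θ → Set X} (h : ∀ b < a, P b = P' b) :
    (⋃ c ∈ Iio a, P c) = ⋃ c ∈ Iio a, P' c := by
  refine iUnion₂_congr fun c hc => h c hc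

private def TT {X ι θ : Type u} [LinearOrder θ] (cv : Set X → Set ι) (e : θ → ι) (a : θ)
    (P : θ → Set X) : Set ι :=
  (e '' Iio a) ∪ (⋃ b : Iio a, cv (⋃ c ∈ Iic (b : θ), P c)) ∪
    (⋃ b : Iio a, cv (⋃ c ∈ Iio (b : θ), P c)) ∪ cv (⋃ c ∈ Iio a, P c)

private theorem TT_congr {X ι θ : Type u} [LinearOrder θ] (cv : Set X → Set ι) (e : θ → ι) (a : θ)
    {P P' : θ → Set X} (h : ∀ b < a, P b = P' b) : TT cv e a P = TT cv e a P' := by
  unfold TT
  congr 1
  · congr 1
    · congr 1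
      refine iUnion_congr fun b => ?_
      congr 1
      refine iUnion₂_congr fun c hc => h c (lt_of_le_of_lt hc b.2)
    · refine iUnion_congr fun b => ?_
      congr 1
      refine iUnion₂_congr fun c hc => h c (lt_trans hc b.2)
  · congr 1
    exact biUnion_congr_lt h

private theorem mk_TT_lt {X ι θ : Type u} [LinearOrder θ] {κ : Cardinal.{u}} (hκ : ℵ₀ < κ)
    (cv : Set X → Set ι) (hcv : ∀ A, (cv A).Countable) (e : θ → ι) (a : θ)
    (hθ : #(Iio a) < κ) (P : θ → Set X) : #(TT cv e a P) < κ := by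
  have hun : ∀ f : Iio a → Set ι, (∀ b, (f b).Countable) → #(⋃ b, f b) < κ := by
    intro f hf
    refine lt_of_le_of_lt (Cardinal.mk_iUnion_le f) ?_
    refine Cardinal.mul_lt_of_lt hκ.le hθ (lt_of_le_of_lt ?_ hκ)
    exact ciSup_le' fun b => Cardinal.le_aleph0_iff_set_countable.mpr (hf b)
  have hadd : ∀ A B : Set ι, #A < κ → #B < κ → #(A ∪ B : Set ι) < κ := fun A B hA hB =>
    lt_of_le_of_lt (Cardinal.mk_union_le A B) (Cardinal.add_lt_of_lt hκ.le hA hB)
  refine hadd _ _ (hadd _ _ (hadd _ _ ?_ ?_) ?_) ?_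
  · exact lt_of_le_of_lt Cardinal.mk_image_le hθ
  · exact hun _ fun b => hcv _
  · exact hun _ fun b => hcv _
  · exact lt_of_le_of_lt (Cardinal.le_aleph0_iff_set_countable.mpr (hcv _)) hκ

theorem exists_blocks {X : Type u} [TopologicalSpace X] [T2Space X] (hD : DL X)
    {κ : Cardinal.{u}} {ι : Type u} {U : ι → Set X} (hU : Bad X κ U)
    {θ : Type u} [LinearOrder θ] [WellFoundedLT θ] (hθ : ∀ a : θ, #(Iio a) < κ)
    (e : θ → ι) (Q : θ → Set X → Prop) (hQd : ∀ a B, Q a B → IsDiscrete B)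
    (hQ : ∀ (a : θ) (S : Set ι), #S < κ → ∃ B, Q a B ∧ Disjoint B (⋃ i ∈ S, U i)) :
    ∃ B : θ → Set X, (∀ a, Q a (B a)) ∧ IsDiscrete (⋃ a, B a) ∧
      (∀ a, ∃ O, IsOpen O ∧ closure (⋃ b ∈ Iio a, B b) ⊆ O ∧ ∀ c, a ≤ c → Disjoint O (B c)) ∧
      (∀ a b, a < b → Disjoint (U (e a)) (B b)) ∧
      (∀ a b, a < b → Disjoint (closure (B a)) (B b)) := by
  classical
  have hcv : ∀ A : Set X, ∃ S : Set ι, S.Countable ∧
      (IsDiscrete A → closure A ⊆ ⋃ i ∈ S, U i) := by
    intro A
    by_cases hA : IsDiscrete A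
    · obtain ⟨S, hS, hS'⟩ := (closure_lindelof hD hA).elim_countable_subcover U hU.isOpen
        (by rw [hU.cover]; exact subset_univ _)
      exact ⟨S, hS, fun _ => hS'⟩
    · exact ⟨∅, countable_empty, fun h => (hA h).elim⟩
  choose cv hcvc hcv' using hcv
  let ext : (a : θ) → (∀ b, b < a → Set X) → θ → Set X := fun a prev b =>
    if h : b < a then prev b h else ∅
  let F : (a : θ) → (∀ b, b < a → Set X) → Set X := fun a prev =>
    Classical.choose (hQ a (TT cv e a (ext a prev)) (mk_TT_lt hU.unc cv hcvc e a (hθ a) _))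
  let B : θ → Set X := (wellFounded_lt (α := θ)).fix F
  have hBF : ∀ a, B a = F a (fun b _ => B b) := fun a => WellFounded.fix_eq _ _ _
  have hBQ : ∀ a, Q a (B a) ∧ Disjoint (B a) (⋃ i ∈ TT cv e a B, U i) := by
    intro a
    have h1 := Classical.choose_spec (hQ a (TT cv e a (ext a (fun b _ => B b)))
      (mk_TT_lt hU.unc cv hcvc e a (hθ a) _))
    have h2 : TT cv e a (ext a (fun b _ => B b)) = TT cv e a B :=
      TT_congr cv e a fun b hb => by simp only [ext, dif_pos hb]
    have h3 : Classical.choose (hQ a (TT cv e a (ext a (fun b _ => B b)))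
      (mk_TT_lt hU.unc cv hcvc e a (hθ a) _)) = B a := (hBF a).symm
    rw [h3, h2] at h1
    exact h1
  have hBd : ∀ a, IsDiscrete (B a) := fun a => hQd a _ (hBQ a).1
  have hsub : ∀ a (S : Set ι), S ⊆ TT cv e a B → Disjoint (⋃ i ∈ S, U i) (B a) :=
    fun a S hS => ((hBQ a).2.mono_right (biUnion_subset_biUnion_left hS)).symm
  have hT1 : ∀ a b, b < a → cv (⋃ c ∈ Iic b, B c) ⊆ TT cv e a B := fun a b hb x hx =>
    Or.inl (Or.inl (Or.inr (mem_iUnion.mpr ⟨(⟨b, hb⟩ : Iio a), hx⟩)))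
  have hT2 : ∀ a b, b < a → cv (⋃ c ∈ Iio b, B c) ⊆ TT cv e a B := fun a b hb x hx =>
    Or.inl (Or.inr (mem_iUnion.mpr ⟨(⟨b, hb⟩ : Iio a), hx⟩))
  have hT3 : ∀ a, cv (⋃ c ∈ Iio a, B c) ⊆ TT cv e a B := fun a x hx => Or.inr hx
  have hopen : ∀ S : Set ι, IsOpen (⋃ i ∈ S, U i) := fun S =>
    isOpen_biUnion fun i _ => hU.isOpen i
  have key : ∀ I : Set θ, (∀ c ∈ I, IsDiscrete (⋃ c' ∈ Iio c, B c')) →
      (∀ c ∈ I, (∀ d ∈ I, d ≤ c) ∨ IsDiscrete (⋃ c' ∈ Iic c, B c')) →
      IsDiscrete (⋃ c ∈ I, B c) := by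
    intro I hI1 hI2
    refine isDiscrete_iUnion_blocks (fun c => ⋃ _ : c ∈ I, B c) ?_ ?_ ?_
    · intro a
      exact (hBd a).mono (iUnion_subset fun _ => subset_rfl)
    · intro a
      by_cases ha : a ∈ I
      · refine ⟨⋃ i ∈ cv (⋃ c ∈ Iio a, B c), U i, hopen _, ?_, ?_⟩
        · refine (closure_mono ?_).trans (hcv' _ (hI1 a ha))
          exact iUnion₂_mono fun b _ => iUnion_subset fun _ => subset_rfl
        · exact (hsub a _ (hT3 a)).mono_right (iUnion_subset fun _ => subset_rfl)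
      · refine ⟨univ, isOpen_univ, subset_univ _, ?_⟩
        simp [ha]
    · intro a
      by_cases ha : a ∈ I
      · rcases hI2 a ha with h | h
        · refine ⟨univ, isOpen_univ, subset_univ _, fun c hc => ?_⟩
          have : c ∉ I := fun hcI => (not_lt.mpr (h c hcI)) hc
          simp [this]
        · refine ⟨⋃ i ∈ cv (⋃ c ∈ Iic a, B c), U i, hopen _, ?_, ?_⟩
          · refine (iUnion_subset fun _ => ?_).trans (hcv' _ h)
            exact (subset_biUnion_of_mem (u := B) (mem_Iic.mpr le_rfl)).trans subset_closure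
          · intro c hc
            exact (hsub c _ (hT1 c a hc)).mono_right (iUnion_subset fun _ => subset_rfl)
      · refine ⟨∅, isOpen_empty, ?_, fun c _ => disjoint_bot_left⟩
        simp [ha]
  have hmono : ∀ {I J : Set θ}, I ⊆ J → IsDiscrete (⋃ c ∈ J, B c) → IsDiscrete (⋃ c ∈ I, B c) :=
    fun hIJ h => h.mono (biUnion_subset_biUnion_left hIJ)
  have hIic : ∀ a, IsDiscrete (⋃ c ∈ Iic a, B c) := by
    intro a
    induction a using WellFoundedLT.induction with
    | ind a ih =>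
      have hlt : IsDiscrete (⋃ c ∈ Iio a, B c) := by
        refine key (Iio a) ?_ ?_
        · intro c hc
          exact hmono (fun x hx => le_of_lt hx) (ih c hc)
        · intro c hc
          exact Or.inr (ih c hc)
      refine key (Iic a) ?_ ?_
      · intro c hc
        rcases eq_or_lt_of_le (mem_Iic.mp hc) with rfl | h
        · exact hlt
        · exact hmono (fun x hx => le_of_lt hx) (ih c h)
      · intro c hc
        rcases eq_or_lt_of_le (mem_Iic.mp hc) with rfl | h
        · exact Or.inl fun d hd => hd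
        · exact Or.inr (ih c h)
  have hIio : ∀ a, IsDiscrete (⋃ c ∈ Iio a, B c) := fun a =>
    hmono (fun x hx => le_of_lt hx) (hIic a)
  refine ⟨B, fun a => (hBQ a).1, ?_, ?_, ?_, ?_⟩
  · have := key univ (fun c _ => hIio c) (fun c _ => Or.inr (hIic c))
    simpa using this
  · intro a
    refine ⟨⋃ i ∈ cv (⋃ c ∈ Iio a, B c), U i, hopen _, hcv' _ (hIio a), fun c hc => ?_⟩
    rcases eq_or_lt_of_le hc with rfl | h
    · exact hsub _ _ (hT3 _)
    · exact hsub _ _ (hT2 _ _ h)
  · intro a b hab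
    have h1 := hsub b {e a} (by
      rintro _ rfl
      exact Or.inl (Or.inl (Or.inl ⟨a, hab, rfl⟩)))
    simpa using h1
  · intro a b hab
    refine (hsub b _ (hT1 b a hab)).mono_left ?_
    refine (closure_mono ?_).trans (hcv' _ (hIic a))
    exact subset_biUnion_of_mem (u := B) (mem_Iic.mpr le_rfl)

end PoolD32
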