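import Pool.Agent.Work.MP_d32a8c_gt.Funs

/-!
# CmpDsc: discrete sets with compact closure are countable (S)

PROOF. By `prod_lindelof` and `exists_sep_funs` there is a continuous `F : X → (ℕ → ℝ)` injective
on `K := closure E`, `K` compact. The restriction `K → (ℕ → ℝ)` is a continuous injection from a
compact space to a Hausdorff space, hence a closed embedding (`Continuous.isClosedEmbedding`), so
`K` is second countable (`Topology.IsEmbedding.secondCountableTopology`). `E ⊆ K` is discrete in a
second countable space (embed `E` into `K` by `Set.inclusion subset_closure`), hence countable
(`TopologicalSpace.separableSpace_iff_countable` / `countable_of_Lindelof_of_discrete`).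

`discrete_countable`: in a countably compact space `closure E` is Lindelof (`closure_lindelof`) and
countably compact (`IsClosed.isCountablyCompact`), so compact (`IsLindelof.isCompact` in
`Mathlib/Topology/Compactness/CountablyCompact.lean`).
-/

namespace PoolD32

open Set Topology

universe u

variable {X : Type u} [TopologicalSpace X] [T35Space X]

theorem countable_of_isCompact_closure (hD : DL X) {E : Set X} (hE : IsDiscrete E)
    (hK : IsCompact (closure E)) : E.Countable := by
  obtain ⟨F, hF, hinj⟩ := exists_sep_funs (prod_lindelof hD hE)
  haveI : CompactSpace (closure E) := isCompact_iff_compactSpace.1 hK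
  have hF' : Continuous (fun x : closure E => F x) := hF.comp continuous_subtype_val
  have hinj' : Function.Injective (fun x : closure E => F x) := fun x y h =>
    Subtype.ext (hinj x.2 y.2 h)
  have hemb := hF'.isClosedEmbedding hinj'
  haveI : SecondCountableTopology (closure E) := hemb.isEmbedding.secondCountableTopology
  have hdis : IsDiscrete ((Subtype.val : closure E → X) ⁻¹' E) :=
    hE.preimage continuous_subtype_val.continuousOn Subtype.val_injective
  haveI := hdis.to_subtype
  have hc : Countable ((Subtype.val : closure E → X) ⁻¹' E) :=
    TopologicalSpace.separableSpace_iff_countable.1 inferInstance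
  have := (Set.countable_coe_iff.1 hc).image (Subtype.val : closure E → X)
  rwa [Subtype.image_preimage_coe, inter_eq_right.2 subset_closure] at this

theorem discrete_countable (hD : DL X) [CountablyCompactSpace X] {E : Set X}
    (hE : IsDiscrete E) : E.Countable :=
  countable_of_isCompact_closure hD hE
    (IsLindelof.isCompact (isClosed_closure.isCountablyCompact) (closure_lindelof hD hE))

end PoolD32
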