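import Pool.Agent.Work.MP_d32a8c_gt.Funs

/-!
# GdPt: if all discrete subsets are countable then all points are G_delta (M)

PROOF. Suppose `{p}` is not a G_delta set. For every set `A` let `z A : X → ℝ` be a continuous
function with `z A p = 0` and, if `A` is discrete, `z A x ≠ 0` for all `x ∈ closure A`, `x ≠ p`.
(Existence: `closure A \ {p}` is Lindelof: if `p ∈ closure A` by `diff_lindelof`, otherwise it is
`closure A`, `closure_lindelof`; then `exists_pos_fun`; for non-discrete `A` take `0`.) For every
`x` let `v x : X → ℝ` be continuous with `v x p = 0` and `v x x = 1` if `x ≠ p`.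
Let `Ω` be a well ordered type (`LinearOrder`, `WellFoundedLT`) with all `Iio a` countable and not
itself countable (e.g. `(Cardinal.aleph 1).ord.ToType` or `(Ordinal.omega 1).ToType`). By
well-founded recursion choose `x a ≠ p` with `v (x b) (x a) = 0` for all `b < a` and
`z {x b | b < a} (x a) = 0`. This is possible: otherwise `{p}` is the intersection of the countably
many sets `(v (x b))⁻¹ {0}`, `b < a`, and `(z _)⁻¹ {0}`, which are G_delta
(`IsClosed.isGδ` in `ℝ`, `IsGδ.preimage`), so `{p}` would be G_delta (`IsGδ.iInter`,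
`IsGδ.biInter`).

By induction on `a` all sets `A a = {x b | b < a}` are discrete, and so is `range x`: the point
`x b` has the neighbourhood `{v (x b) ≠ 0}` (value 1 at `x b`) which contains no `x c` with
`c > b`, and `x b ∉ closure (A b)` because `z (A b) (x b) = 0`, `x b ≠ p` (here `A b` is discrete
by the induction hypothesis). So `(closure (A b))ᶜ ∩ {v (x b) ≠ 0}` meets the set only in `x b`.
`x` is injective, so `range x` is an uncountable discrete set, a contradiction.
-/

namespace PoolD32

open Set Topology
open scoped Cardinal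

universe u v

/-- recursion scheme -/
private theorem omega_rec {Y : Type u} (P : ∀ a : (Cardinal.aleph.{u} 1).ord.ToType,
    (Iio a → Y) → Y → Prop)
    (hP : ∀ a (prev : Iio a → Y), ∃ y, P a prev y) :
    ∃ x : (Cardinal.aleph.{u} 1).ord.ToType → Y, ∀ a, P a (fun b => x b) (x a) := by
  classical
  let F : (a : (Cardinal.aleph.{u} 1).ord.ToType) → (∀ b, b < a → Y) → Y := fun a prev =>
    Classical.choose (hP a (fun b => prev b.1 b.2))
  let x : (Cardinal.aleph.{u} 1).ord.ToType → Y :=
    (wellFounded_lt (α := (Cardinal.aleph.{u} 1).ord.ToType)).fix F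
  refine ⟨x, fun a => ?_⟩
  have h1 : x a = F a (fun b _ => x b) := WellFounded.fix_eq _ _ _
  have h2 := Classical.choose_spec (hP a (fun b => x b.1))
  have h3 : Classical.choose (hP a (fun b => x b.1)) = x a := h1.symm
  rw [h3] at h2
  exact h2

private theorem omega_Iio_countable (a : (Cardinal.aleph.{u} 1).ord.ToType) :
    (Iio a).Countable := by
  rw [← Cardinal.le_aleph0_iff_set_countable]
  exact Cardinal.lt_aleph_one_iff.mp (Cardinal.mk_Iio_toType_ord_lt a)

private theorem discrete_of_seq {Y : Type u} [TopologicalSpace Y] {θ : Type v} [LinearOrder θ]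
    (x : θ → Y) (h1 : ∀ a, x a ∉ closure (x '' Iio a))
    (h2 : ∀ a, ∃ V, IsOpen V ∧ x a ∈ V ∧ ∀ b, a < b → x b ∉ V) : IsDiscrete (range x) := by
  rw [isDiscrete_iff_nhdsWithin]
  rintro _ ⟨a, rfl⟩
  obtain ⟨V, hV, hxV, hVb⟩ := h2 a
  have hN : V ∩ (closure (x '' Iio a))ᶜ ∈ 𝓝 (x a) :=
    (hV.inter isClosed_closure.isOpen_compl).mem_nhds ⟨hxV, h1 a⟩
  have hset : V ∩ (closure (x '' Iio a))ᶜ ∩ range x = {x a} := by
    ext y
    constructor
    · rintro ⟨⟨hyV, hyc⟩, b, rfl⟩
      rcases lt_trichotomy b a with h | h | h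
      · exact (hyc (subset_closure ⟨b, h, rfl⟩)).elim
      · rw [h]; rfl
      · exact (hVb b h hyV).elim
    · rintro rfl
      exact ⟨⟨hxV, h1 a⟩, a, rfl⟩
  have := nhdsWithin_inter_of_mem' (s := range x) (t := V ∩ (closure (x '' Iio a))ᶜ)
    (a := x a) (mem_nhdsWithin_of_mem_nhds hN)
  rw [← this, inter_comm, hset, nhdsWithin_singleton]

theorem isGdelta_of_discrete_countable {X : Type u} [TopologicalSpace X] [T35Space X]
    (hD : DL X) (h : ∀ E : Set X, IsDiscrete E → E.Countable) (p : X) : IsGδ ({p} : Set X) := by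
  classical
  by_contra hcon
  have hz : ∀ A : Set X, ∃ z : X → ℝ, Continuous z ∧ z p = 0 ∧
      (IsDiscrete A → ∀ x ∈ closure A, x ≠ p → z x ≠ 0) := by
    intro A
    by_cases hA : IsDiscrete A
    · have hL : IsLindelof (closure A \ {p}) := by
        by_cases hp : p ∈ closure A
        · exact diff_lindelof hD hA hp
        · rw [sdiff_singleton_eq_self hp]
          exact closure_lindelof hD hA
      obtain ⟨g, hg, -, hgp, hpos⟩ := exists_pos_fun hL
      exact ⟨g, hg, hgp, fun _ x hx hxp => (hpos x hx hxp).ne'⟩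
    · exact ⟨fun _ => 0, continuous_const, rfl, fun h => (hA h).elim⟩
  choose z hzc hzp hz' using hz
  have hv : ∀ y : X, ∃ v : X → ℝ, Continuous v ∧ v p = 0 ∧ (y ≠ p → v y ≠ 0) := by
    intro y
    have hL : IsLindelof (({y} : Set X) \ {p}) := ((finite_singleton y).subset sdiff_subset).isLindelof
    obtain ⟨g, hg, -, hgp, hpos⟩ := exists_pos_fun hL
    exact ⟨g, hg, hgp, fun hy => (hpos y rfl hy).ne'⟩
  choose v hvc hvp hv' using hv
  obtain ⟨x, hx⟩ := omega_rec (Y := X) (fun a prev y => y ≠ p ∧
      (∀ b : Iio a, v (prev b) y = 0) ∧ z (range prev) y = 0) (by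
    intro a prev
    by_contra hno
    push Not at hno
    apply hcon
    have heq : ({p} : Set X) = (⋂ b : Iio a, (v (prev b)) ⁻¹' {0}) ∩ (z (range prev)) ⁻¹' {0} := by
      ext y
      constructor
      · rintro rfl
        exact ⟨mem_iInter.mpr fun b => hvp _, hzp _⟩
      · rintro ⟨h1, h2⟩
        by_contra hyp
        exact hno y hyp (fun b => mem_iInter.mp h1 b) h2
    rw [heq]
    have : Countable (Iio a) := (omega_Iio_countable a).to_subtype
    exact (IsGδ.iInter fun b => (isClosed_singleton.isGδ).preimage (hvc _)).inter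
      ((isClosed_singleton.isGδ).preimage (hzc _)))
  have hxp : ∀ a, x a ≠ p := fun a => (hx a).1
  have k1 : ∀ a b, a < b → v (x a) (x b) = 0 := fun a b hab => (hx b).2.1 ⟨a, hab⟩
  have k3 : ∀ a, z (x '' Iio a) (x a) = 0 := by
    intro a
    have e3 : range (fun b : Iio a => x b) = x '' Iio a := by
      ext y
      simp
    have := (hx a).2.2
    rwa [e3] at this
  have hd : ∀ a, IsDiscrete (x '' Iio a) := by
    intro a
    induction a using WellFoundedLT.induction with
    | ind a ih =>
      have h1 := discrete_of_seq (fun b : Iio a => x b) (by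
          intro b hb
          have e : (fun b : Iio a => x b) '' Iio b = x '' Iio b.1 := by
            ext y
            constructor
            · rintro ⟨c, hc, rfl⟩
              exact ⟨c.1, hc, rfl⟩
            · rintro ⟨c, hc, rfl⟩
              exact ⟨⟨c, mem_Iio.mpr (lt_trans (mem_Iio.mp hc) (mem_Iio.mp b.2))⟩, mem_Iio.mp hc, rfl⟩
          rw [e] at hb
          exact hz' _ (ih b b.2) _ hb (hxp _) (k3 b))
        (fun b => ⟨{y | v (x b) y ≠ 0}, isOpen_ne_fun (hvc _) continuous_const, hv' _ (hxp _),
          fun c hbc => by simpa using k1 b c hbc⟩)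
      have e : range (fun b : Iio a => x b) = x '' Iio a := by
        ext y
        simp
      rwa [e] at h1
  have hdis : IsDiscrete (range x) := discrete_of_seq x
    (fun a ha => hz' _ (hd a) _ ha (hxp _) (k3 a))
    (fun b => ⟨{y | v (x b) y ≠ 0}, isOpen_ne_fun (hvc _) continuous_const, hv' _ (hxp _),
          fun c hbc => by simpa using k1 b c hbc⟩)
  have hinj : Function.Injective x := by
    have key : ∀ a b, a < b → x a ≠ x b := by
      intro a b hab he
      have := k1 a b hab
      rw [← he] at this
      exact hv' _ (hxp a) this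
    intro a b hab
    rcases lt_trichotomy a b with h | h | h
    · exact (key a b h hab).elim
    · exact h
    · exact (key b a h hab.symm).elim
  have hc := h _ hdis
  have h1 : (univ : Set ((Cardinal.aleph.{u} 1).ord.ToType)).Countable := by
    have := hc.preimage_of_injOn (f := x) hinj.injOn
    rwa [preimage_range] at this
  rw [countable_univ_iff, ← Cardinal.mk_le_aleph0_iff, Cardinal.mk_toType, Cardinal.card_ord] at h1
  exact absurd h1 (not_le.mpr Cardinal.aleph0_lt_aleph_one)

end PoolD32
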