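import Pool.Agent.Work.MP_d32a8c_gt.Defs

/-!
# LindComp: a Lindelof pseudocompact space is compact (S-M)

PROOF. It suffices that every open cover `U` has a finite subcover (`isCompact_of_finite_subcover`,
`isCompact_univ_iff`). For `x ∈ X` choose `i(x)` with `x ∈ U (i x)` and a continuous
`f_x : X → [0,1]` with `f_x x = 1`, `f_x = 0` off `U (i x)` (complete regularity, take `1 - f`).
The open sets `{f_x > 0}` cover `X`; countably many `f_n := f_{x_n}` suffice. Put
`F = ∑' n, (1/2)^n * f_n`, continuous and `> 0` everywhere. `1 / F` is continuous, hence bounded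
by some `C > 0`, so `F ≥ 1/C`. Choose `N` with `∑_{n ≥ N} (1/2)^n = 2 (1/2)^N < 1/C`. If `x` is in
no `{f_n > 0}`, `n < N`, then `F x ≤ 2 (1/2)^N < 1/C`, a contradiction. So the sets
`U (i x_n)`, `n < N`, cover `X`.
-/

namespace PoolD32

open Set Topology

universe u

theorem compactSpace_of_lindelof {X : Type u} [TopologicalSpace X] (hX : Pseudocompact X)
    (h : IsLindelof (univ : Set X)) : CompactSpace X := by
  classical
  haveI : T35Space X := hX.1
  rw [← isCompact_univ_iff]
  refine isCompact_of_finite_subcover fun {ι} U hU hcov => ?_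
  have hi : ∀ x : X, ∃ i, x ∈ U i := fun x => mem_iUnion.1 (hcov (mem_univ x))
  choose i hi using hi
  have hcr := fun x => CompletelyRegularSpace.completely_regular x (U (i x))ᶜ
    (hU (i x)).isClosed_compl (fun h => h (hi x))
  choose g hgc hg0 hg1 using hcr
  -- f_x = 1 - g_x
  have hV : ∀ x, IsOpen {y | (g x y : ℝ) < 1} := fun x =>
    isOpen_lt (continuous_subtype_val.comp (hgc x)) continuous_const
  obtain ⟨r, hr, hrc⟩ := h.elim_countable_subcover (fun x => {y | (g x y : ℝ) < 1}) hV (by
    intro x _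
    refine mem_iUnion.2 ⟨x, ?_⟩
    show (g x x : ℝ) < 1
    rw [hg0 x]; norm_num)
  rcases isEmpty_or_nonempty X with hE | hne
  · refine ⟨∅, fun x => (hE.false x).elim⟩
  have hrne : r.Nonempty := by
    obtain ⟨x⟩ := hne
    have := hrc (mem_univ x)
    simp only [mem_iUnion] at this
    obtain ⟨y, hy, -⟩ := this
    exact ⟨y, hy⟩
  obtain ⟨e, he⟩ := hr.exists_eq_range hrne
  let f : ℕ → X → ℝ := fun n y => 1 - (g (e n) y : ℝ)
  have hf0 : ∀ n y, 0 ≤ f n y := fun n y => by
    have := (g (e n) y).2.2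
    simp only [f]; linarith
  have hf1 : ∀ n y, f n y ≤ 1 := fun n y => by
    have := (g (e n) y).2.1
    simp only [f]; linarith
  have hfc : ∀ n, Continuous (f n) := fun n =>
    continuous_const.sub (continuous_subtype_val.comp (hgc (e n)))
  let F : X → ℝ := fun x => ∑' n, (1 / 2 : ℝ) ^ n * f n x
  have hle : ∀ n x, (1 / 2 : ℝ) ^ n * f n x ≤ (1 / 2 : ℝ) ^ n := by
    intro n x
    have h2 : (0 : ℝ) ≤ (1 / 2 : ℝ) ^ n := by positivity
    nlinarith [hf1 n x]
  have hsum : ∀ x, Summable fun n => (1 / 2 : ℝ) ^ n * f n x := fun x =>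
    Summable.of_nonneg_of_le (fun n => mul_nonneg (by positivity) (hf0 n x)) (fun n => hle n x)
      summable_geometric_two
  have hFc : Continuous F := by
    refine continuous_tsum (u := fun n => (1 / 2 : ℝ) ^ n) (fun n => continuous_const.mul (hfc n))
      summable_geometric_two ?_
    intro n x
    rw [Real.norm_eq_abs, abs_of_nonneg (mul_nonneg (by positivity) (hf0 n x))]
    exact hle n x
  have hFpos : ∀ x, 0 < F x := by
    intro x
    have hx := hrc (mem_univ x)
    simp only [mem_iUnion] at hx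
    obtain ⟨y, hy, hxy⟩ := hx
    rw [he] at hy
    obtain ⟨n, rfl⟩ := hy
    have hxy' : (g (e n) x : ℝ) < 1 := hxy
    have : (0 : ℝ) < (1 / 2 : ℝ) ^ n * f n x := mul_pos (by positivity) (by simp only [f]; linarith)
    exact (hsum x).tsum_pos (fun m => mul_nonneg (by positivity) (hf0 m x)) n this
  obtain ⟨C, hC⟩ := hX.2 (fun x => 1 / F x) (continuous_const.div hFc fun x => (hFpos x).ne')
  have hCpos : 0 < C := by
    obtain ⟨x⟩ := hne
    have := hC x
    rw [abs_of_pos (div_pos one_pos (hFpos x))] at this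
    exact (div_pos one_pos (hFpos x)).trans_le this
  obtain ⟨N, hN⟩ := exists_pow_lt_of_lt_one (show (0 : ℝ) < 1 / (2 * C) by positivity)
    (show (1 / 2 : ℝ) < 1 by norm_num)
  refine ⟨(Finset.range N).image (fun n => i (e n)), fun x _ => ?_⟩
  by_contra hx
  have hz : ∀ n < N, f n x = 0 := by
    intro n hn
    have hxU : x ∉ U (i (e n)) := by
      intro hxU
      apply hx
      simp only [mem_iUnion]
      exact ⟨i (e n), Finset.mem_image.2 ⟨n, Finset.mem_range.2 hn, rfl⟩, hxU⟩
    have : g (e n) x = 1 := hg1 (e n) hxU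
    simp only [f]; rw [this]; simp
  have hFx : F x ≤ 2 * (1 / 2 : ℝ) ^ N := by
    have h1 : F x = ∑' n, (1 / 2 : ℝ) ^ (n + N) * f (n + N) x := by
      have := (hsum x).sum_add_tsum_nat_add N
      rw [Finset.sum_eq_zero, zero_add] at this
      · exact this.symm
      · intro n hn
        rw [hz n (Finset.mem_range.1 hn), mul_zero]
    rw [h1]
    have h2 : Summable fun n : ℕ => (1 / 2 : ℝ) ^ (n + N) :=
      (summable_nat_add_iff N).2 summable_geometric_two
    calc ∑' n, (1 / 2 : ℝ) ^ (n + N) * f (n + N) x ≤ ∑' n : ℕ, (1 / 2 : ℝ) ^ (n + N) :=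
          ((summable_nat_add_iff N).2 (hsum x)).tsum_le_tsum (fun n => hle (n + N) x) h2
      _ = 2 * (1 / 2 : ℝ) ^ N := by
          simp_rw [pow_add]
          rw [tsum_mul_right, tsum_geometric_two]
  have h3 := hC x
  rw [abs_of_pos (div_pos one_pos (hFpos x)), div_le_iff₀ (hFpos x)] at h3
  have h4 : F x < 1 / C := by
    calc F x ≤ 2 * (1 / 2 : ℝ) ^ N := hFx
      _ < 2 * (1 / (2 * C)) := by linarith
      _ = 1 / C := by field_simp
  rw [lt_div_iff₀ hCpos] at h4
  linarith

end PoolD32
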