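import Pool.Agent.Work.MP_d32a8c_gt.PscGd
import Pool.Agent.Work.MP_d32a8c_gt.LindComp
import Pool.Agent.Work.MP_d32a8c_gt.AFirst
import Pool.Agent.Work.MP_d32a8c_gt.GdPt
import Pool.Agent.Work.MP_d32a8c_gt.CmpDsc
import Pool.Agent.Work.MP_d32a8c_gt.Base

/-!
# CMet: the cases of G_delta points, countably compact and Lindelof spaces (M)

`of_gdelta`. PROOF. `X` is first countable (`nhds_isCountablyGenerated`), so `OffDiagonal X` is
first countable and T3 (`T35Space` of the product and of subtypes). By `lindelof_of_firstCountable`
`OffDiagonal X` is Lindelof, so (image under `Subtype.val`) `(univ ×ˢ univ) \ diagonal X =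
(diagonal X)ᶜ` is Lindelof in `X × X`. If `X` is empty everything is clear; otherwise fix `p`:
`{p}ᶜ` is the image under `Prod.snd` of `(diagonal X)ᶜ ∩ ({p} ×ˢ univ)`, so Lindelof, and
`univ = {p}ᶜ ∪ {p}` is Lindelof. By `compactSpace_of_lindelof` `X` is compact. By
`exists_sep_funs` with `L = univ` there is a continuous injection of the compact space `X` into
`ℕ → ℝ`, a closed embedding (`Continuous.isClosedEmbedding`), so `X` is metrizable
(`Topology.IsEmbedding.metrizableSpace`).

`of_countablyCompact`: all discrete sets are countable (`discrete_countable`), so all points are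
G_delta (`isGdelta_of_discrete_countable`), apply `of_gdelta`. Here pseudocompactness is assumed.

`of_lindelof`: `X` is compact by `compactSpace_of_lindelof`, hence countably compact.

`dl_compact_metrizable`: for a compact Hausdorff space `K` with `DL K`: `K` is Tychonoff
(`T35Space` instance from T4) and pseudocompact (continuous functions on compact spaces are
bounded); but `of_countablyCompact` uses `DiscretelyLindelof (OffDiagonal K)`; prove that this
follows from `DL K` (image under `Subtype.val` of a discrete set `D` of the subspace is discrete
and off-diagonal, `closure D = Subtype.val ⁻¹' (closure (val '' D))`, and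
`Topology.IsInducing.isLindelof_iff` / `Topology.IsEmbedding.isLindelof_iff`).
-/

namespace PoolD32

open Set Topology

universe u

variable {X : Type u} [TopologicalSpace X]

theorem of_gdelta (hX : Pseudocompact X) (hY : DiscretelyLindelof (OffDiagonal X))
    (h : ∀ p : X, IsGδ ({p} : Set X)) : CompactSpace X ∧ TopologicalSpace.MetrizableSpace X := by
  classical
  haveI : T35Space X := hX.1
  haveI : FirstCountableTopology X := ⟨fun p => nhds_isCountablyGenerated hX (h p)⟩
  haveI : FirstCountableTopology (OffDiagonal X) :=
    (IsEmbedding.subtypeVal (p := fun p : X × X => p.1 ≠ p.2)).isInducing.firstCountableTopology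
  have hlin : IsLindelof (univ : Set (OffDiagonal X)) := lindelof_of_firstCountable hY
  have hlin2 : IsLindelof ((diagonal X)ᶜ) := by
    have := hlin.image (continuous_subtype_val : Continuous (Subtype.val : OffDiagonal X → X × X))
    rw [image_univ, Subtype.range_coe_subtype] at this
    exact this
  have hU : IsLindelof (univ : Set X) := by
    rcases isEmpty_or_nonempty X with hE | ⟨⟨p⟩⟩
    · rw [univ_eq_empty_iff.2 hE]; exact isLindelof_empty
    · have h1 := (hlin2.inter_right ((isClosed_singleton (x := p)).prod isClosed_univ)).image
        continuous_snd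
      refine (h1.union (isLindelof_singleton (x := p))).of_isClosed_subset isClosed_univ ?_
      intro q _
      by_cases hq : q = p
      · exact Or.inr hq
      · exact Or.inl ⟨(p, q), ⟨fun e => hq e.symm, rfl, mem_univ _⟩, rfl⟩
  haveI : CompactSpace X := compactSpace_of_lindelof hX hU
  refine ⟨inferInstance, ?_⟩
  obtain ⟨F, hF, hinj⟩ := exists_sep_funs (L := (univ : Set X)) (by
    rw [univ_prod_univ, ← compl_eq_univ_sdiff]; exact hlin2)
  exact (hF.isClosedEmbedding (injOn_univ.1 hinj)).isEmbedding.metrizableSpace

theorem of_countablyCompact (hX : Pseudocompact X) (hY : DiscretelyLindelof (OffDiagonal X))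
    (h : CountablyCompactSpace X) : CompactSpace X ∧ TopologicalSpace.MetrizableSpace X := by
  haveI : T35Space X := hX.1
  have hD := dl_of_discretelyLindelof hY
  exact of_gdelta hX hY fun p =>
    isGdelta_of_discrete_countable hD (fun E hE => discrete_countable hD hE) p

theorem of_lindelof (hX : Pseudocompact X) (hY : DiscretelyLindelof (OffDiagonal X))
    (h : IsLindelof (univ : Set X)) : CompactSpace X ∧ TopologicalSpace.MetrizableSpace X := by
  haveI := compactSpace_of_lindelof hX h
  exact of_countablyCompact hX hY (isCountablyCompact_univ_iff.1 isCompact_univ.isCountablyCompact)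

theorem dl_compact_metrizable {K : Type u} [TopologicalSpace K] [CompactSpace K] [T2Space K]
    (hD : DL K) : TopologicalSpace.MetrizableSpace K := by
  have hP : Pseudocompact K := by
    refine ⟨inferInstance, fun f hf => ?_⟩
    obtain ⟨C, hC⟩ := (isCompact_range hf).isBounded.exists_norm_le
    exact ⟨C, fun x => by simpa [Real.norm_eq_abs] using hC (f x) (mem_range_self x)⟩
  have hY : DiscretelyLindelof (OffDiagonal K) := by
    intro D hDd
    have hemb : IsEmbedding (Subtype.val : OffDiagonal K → K × K) := IsEmbedding.subtypeVal
    have hdis : IsDiscrete ((Subtype.val : OffDiagonal K → K × K) '' D) :=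
      (isDiscrete_iff_discreteTopology.2 hDd).image hemb.isInducing
    have hL := hD _ hdis (by rintro _ ⟨z, -, rfl⟩; exact z.2)
    rw [hemb.isInducing.isLindelof_iff, hemb.isInducing.closure_eq_preimage_closure_image,
      image_preimage_eq_inter_range, Subtype.range_coe_subtype]
    exact hL
  exact (of_countablyCompact hP hY
    (isCountablyCompact_univ_iff.1 isCompact_univ.isCountablyCompact)).2

end PoolD32
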