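import Pool.Agent.Work.MP_d32a8c_gt.Defs

/-!
# ClosE: closures of discrete subsets of X (S)

PROOF. Let `E ⊆ X` be discrete. `D := (E ×ˢ E) \ diagonal X` is discrete (product of discrete sets,
subset) and off-diagonal, and `closure D \ diagonal X ⊇ (closure E ×ˢ closure E) \ diagonal X`:
if `p ≠ q` are in `closure E`, take disjoint neighbourhoods of `p` and `q` (`T2Space`) inside given
neighbourhoods; they contain points `e`, `f` of `E` and `e ≠ f`. The converse inclusion is clear
(`closure D ⊆ closure E ×ˢ closure E`, `closure_prod_eq`). So `prod_lindelof` is the hypothesis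
`DL X` for `D`.

`diff_lindelof`: for `p ∈ closure E` the set `closure E \ {p}` is the image under `Prod.snd` of
`((closure E ×ˢ closure E) \ diagonal X) ∩ ({p} ×ˢ closure E)`, a relatively closed subset of a
Lindelof set (`IsLindelof.inter_right`, `IsLindelof.image`).

`closure_lindelof`: if `closure E` is empty, clear; otherwise `closure E ⊆ (closure E \ {p}) ∪ {p}`
with `p ∈ closure E` (`IsLindelof.union`, `isLindelof_singleton`, `of_isClosed_subset`).
-/

namespace PoolD32

open Set Topology

universe u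

variable {X : Type u} [TopologicalSpace X] [T2Space X]

private theorem snd_image_lindelof {D : Set (X × X)} (hD : IsLindelof D) (p : X) {L : Set X}
    (hL : IsClosed L) (h : ∀ q ∈ L, q ≠ p → (p, q) ∈ D) (hdiag : ∀ z ∈ D, z.1 ≠ z.2) :
    IsLindelof (L \ {p}) := by
  have h1 : IsLindelof (D ∩ ({p} ×ˢ L)) := hD.inter_right (isClosed_singleton.prod hL)
  have h2 := h1.image continuous_snd
  convert h2 using 1
  ext q
  simp only [mem_sdiff, mem_singleton_iff, mem_image, mem_inter_iff, mem_prod, Prod.exists,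
    exists_eq_right]
  constructor
  · rintro ⟨hq, hqp⟩
    exact ⟨p, h q hq hqp, rfl, hq⟩
  · rintro ⟨a, ha, rfl, hq⟩
    exact ⟨hq, fun e => hdiag _ ha e.symm⟩

private theorem closure_of_diff {L : Set X} (hL : IsClosed L) (p : X) (h : IsLindelof (L \ {p})) :
    IsLindelof L := by
  refine (h.union (isLindelof_singleton (x := p))).of_isClosed_subset hL ?_
  intro q hq
  by_cases hqp : q = p
  · exact Or.inr hqp
  · exact Or.inl ⟨hq, hqp⟩

theorem prod_lindelof (hD : DL X) {E : Set X} (hE : IsDiscrete E) :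
    IsLindelof ((closure E ×ˢ closure E) \ diagonal X) := by
  have hdis : IsDiscrete ((E ×ˢ E) \ diagonal X) := by
    refine IsDiscrete.mono (s := E ×ˢ E) ?_ sdiff_subset
    rw [isDiscrete_iff_nhdsWithin]
    rintro ⟨a, b⟩ ⟨ha, hb⟩
    rw [nhdsWithin_prod_eq, (isDiscrete_iff_nhdsWithin.mp hE) a ha,
      (isDiscrete_iff_nhdsWithin.mp hE) b hb, Filter.prod_pure_pure]
  have h := hD _ hdis (fun p hp => hp.2)
  convert h using 1
  ext ⟨p, q⟩
  simp only [mem_sdiff, mem_diagonal_iff]
  refine and_congr_left fun hpq => ?_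
  constructor
  · rintro ⟨hp, hq⟩
    rw [mem_closure_iff_nhds]
    intro t ht
    obtain ⟨U, V, hU, hV, hpU, hqV, hUV⟩ := t2_separation hpq
    obtain ⟨A, hA, B, hB, hAB⟩ := mem_nhds_prod_iff.mp ht
    obtain ⟨e, he1, he2⟩ := mem_closure_iff_nhds.mp hp (A ∩ U) (Filter.inter_mem hA (hU.mem_nhds hpU))
    obtain ⟨f, hf1, hf2⟩ := mem_closure_iff_nhds.mp hq (B ∩ V) (Filter.inter_mem hB (hV.mem_nhds hqV))
    refine ⟨(e, f), hAB ⟨he1.1, hf1.1⟩, ⟨he2, hf2⟩, ?_⟩
    intro hef
    exact disjoint_left.mp hUV he1.2 (by rw [show e = f from hef]; exact hf1.2)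
  · intro h
    have := closure_mono (s := (E ×ˢ E) \ diagonal X) sdiff_subset h
    rw [closure_prod_eq] at this
    exact this

theorem diff_lindelof (hD : DL X) {E : Set X} (hE : IsDiscrete E) {p : X} (hp : p ∈ closure E) :
    IsLindelof (closure E \ {p}) :=
  snd_image_lindelof (prod_lindelof hD hE) p isClosed_closure
    (fun _ hq hqp => ⟨⟨hp, hq⟩, fun e => hqp e.symm⟩) (fun _ hz => hz.2)

theorem closure_lindelof (hD : DL X) {E : Set X} (hE : IsDiscrete E) :
    IsLindelof (closure E) := by
  rcases (closure E).eq_empty_or_nonempty with h | ⟨p, hp⟩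
  · rw [h]; exact isLindelof_empty
  · exact closure_of_diff isClosed_closure p (diff_lindelof hD hE hp)

end PoolD32
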