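import Pool.Agent.Work.MP_d32a8c_gt.Defs

/-!
# Clus: cluster points of long sequences in Lindelof sets (S)

PROOF. Suppose every `q ∈ L` has an index `b q` with `q ∉ closure (p '' Ioi (b q))`. The open sets
`(closure (p '' Ioi (b q)))ᶜ` cover `L`, countably many of them, for `q_n`, cover `L`. Take
`a > b (q_n)` for all `n` by `hθ`: `p a ∈ L` lies in one of these open sets, but
`p a ∈ p '' Ioi (b q_n)`. Contradiction. (`Nonempty θ` makes `L` nonempty; the empty set of indices
gives some `a` by `hθ`, so `L` cannot be empty.)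
-/

namespace PoolD32

open Set Topology

universe u v

theorem exists_cluster {X : Type u} [TopologicalSpace X] {θ : Type v} [LinearOrder θ]
    (hθ : ∀ S : Set θ, S.Countable → ∃ b, ∀ s ∈ S, s < b) {L : Set X} (hL : IsLindelof L)
    (p : θ → X) (hp : ∀ a, p a ∈ L) : ∃ q ∈ L, ∀ b, q ∈ closure (p '' Ioi b) := by
  classical
  by_contra hcon
  push Not at hcon
  have : Nonempty θ := ⟨(hθ ∅ countable_empty).choose⟩
  choose! b hb using hcon
  obtain ⟨t, htc, hti⟩ := hL.elim_nhds_subcover (fun q => if q ∈ L then (closure (p '' Ioi (b q)))ᶜ else univ) (by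
    intro q hq
    simp only [hq, if_true]
    exact isClosed_closure.isOpen_compl.mem_nhds (hb q hq))
  obtain ⟨a, ha⟩ := hθ (b '' t) (htc.image b)
  have := hti.2 (hp a)
  simp only [mem_iUnion] at this
  obtain ⟨q, hq, hqa⟩ := this
  rw [if_pos (hti.1 q hq)] at hqa
  exact hqa (subset_closure ⟨a, ha _ ⟨q, hq, rfl⟩, rfl⟩)

end PoolD32
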