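import Pool.Agent.Work.MP_d32a8c_gt.KFacts

/-!
# DCont: a discrete subset of size continuum is impossible (M)

PROOF. For every countable `V ⊆ ι` choose a point `y V ∉ ⋃ i ∈ V, U i` (`hU.small`, `#V ≤ ℵ₀ < κ`).
The number of countable subsets of `ι` is `≤ κ ^ ℵ₀ ≤ 𝔠 ^ ℵ₀ = 𝔠` (`bad_facts`; countable
subsets are ranges of sequences, or empty), so also `{V : Set ι // V.Countable} × Bool` has
cardinality `≤ 𝔠 ≤ #E` and there is an injection `j : {V // V.Countable} × Bool → E`. Put
`D = {z : X × X | ∃ w, z = (j w, y w.1) ∧ z.1 ≠ z.2}`. `D` is discrete: if `(j w, y w.1) ∈ D` and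
`W` is open with `W ∩ E = {j w}` then `D ∩ (W ×ˢ univ) = {(j w, y w.1)}`. So
`closure D \ diagonal X` is Lindelof and so is `L = Prod.snd '' (closure D \ diagonal X)`. `L`
contains every `y V`: `j (V, true) ≠ j (V, false)`, so one of them differs from `y V`. The `U i`
cover `L`, so a countable `V ⊆ ι` has `L ⊆ ⋃ i ∈ V, U i`, but `y V ∈ L` is not in this union.
-/

namespace PoolD32

open Set Topology
open scoped Cardinal

universe u

theorem false_of_discrete_continuum {X : Type u} [TopologicalSpace X] [T35Space X] (hD : DL X)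
    {κ : Cardinal.{u}} {ι : Type u} {U : ι → Set X} (hU : Bad X κ U) {E : Set X}
    (hE : IsDiscrete E) (h : Cardinal.continuum.{u} ≤ #E) : False := by
  classical
  obtain ⟨-, hκ⟩ := bad_facts hD hU
  have hpt : ∀ V : {V : Set ι // V.Countable}, ∃ x, x ∉ ⋃ i ∈ V.1, U i := by
    intro V
    exact (ne_univ_iff_exists_notMem _).mp (hU.small _
      (lt_of_le_of_lt (Cardinal.le_aleph0_iff_set_countable.mpr V.2) hU.unc))
  choose y hy using hpt
  have hcard : #({V : Set ι // V.Countable} × ULift.{u} Bool) ≤ Cardinal.continuum.{u} := by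
    have h1 : #{V : Set ι // V.Countable} ≤ Cardinal.continuum.{u} := by
      have hsur : Function.Surjective (fun f : ULift.{u} ℕ → Option ι =>
          (⟨{i | some i ∈ range f}, (countable_range f).preimage_of_injOn
            (Option.some_injective ι).injOn⟩ : {V : Set ι // V.Countable})) := by
        rintro ⟨V, hV⟩
        rcases V.eq_empty_or_nonempty with rfl | hne
        · refine ⟨fun _ => none, ?_⟩
          ext i
          simp
        · obtain ⟨f, hf⟩ := hV.exists_eq_range hne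
          refine ⟨fun n => some (f n.down), ?_⟩
          ext i
          simp only [hf, mem_range, Option.some.injEq, ULift.exists]
          rfl
      refine (Cardinal.mk_le_of_surjective hsur).trans ?_
      have h2 : #(Option ι) ≤ Cardinal.continuum.{u} := by
        rw [Cardinal.mk_option, hU.card]
        exact (Cardinal.add_lt_of_lt Cardinal.aleph0_le_continuum hκ
          (Cardinal.one_lt_aleph0.trans Cardinal.aleph0_lt_continuum)).le
      have h3 : #(ULift.{u} ℕ → Option ι) = #(Option ι) ^ (ℵ₀ : Cardinal.{u}) := by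
        rw [← Cardinal.power_def]
        simp
      rw [h3]
      calc #(Option ι) ^ (ℵ₀ : Cardinal.{u}) ≤ Cardinal.continuum ^ (ℵ₀ : Cardinal.{u}) :=
            Cardinal.power_le_power_right h2
        _ = Cardinal.continuum := Cardinal.continuum_power_aleph0
    rw [Cardinal.mk_prod]
    simp only [Cardinal.lift_id]
    refine (mul_le_mul' h1 (show _ ≤ Cardinal.continuum.{u} from ?_)).trans ?_
    · rw [Cardinal.mk_uLift, Cardinal.mk_bool]
      simp only [Cardinal.lift_ofNat]
      exact ((Cardinal.natCast_lt_aleph0 (n := 2)).trans Cardinal.aleph0_lt_continuum).le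
    · exact (Cardinal.continuum_mul_self).le
  obtain ⟨j⟩ := (Cardinal.le_def _ _).mp (hcard.trans h)
  set D : Set (X × X) := {z | ∃ w, z = ((j w : X), y w.1) ∧ z.1 ≠ z.2} with hDdef
  have hdis : IsDiscrete D := by
    rw [isDiscrete_iff_nhdsWithin]
    rintro z ⟨w, rfl, hne⟩
    obtain ⟨W, hW, hWB⟩ := isOpen_inter_eq_singleton_of_mem_discrete hE (j w).2
    have hxW : (j w : X) ∈ W := by
      have : (j w : X) ∈ W ∩ E := by rw [hWB]; rfl
      exact this.1
    have hN : W ×ˢ (univ : Set X) ∈ 𝓝 ((j w : X), y w.1) :=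
      (hW.prod isOpen_univ).mem_nhds ⟨hxW, mem_univ _⟩
    have hset : W ×ˢ (univ : Set X) ∩ D = {((j w : X), y w.1)} := by
      ext ⟨a, b⟩
      constructor
      · rintro ⟨⟨haW, -⟩, w', hw', -⟩
        simp only at haW
        obtain ⟨rfl, rfl⟩ := Prod.mk.inj hw'
        have h1 : (j w' : X) ∈ W ∩ E := ⟨haW, (j w').2⟩
        rw [hWB] at h1
        have h2 : w' = w := j.injective (Subtype.ext h1)
        rw [h2]
        rfl
      · intro h
        rw [mem_singleton_iff] at h
        obtain ⟨rfl, rfl⟩ := Prod.mk.inj h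
        exact ⟨⟨hxW, mem_univ _⟩, w, rfl, hne⟩
    have := nhdsWithin_inter_of_mem' (s := D) (t := W ×ˢ (univ : Set X))
      (a := ((j w : X), y w.1)) (mem_nhdsWithin_of_mem_nhds hN)
    rw [← this, inter_comm, hset, nhdsWithin_singleton]
  have hL := (hD D hdis (fun z hz => hz.choose_spec.2)).image continuous_snd
  obtain ⟨V, hVc, hV⟩ := hL.elim_countable_subcover U hU.isOpen
    (by rw [hU.cover]; exact subset_univ _)
  refine hy ⟨V, hVc⟩ (hV ?_)
  have hor : (j (⟨V, hVc⟩, ⟨true⟩) : X) ≠ y ⟨V, hVc⟩ ∨ (j (⟨V, hVc⟩, ⟨false⟩) : X) ≠ y ⟨V, hVc⟩ := by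
    by_contra hcon
    push Not at hcon
    have h1 : (j (⟨V, hVc⟩, ⟨true⟩) : X) = (j (⟨V, hVc⟩, ⟨false⟩) : X) := hcon.1.trans hcon.2.symm
    have h2 := j.injective (Subtype.ext h1)
    simp at h2
  rcases hor with hor | hor
  · exact ⟨((j (⟨V, hVc⟩, ⟨true⟩) : X), y ⟨V, hVc⟩),
      ⟨subset_closure ⟨(⟨V, hVc⟩, ⟨true⟩), rfl, hor⟩, hor⟩, rfl⟩
  · exact ⟨((j (⟨V, hVc⟩, ⟨false⟩) : X), y ⟨V, hVc⟩),
      ⟨subset_closure ⟨(⟨V, hVc⟩, ⟨false⟩), rfl, hor⟩, hor⟩, rfl⟩

end PoolD32
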