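import Pool.Agent.Work.MP_d32a8c_gt.KFacts

/-!
# DUnion: spaces covered by few closures of discrete sets
-/

namespace PoolD32

open Set Topology
open scoped Cardinal

universe u

theorem false_of_union_closures {X : Type u} [TopologicalSpace X] [T35Space X] (hD : DL X)
    {κ : Cardinal.{u}} {ι : Type u} {U : ι → Set X} (hU : Bad X κ U) {Λ : Type u}
    (hΛ : #Λ ≤ κ) (E : Λ → Set X) (hE : ∀ t, IsDiscrete (E t))
    (hcov : (⋃ t, closure (E t)) = univ) : False := by
  classical
  obtain ⟨F, hF, hFκ⟩ := exists_discrete_card hD hU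
  have hcard : #(Λ × ULift.{u} Bool) ≤ #F := by
    rw [hFκ, Cardinal.mk_prod]
    simp only [Cardinal.lift_id]
    refine (mul_le_mul' hΛ (show _ ≤ κ from ?_)).trans ?_
    · rw [Cardinal.mk_uLift, Cardinal.mk_bool]
      simp only [Cardinal.lift_ofNat]
      exact ((Cardinal.natCast_lt_aleph0 (n := 2)).trans hU.unc).le
    · exact (Cardinal.mul_eq_self hU.unc.le).le
  obtain ⟨j⟩ := (Cardinal.le_def _ _).mp hcard
  set D : Set (X × X) := {z | ∃ w, z.1 = (j w : X) ∧ z.2 ∈ E w.1 ∧ z.1 ≠ z.2} with hDdef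
  have hdis : IsDiscrete D := by
    rw [isDiscrete_iff_nhdsWithin]
    rintro ⟨a, e⟩ ⟨w, hw, he, hne⟩
    simp only at hw he hne
    subst hw
    obtain ⟨W, hW, hWB⟩ := isOpen_inter_eq_singleton_of_mem_discrete hF (j w).2
    have hxW : (j w : X) ∈ W := by
      have : (j w : X) ∈ W ∩ F := by rw [hWB]; rfl
      exact this.1
    obtain ⟨V, hV, hVE⟩ := isOpen_inter_eq_singleton_of_mem_discrete (hE w.1) he
    have heV : e ∈ V := by
      have : e ∈ V ∩ E w.1 := by rw [hVE]; rfl
      exact this.1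
    have hN : W ×ˢ V ∈ 𝓝 ((j w : X), e) := (hW.prod hV).mem_nhds ⟨hxW, heV⟩
    have hset : W ×ˢ V ∩ D = {((j w : X), e)} := by
      ext ⟨a, b⟩
      constructor
      · rintro ⟨⟨haW, hbV⟩, w', hw', hb, -⟩
        simp only at haW hbV hw' hb
        subst hw'
        have h1 : (j w' : X) ∈ W ∩ F := ⟨haW, (j w').2⟩
        rw [hWB] at h1
        have h2 : w' = w := j.injective (Subtype.ext h1)
        subst h2
        have h3 : b ∈ V ∩ E w'.1 := ⟨hbV, hb⟩
        rw [hVE] at h3
        obtain rfl : b = e := h3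
        rfl
      · intro h
        rw [mem_singleton_iff] at h
        obtain ⟨rfl, rfl⟩ := Prod.mk.inj h
        exact ⟨⟨hxW, heV⟩, w, rfl, he, hne⟩
    have := nhdsWithin_inter_of_mem' (s := D) (t := W ×ˢ V)
      (a := ((j w : X), e)) (mem_nhdsWithin_of_mem_nhds hN)
    rw [← this, inter_comm, hset, nhdsWithin_singleton]
  have hL := (hD D hdis (fun z hz => hz.choose_spec.2.2)).image continuous_snd
  have huniv : (univ : Set X) ⊆ Prod.snd '' (closure D \ diagonal X) := by
    intro x _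
    obtain ⟨t, ht⟩ := mem_iUnion.mp (hcov.symm ▸ mem_univ x : x ∈ ⋃ t, closure (E t))
    have hor : ∃ b : ULift.{u} Bool, (j (t, b) : X) ≠ x := by
      by_contra hcon
      push Not at hcon
      have h1 : (j (t, ⟨true⟩) : X) = (j (t, ⟨false⟩) : X) :=
        (hcon ⟨true⟩).trans (hcon ⟨false⟩).symm
      have h2 := j.injective (Subtype.ext h1)
      simp at h2
    obtain ⟨b, hb⟩ := hor
    refine ⟨((j (t, b) : X), x), ⟨?_, hb⟩, rfl⟩
    rw [mem_closure_iff_nhds]
    intro N hN
    obtain ⟨A, hA, A', hA', hAB⟩ := mem_nhds_prod_iff.mp hN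
    have hne : {y : X | (j (t, b) : X) ≠ y} ∈ 𝓝 x :=
      (isOpen_ne_fun continuous_const continuous_id).mem_nhds hb
    obtain ⟨e, he1, he2⟩ := mem_closure_iff_nhds.mp ht _ (Filter.inter_mem hA' hne)
    exact ⟨((j (t, b) : X), e), hAB ⟨mem_of_mem_nhds hA, he1.1⟩, (t, b), rfl, he2, he1.2⟩
  obtain ⟨S, hS, hS'⟩ := hL.elim_countable_subcover U hU.isOpen
    (by rw [hU.cover]; exact subset_univ _)
  exact hU.small S (lt_of_le_of_lt (Cardinal.le_aleph0_iff_set_countable.mpr hS) hU.unc)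
    (univ_subset_iff.mp (huniv.trans hS'))

end PoolD32
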