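import Mathlib

/-!
# MP_d32a8c_gt: pseudocompact spaces whose off-diagonal square is discretely Lindelof

Definitions used in the statement (`Pseudocompact`, `DiscretelyLindelof`, `OffDiagonal`,
`DensityLT`, `TightnessLE`, `PiLocallyLindelof`) and the internal notions `DL`, `Bad`, `PF`.
-/

namespace PoolD32

open Set Topology
open scoped Cardinal

universe u

/-- `X` is pseudocompact: it is Tychonoff (`T35Space`) and every continuous real valued function
on `X` is bounded. -/
def Pseudocompact (X : Type u) [TopologicalSpace X] : Prop :=
  T35Space X ∧ ∀ f : X → ℝ, Continuous f → ∃ C : ℝ, ∀ x, |f x| ≤ C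

/-- `Y` is discretely Lindelof: every subset which is discrete in its subspace topology has
Lindelof closure. -/
def DiscretelyLindelof (Y : Type u) [TopologicalSpace Y] : Prop :=
  ∀ D : Set Y, DiscreteTopology D → IsLindelof (closure D)

/-- The square of `X` without the diagonal, with the subspace topology of the product. -/
abbrev OffDiagonal (X : Type u) : Type u := {p : X × X // p.1 ≠ p.2}

/-- Internal form of the hypothesis on the off-diagonal square. -/
def DL (X : Type u) [TopologicalSpace X] : Prop :=
  ∀ D : Set (X × X), IsDiscrete D → (∀ p ∈ D, p.1 ≠ p.2) → IsLindelof (closure D \ diagonal X)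

/-- `U` is an open cover of `X` indexed by a set of size `κ > ℵ₀` such that no subfamily of
size `< κ` covers `X`. -/
structure Bad (X : Type u) [TopologicalSpace X] (κ : Cardinal.{u}) {ι : Type u}
    (U : ι → Set X) : Prop where
  isOpen : ∀ i, IsOpen (U i)
  cover : (⋃ i, U i) = univ
  card : #ι = κ
  unc : ℵ₀ < κ
  small : ∀ S : Set ι, #S < κ → (⋃ i ∈ S, U i) ≠ univ

/-- `B` is discrete and carries a point-finite family of subsets `{x ∈ B | t ∈ G x}`, `t : T`,
all of which accumulate at one point `p`. -/
def PF {X : Type u} [TopologicalSpace X] (T : Type u) (B : Set X) : Prop :=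
  IsDiscrete B ∧ ∃ (p : X) (G : X → Set T), p ∈ closure B ∧ (∀ x ∈ B, (G x).Finite) ∧
    ∀ t, p ∈ closure {x | x ∈ B ∧ t ∈ G x}

end PoolD32
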