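import Pool.Agent.Work.MP_d32a8c_gt.ClosE

/-!
# Funs: continuous functions on T3.5 spaces (M)

`exists_pos_fun`. PROOF. For `q ∈ L \ {p}` complete regularity gives a continuous
`f_q : X → [0,1]` with `f_q p = 0`, `f_q q = 1` (`CompletelyRegularSpace.completely_regular p {q}`).
The open sets `{f_q > 0}` cover `L \ {p}`; a countable subfamily `f_{q_n}` covers
(`IsLindelof.elim_countable_subcover` or `isLindelof_iff_countable_subcover`). Put
`g = ∑' n, (1/2)^n * f_{q_n}` (`continuous_tsum`, `tsum_nonneg`, positivity of one term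
gives `0 < g`). If `L \ {p}` is empty take `g = 0`.

`exists_sep_funs`. PROOF. For `(p,q) ∈ (L ×ˢ L) \ diagonal` choose a continuous `f : X → ℝ` with
`f p = 0`, `f q = 1`; the open sets `{z | f z.1 < 1/2 ∧ 1/2 < f z.2}` cover; a countable subfamily
`f_n` covers `(L ×ˢ L) \ diagonal`, so `F x = (n ↦ f_n x)` is continuous (`continuous_pi`) and
injective on `L`. (If the set is empty, `L` is a subsingleton.)

`card_le_continuum`. By `prod_lindelof` and `exists_sep_funs` there is an injection of `E` into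
`ℕ → ℝ`, whose cardinality is `𝔠` (`Cardinal.mk_pi`/`Cardinal.mk_real`, `continuum_power_aleph0`;
use `Cardinal.lift_mk_le'` or `Cardinal.mk_le_of_injective` through `ULift`).
-/

namespace PoolD32

open Set Topology
open scoped Cardinal

universe u

variable {X : Type u} [TopologicalSpace X] [T35Space X]

private theorem exists_unit_fun (p : X) {q : X} (h : q ≠ p) :
    ∃ f : X → ℝ, Continuous f ∧ f p = 0 ∧ f q = 1 ∧ ∀ x, 0 ≤ f x ∧ f x ≤ 1 := by
  obtain ⟨f, hf, h0, h1⟩ := CompletelyRegularSpace.completely_regular p {q} isClosed_singleton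
    (by simpa using h.symm)
  refine ⟨fun x => (f x : ℝ), continuous_subtype_val.comp hf, by simp [h0], ?_,
    fun x => ⟨(f x).2.1, (f x).2.2⟩⟩
  have := h1 (mem_singleton q)
  simp [this]

theorem exists_pos_fun {L : Set X} {p : X} (hL : IsLindelof (L \ {p})) :
    ∃ g : X → ℝ, Continuous g ∧ (∀ x, 0 ≤ g x) ∧ g p = 0 ∧ ∀ x ∈ L, x ≠ p → 0 < g x := by
  classical
  have hex : ∀ q : X, ∃ f : X → ℝ, Continuous f ∧ f p = 0 ∧ (q ≠ p → f q = 1) ∧
      ∀ x, 0 ≤ f x ∧ f x ≤ 1 := by
    intro q
    by_cases hq : q = p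
    · exact ⟨fun _ => 0, continuous_const, rfl, fun h => (h hq).elim, fun _ => ⟨le_rfl, zero_le_one⟩⟩
    · obtain ⟨f, h1, h2, h3, h4⟩ := exists_unit_fun p hq
      exact ⟨f, h1, h2, fun _ => h3, h4⟩
  choose f hfc hfp hfq hf01 using hex
  obtain ⟨t, htc, hti⟩ := hL.elim_countable_subcover (fun q : X => {x | 0 < f q x})
    (fun q => isOpen_lt continuous_const (hfc q))
    (fun x hx => mem_iUnion.mpr ⟨x, by simp [hfq x hx.2]⟩)
  rcases t.eq_empty_or_nonempty with rfl | hne
  · refine ⟨fun _ => 0, continuous_const, fun _ => le_rfl, rfl, fun x hx hxp => ?_⟩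
    have := hti ⟨hx, hxp⟩
    simp at this
  · obtain ⟨s, rfl⟩ := htc.exists_eq_range hne
    have hsum : Summable (fun n : ℕ => ((1 : ℝ) / 2) ^ n) := summable_geometric_two
    have hbd : ∀ n x, ‖((1 : ℝ) / 2) ^ n * f (s n) x‖ ≤ ((1 : ℝ) / 2) ^ n := by
      intro n x
      rw [Real.norm_eq_abs, abs_of_nonneg (mul_nonneg (by positivity) (hf01 _ _).1)]
      exact mul_le_of_le_one_right (by positivity) (hf01 _ _).2
    have hsx : ∀ x, Summable (fun n => ((1 : ℝ) / 2) ^ n * f (s n) x) := fun x =>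
      Summable.of_norm_bounded hsum (fun n => hbd n x)
    refine ⟨fun x => ∑' n, ((1 : ℝ) / 2) ^ n * f (s n) x, ?_, ?_, ?_, ?_⟩
    · exact continuous_tsum (fun n => continuous_const.mul (hfc _)) hsum hbd
    · intro x
      exact tsum_nonneg fun n => mul_nonneg (by positivity) (hf01 _ _).1
    · simp [hfp]
    · intro x hx hxp
      have := hti ⟨hx, hxp⟩
      simp only [mem_iUnion, mem_range, exists_prop, exists_exists_eq_and, mem_setOf_eq] at this
      obtain ⟨n, hn⟩ := this
      exact (hsx x).tsum_pos (fun n => mul_nonneg (by positivity) (hf01 _ _).1) n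
        (mul_pos (by positivity) hn)

theorem exists_sep_funs {L : Set X} (hL : IsLindelof ((L ×ˢ L) \ diagonal X)) :
    ∃ F : X → (ℕ → ℝ), Continuous F ∧ InjOn F L := by
  classical
  have hex : ∀ z : X × X, ∃ f : X → ℝ, Continuous f ∧ (z.1 ≠ z.2 → f z.1 = 0 ∧ f z.2 = 1) := by
    intro z
    by_cases hz : z.1 = z.2
    · exact ⟨fun _ => 0, continuous_const, fun h => (h hz).elim⟩
    · obtain ⟨f, h1, h2, h3, -⟩ := exists_unit_fun z.1 (q := z.2) (fun h => hz h.symm)
      exact ⟨f, h1, fun _ => ⟨h2, h3⟩⟩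
  choose f hfc hf using hex
  obtain ⟨t, htc, hti⟩ := hL.elim_countable_subcover
    (fun z : X × X => {w : X × X | f z w.1 < 1 / 2 ∧ 1 / 2 < f z w.2})
    (fun z => (isOpen_lt ((hfc z).comp continuous_fst) continuous_const).inter
      (isOpen_lt continuous_const ((hfc z).comp continuous_snd)))
    (fun z hz => mem_iUnion.mpr ⟨z, by
      obtain ⟨h1, h2⟩ := hf z hz.2
      simp only [mem_setOf_eq, h1, h2]
      norm_num⟩)
  rcases t.eq_empty_or_nonempty with rfl | hne
  · refine ⟨fun _ _ => 0, continuous_const, fun x hx y hy _ => ?_⟩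
    by_contra hxy
    have := hti (show (x, y) ∈ _ from ⟨⟨hx, hy⟩, hxy⟩)
    simp at this
  · obtain ⟨s, rfl⟩ := htc.exists_eq_range hne
    refine ⟨fun x n => f (s n) x, continuous_pi fun n => hfc _, fun x hx y hy hxy => ?_⟩
    by_contra hne'
    have := hti (show (x, y) ∈ _ from ⟨⟨hx, hy⟩, hne'⟩)
    simp only [mem_iUnion, mem_range, exists_prop, exists_exists_eq_and, mem_setOf_eq] at this
    obtain ⟨n, hn1, hn2⟩ := this
    have h := congrFun hxy n
    simp only at h
    rw [h] at hn1
    linarith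

theorem card_le_continuum (hD : DL X) {E : Set X} (hE : IsDiscrete E) :
    #E ≤ Cardinal.continuum.{u} := by
  obtain ⟨F, -, hF⟩ := exists_sep_funs (prod_lindelof hD hE)
  have h1 : Function.Injective (fun x : E => (ULift.up (F x) : ULift.{u} (ℕ → ℝ))) := by
    intro x y hxy
    have h2 : F x = F y := by simpa using hxy
    exact Subtype.ext (hF (subset_closure x.2) (subset_closure y.2) h2)
  have h2 := Cardinal.mk_le_of_injective h1
  have h3 : #(ULift.{u} (ℕ → ℝ)) = Cardinal.continuum.{u} := by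
    rw [Cardinal.mk_uLift]
    have : #(ℕ → ℝ) = Cardinal.continuum.{0} := by
      rw [← Cardinal.power_def, Cardinal.mk_real, Cardinal.mk_nat, Cardinal.continuum_power_aleph0]
    rw [this, Cardinal.lift_continuum]
  exact h2.trans_eq h3

end PoolD32
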