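import Pool.Agent.Work.MP_d32a8c_gt.Blocks
import Pool.Agent.Work.MP_d32a8c_gt.Funs

/-!
# KFacts: aleph_omega ≤ κ < 𝔠 (M)

PROOF. Let `θ := κ.ord.ToType` (`Iio a` has size `< κ`, `Cardinal.mk_Iio_ord_toType` or similar) and
`e : θ ≃ ι` (both have cardinality `κ`). Apply `exists_blocks` with `Q a B := ∃ x, B = {x}`
(`hQ`: the union of fewer than `κ` members is not everything, `hU.small`; take a point outside).
We get points `x a` with `E = ⋃ a, B a = range x` discrete, `x` injective (by (5)), so
`κ = #E ≤ 𝔠` (`card_le_continuum`).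

Cofinality: `closure E` is Lindelof, so there is a countable `S ⊆ ι` with `E ⊆ ⋃ i ∈ S, U i`. For
`i = e a ∈ S` the set `U i` contains no `x b` with `b > a`. So the countable set
`{a | e a ∈ S} ⊆ θ` is cofinal (unbounded): every `b` has `b ≤ a` for some such `a`. Hence
`κ.ord.cof ≤ ℵ₀`. If `κ < ℵ_ω` then, as `κ > ℵ₀`, `κ = ℵ_(n+1)` for some `n`
(`Cardinal.lt_aleph_omega0_iff` or similar / `aleph` is normal), which is regular, so its
cofinality is `κ > ℵ₀`: contradiction. `κ ≠ 𝔠` because `ℵ₀ < 𝔠.ord.cof`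
(`Cardinal.lt_cof_power`).
-/

namespace PoolD32

open Set Topology
open scoped Cardinal

universe u

private theorem exists_points {X : Type u} [TopologicalSpace X] [T35Space X] (hD : DL X)
    {κ : Cardinal.{u}} {ι : Type u} {U : ι → Set X} (hU : Bad X κ U)
    {θ : Type u} [LinearOrder θ] [WellFoundedLT θ] (hθ : ∀ a : θ, #(Iio a) < κ) (e : θ → ι) :
    ∃ x : θ → X, Function.Injective x ∧ IsDiscrete (range x) ∧
      ∀ a b, a < b → x b ∉ U (e a) := by
  obtain ⟨B, hQ, hdis, -, hUB, hdj⟩ := exists_blocks hD hU hθ e (fun _ B => ∃ x, B = {x})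
    (by rintro a B ⟨x, rfl⟩; exact (subsingleton_singleton).isDiscrete)
    (by
      intro a S' hS'
      obtain ⟨x, hx⟩ := (ne_univ_iff_exists_notMem _).mp (hU.small _ hS')
      exact ⟨{x}, ⟨x, rfl⟩, disjoint_singleton_left.mpr hx⟩)
  choose x hBx using hQ
  have hEr : (⋃ a, B a) = range x := by
    ext y
    simp only [mem_iUnion, mem_range]
    constructor
    · rintro ⟨a, ha⟩
      rw [hBx a] at ha
      exact ⟨a, ha.symm⟩
    · rintro ⟨a, rfl⟩
      exact ⟨a, by rw [hBx a]; rfl⟩
  rw [hEr] at hdis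
  refine ⟨x, ?_, hdis, ?_⟩
  · have key : ∀ a b, a < b → x a ≠ x b := by
      intro a b hab h
      have := hdj a b hab
      rw [hBx a, hBx b, h] at this
      exact disjoint_left.mp this (subset_closure rfl) rfl
    intro a b hab
    rcases lt_trichotomy a b with h | h | h
    · exact (key a b h hab).elim
    · exact h
    · exact (key b a h hab.symm).elim
  · intro a b hab h
    have := hUB a b hab
    rw [hBx b] at this
    exact disjoint_left.mp this h rfl

private theorem exists_equiv {X : Type u} [TopologicalSpace X]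
    {κ : Cardinal.{u}} {ι : Type u} {U : ι → Set X} (hU : Bad X κ U) :
    Nonempty (κ.ord.ToType ≃ ι) := by
  rw [← Cardinal.eq, Cardinal.mk_toType, Cardinal.card_ord, hU.card]

theorem exists_discrete_card {X : Type u} [TopologicalSpace X] [T35Space X] (hD : DL X)
    {κ : Cardinal.{u}} {ι : Type u} {U : ι → Set X} (hU : Bad X κ U) :
    ∃ E : Set X, IsDiscrete E ∧ #E = κ := by
  obtain ⟨e⟩ := exists_equiv hU
  obtain ⟨x, hinj, hdis, -⟩ := exists_points hD hU (θ := κ.ord.ToType)
    (fun a => Cardinal.mk_Iio_toType_ord_lt a) e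
  refine ⟨range x, hdis, ?_⟩
  rw [Cardinal.mk_range_eq x hinj, Cardinal.mk_toType, Cardinal.card_ord]

theorem bad_facts {X : Type u} [TopologicalSpace X] [T35Space X] (hD : DL X)
    {κ : Cardinal.{u}} {ι : Type u} {U : ι → Set X} (hU : Bad X κ U) :
    Cardinal.aleph.{u} Ordinal.omega0 ≤ κ ∧ κ < Cardinal.continuum := by
  obtain ⟨E, hE, hEκ⟩ := exists_discrete_card hD hU
  have h1 : κ ≤ Cardinal.continuum := hEκ ▸ card_le_continuum hD hE
  obtain ⟨e⟩ := exists_equiv hU
  obtain ⟨x, hinj, hdis, hav⟩ := exists_points hD hU (θ := κ.ord.ToType)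
    (fun a => Cardinal.mk_Iio_toType_ord_lt a) e
  have hcof : κ.ord.cof ≤ ℵ₀ := by
    obtain ⟨S, hS, hS'⟩ := (closure_lindelof hD hdis).elim_countable_subcover U hU.isOpen
      (by rw [hU.cover]; exact subset_univ _)
    have hcofin : IsCofinal (e ⁻¹' S) := by
      intro b
      have hb := hS' (subset_closure (mem_range_self b))
      simp only [mem_iUnion] at hb
      obtain ⟨i, hi, hbi⟩ := hb
      refine ⟨e.symm i, by simpa using hi, ?_⟩
      by_contra hlt
      exact hav (e.symm i) b (not_le.mp hlt) (by simpa using hbi)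
    rw [← Ordinal.cof_toType]
    refine (Order.cof_le hcofin).trans ?_
    exact Cardinal.le_aleph0_iff_set_countable.mpr (hS.preimage_of_injOn e.injective.injOn)
  constructor
  · by_contra hlt
    rw [not_le] at hlt
    obtain ⟨o, rfl⟩ := Cardinal.mem_range_aleph_iff.mpr hU.unc.le
    obtain ⟨n, rfl⟩ := Ordinal.lt_omega0.mp (Cardinal.aleph_lt_aleph.mp hlt)
    have hn : n ≠ 0 := by
      rintro rfl
      have := hU.unc
      simp at this
    obtain ⟨m, rfl⟩ := Nat.exists_eq_succ_of_ne_zero hn
    have hreg : (Cardinal.aleph.{u} ((m.succ : ℕ) : Ordinal)).IsRegular := by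
      have := Cardinal.isRegular_aleph_add_one (m : Ordinal.{u})
      simpa using this
    rw [hreg.cof_ord] at hcof
    exact absurd hU.unc (not_lt.mpr hcof)
  · refine lt_of_le_of_ne h1 ?_
    intro h
    have h2 : ℵ₀ < (Cardinal.continuum.{u}).ord.cof := by
      have := Cardinal.lt_cof_ord_power (a := ℵ₀) (b := 2) le_rfl (by norm_num)
      simpa using this
    rw [← h] at h2
    exact absurd h2 (not_lt.mpr hcof)

end PoolD32
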