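import Pool.Agent.Work.MP_d32a8c_gt.Unc

/-!
# NUn: closures of increasing countable unions of discrete sets (S-M)

PROOF. Take `B, p, g` from `exists_unc` with `S = ∅` (`#∅ = 0 < κ`). For `x ∈ B` let
`h x = ⌊1 / g x⌋₊`, so `h x ≥ m` as soon as `g x < 1/(m+1)`. Let
`D = {z : X × X | z.1 ∈ B ∧ z.2 ∈ E (h z.1) ∧ z.1 ≠ z.2}`. `D` is discrete: at `(x,e)` take open
`W ∋ x`, `W ∩ B = {x}`, and open `V ∋ e`, `V ∩ E (h x) = {e}`. `D` is off-diagonal, so
`closure D \ diagonal X` is Lindelof. If `q ∈ closure (⋃ n, E n)` and `q ≠ p` then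
`(p, q) ∈ closure D`: take disjoint open `W ∋ p`, `V ∋ q` inside given neighbourhoods; there are
`m` and `e ∈ E m ∩ V`; `W ∩ {g < 1/(m+1)}` is a neighbourhood of `p ∈ closure B`, so it contains
`x ∈ B`; `h x ≥ m`, so `e ∈ E (h x)` (monotone), `x ≠ e`, `(x, e) ∈ D ∩ (W ×ˢ V)`. So
`closure (⋃ n, E n) \ {p}` is the image under `Prod.snd` of
`(closure D \ diagonal X) ∩ ({p} ×ˢ closure (⋃ n, E n))`, Lindelof; add the point `p`.
-/

namespace PoolD32

open Set Topology
open scoped Cardinal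

universe u

theorem lindelof_closure_iUnion {X : Type u} [TopologicalSpace X] [T35Space X] (hD : DL X)
    {κ : Cardinal.{u}} {ι : Type u} {U : ι → Set X} (hU : Bad X κ U) (E : ℕ → Set X)
    (hmono : Monotone E) (hE : ∀ n, IsDiscrete (E n)) : IsLindelof (closure (⋃ n, E n)) := by
  obtain ⟨B, -, hB, p, hpB, -, g, hg, hgp, hpos⟩ := exists_unc hD hU ∅
    (by simpa using (Cardinal.aleph0_pos.trans hU.unc))
  set h : X → ℕ := fun x => ⌊1 / g x⌋₊ with hh
  set D : Set (X × X) := {z | z.1 ∈ B ∧ z.2 ∈ E (h z.1) ∧ z.1 ≠ z.2} with hDdef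
  have hdis : IsDiscrete D := by
    rw [isDiscrete_iff_nhdsWithin]
    rintro ⟨x, t⟩ ⟨hx, ht, hxt⟩
    simp only at hx ht hxt
    obtain ⟨W, hW, hWB⟩ := isOpen_inter_eq_singleton_of_mem_discrete hB hx
    have hxW : x ∈ W := by
      have : x ∈ W ∩ B := by rw [hWB]; rfl
      exact this.1
    obtain ⟨V, hV, hVE⟩ := isOpen_inter_eq_singleton_of_mem_discrete (hE (h x)) ht
    have htV : t ∈ V := by
      have : t ∈ V ∩ E (h x) := by rw [hVE]; rfl
      exact this.1
    have hN : W ×ˢ V ∈ 𝓝 (x, t) := (hW.prod hV).mem_nhds ⟨hxW, htV⟩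
    have hset : W ×ˢ V ∩ D = {(x, t)} := by
      ext ⟨y, s⟩
      constructor
      · rintro ⟨⟨hyW, hs⟩, hy, hsE, hys⟩
        simp only at hyW hs hy hys hsE
        have hyx : y ∈ W ∩ B := ⟨hyW, hy⟩
        rw [hWB] at hyx
        obtain rfl : y = x := hyx
        have hst : s ∈ V ∩ E (h y) := ⟨hs, hsE⟩
        rw [hVE] at hst
        obtain rfl : s = t := hst
        rfl
      · intro h
        rw [mem_singleton_iff] at h
        obtain ⟨rfl, rfl⟩ := Prod.mk.inj h
        exact ⟨⟨hxW, htV⟩, hx, ht, hxt⟩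
    have := nhdsWithin_inter_of_mem' (s := D) (t := W ×ˢ V)
      (a := (x, t)) (mem_nhdsWithin_of_mem_nhds hN)
    rw [← this, inter_comm, hset, nhdsWithin_singleton]
  have hL := hD D hdis (fun z hz => hz.2.2)
  have h1 : IsLindelof ((closure D \ diagonal X) ∩ ({p} ×ˢ closure (⋃ n, E n))) :=
    hL.inter_right (isClosed_singleton.prod isClosed_closure)
  have h2 := h1.image continuous_snd
  have h3 : IsLindelof (closure (⋃ n, E n) \ {p}) := by
    convert h2 using 1
    ext q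
    simp only [mem_sdiff, mem_singleton_iff, mem_image, mem_inter_iff, mem_prod, Prod.exists,
      exists_eq_right]
    constructor
    · rintro ⟨hq, hqp⟩
      refine ⟨p, ⟨?_, fun h => hqp h.symm⟩, rfl, hq⟩
      rw [mem_closure_iff_nhds]
      intro t ht
      obtain ⟨U, V, hU, hV, hpU, hqV, hUV⟩ := t2_separation (fun h : p = q => hqp h.symm)
      obtain ⟨A, hA, A', hA', hAB⟩ := mem_nhds_prod_iff.mp ht
      obtain ⟨s, hs1, hs2⟩ := mem_closure_iff_nhds.mp hq (A' ∩ V)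
        (Filter.inter_mem hA' (hV.mem_nhds hqV))
      obtain ⟨m, hm⟩ := mem_iUnion.mp hs2
      have hopen : IsOpen {x | ((m : ℝ) + 1) * g x < 1} :=
        isOpen_lt (continuous_const.mul hg) continuous_const
      have hpm : p ∈ {x | ((m : ℝ) + 1) * g x < 1} := by simp [hgp]
      obtain ⟨x, ⟨⟨hx1, hx2⟩, hx3⟩, hx4⟩ := mem_closure_iff_nhds.mp hpB
        ((A ∩ U) ∩ {x | ((m : ℝ) + 1) * g x < 1})
        (Filter.inter_mem (Filter.inter_mem hA (hU.mem_nhds hpU)) (hopen.mem_nhds hpm))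
      have hx3' : ((m : ℝ) + 1) * g x < 1 := hx3
      have hmh : m ≤ h x := by
        rw [hh]
        refine Nat.le_floor ?_
        rw [le_div_iff₀ (hpos x hx4)]
        have := (hpos x hx4).le
        nlinarith
      refine ⟨(x, s), hAB ⟨hx1, hs1.1⟩, hx4, hmono hmh hm, ?_⟩
      intro hxs
      exact disjoint_left.mp hUV hx2 (by rw [show x = s from hxs]; exact hs1.2)
    · rintro ⟨a, ⟨_, hne⟩, rfl, hq⟩
      exact ⟨hq, fun e => hne e.symm⟩
  refine (h3.union (isLindelof_singleton (x := p))).of_isClosed_subset isClosed_closure ?_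
  intro q hq
  by_cases hqp : q = p
  · exact Or.inr hqp
  · exact Or.inl ⟨hq, hqp⟩

end PoolD32
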