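import Pool.Agent.Work.MP_d32a8c_gt.CMet

/-!
# SepC: compact subsets are separable (S)

PROOF. `K` with the subspace topology is compact Hausdorff and satisfies `DL K`: for a discrete
off-diagonal `D ⊆ K × K` the image `D'` of `D` in `X × X` under the closed embedding
`Prod.map Subtype.val Subtype.val` is discrete and off-diagonal, and
`closure D \ diagonal` is the preimage of `closure D' \ diagonal X`
(`Topology.IsClosedEmbedding.closure_image_eq`, `Topology.IsClosedEmbedding.isLindelof_preimage`).
By `dl_compact_metrizable` the space `K` is metrizable, being compact it is second countable,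
hence every subspace of it is separable; `V ⊆ K` (as `V ⊆ closure V = K`) has a countable dense
subset (`TopologicalSpace.IsSeparable`, `exists_countable_dense_subset`, second countability of
`↥V`).
-/

namespace PoolD32

open Set Topology

universe u

theorem exists_countable_dense_of_isCompact {X : Type u} [TopologicalSpace X] [T2Space X]
    (hD : DL X) {V : Set X} (hK : IsCompact (closure V)) :
    ∃ C ⊆ V, C.Countable ∧ V ⊆ closure C := by
  classical
  set K : Set X := closure V with hKdef
  haveI : CompactSpace K := isCompact_iff_compactSpace.1 hK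
  have hDK : DL K := by
    intro D hDd hoff
    have hval : IsClosedEmbedding (Subtype.val : K → X) := isClosed_closure.isClosedEmbedding_subtypeVal
    have hpm : IsClosedEmbedding (Prod.map (Subtype.val : K → X) (Subtype.val : K → X)) :=
      hval.prodMap hval
    have hdis : IsDiscrete (Prod.map (Subtype.val : K → X) (Subtype.val : K → X) '' D) :=
      hDd.image hpm.isInducing
    have hL := hD _ hdis (by
      rintro _ ⟨⟨a, b⟩, hab, rfl⟩
      exact fun h => hoff _ hab (Subtype.ext h))
    have hpre := hpm.isLindelof_preimage hL
    convert hpre using 1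
    rw [hpm.closure_image_eq]
    ext ⟨a, b⟩
    simp only [mem_sdiff, mem_diagonal_iff, mem_preimage, Prod.map_apply]
    constructor
    · rintro ⟨h1, h2⟩
      exact ⟨⟨(a, b), h1, rfl⟩, fun h => h2 (Subtype.ext h)⟩
    · rintro ⟨⟨⟨a', b'⟩, h1, h3⟩, h2⟩
      have h4 : ((a', b') : K × K) = (a, b) := hpm.injective h3
      refine ⟨h4 ▸ h1, fun h => h2 ?_⟩
      have h5 : a = b := h
      rw [h5]
  haveI : TopologicalSpace.MetrizableSpace K := dl_compact_metrizable hDK
  letI : MetricSpace K := TopologicalSpace.metrizableSpaceMetric K
  haveI : SecondCountableTopology K := inferInstance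
  -- V as a subset of K
  obtain ⟨c, hc, hcd⟩ := TopologicalSpace.exists_countable_dense ((Subtype.val : K → X) ⁻¹' V)
  refine ⟨(fun z : ((Subtype.val : K → X) ⁻¹' V) => ((z : K) : X)) '' c, ?_, hc.image _, ?_⟩
  · rintro _ ⟨z, -, rfl⟩
    exact z.2
  · intro x hx
    have hz : (⟨⟨x, subset_closure hx⟩, hx⟩ : ((Subtype.val : K → X) ⁻¹' V)) ∈ closure c := hcd _
    have hcont : Continuous (fun z : ((Subtype.val : K → X) ⁻¹' V) => ((z : K) : X)) :=
      continuous_subtype_val.comp continuous_subtype_val
    exact image_closure_subset_closure_image hcont ⟨_, hz, rfl⟩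

end PoolD32
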