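import Pool.Agent.Work.MP_d32a8c_gt.RegCl
import Pool.Agent.Work.MP_d32a8c_gt.SepC
import Pool.Agent.Work.MP_d32a8c_gt.NUn

/-!
# LocL: open sets with Lindelof closure (M)

PROOF. By Zorn's lemma (`zorn_subset`) let `𝒢` be a maximal family of pairwise disjoint nonempty
open sets with Lindelof closure. Its union is dense: otherwise a nonempty open `W` misses it
(complement of the closure of the union) and `hloc` gives a nonempty open `V ⊆ W` with Lindelof
closure which could be added. Each `G ∈ 𝒢` has compact closure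
(`isCompact_closure_of_isLindelof`), so there is a countable `C ⊆ G` with `G ⊆ closure C`
(`exists_countable_dense_of_isCompact`), nonempty, so `C = range (d G)` with `d G : ℕ → X`. Put
`E n = {d G m | m ≤ n, G ∈ 𝒢}`: monotone, and discrete, since inside the open set `G` the set
`E n` is finite (`E n ∩ G = {d G m | m ≤ n}` by disjointness) and `X` is T1. By
`lindelof_closure_iUnion` the closure of `⋃ n, E n` is Lindelof; it contains all `G ∈ 𝒢`, so it is
`univ`. But then countably many `U i` cover `X`, contradicting `hU.small` and `ℵ₀ < κ`.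
-/

namespace PoolD32

open Set Topology
open scoped Cardinal

universe u

theorem false_of_locLindelof {X : Type u} [TopologicalSpace X] (hX : Pseudocompact X) (hD : DL X)
    {κ : Cardinal.{u}} {ι : Type u} {U : ι → Set X} (hU : Bad X κ U)
    (hloc : ∀ W : Set X, IsOpen W → W.Nonempty →
      ∃ V ⊆ W, IsOpen V ∧ V.Nonempty ∧ IsLindelof (closure V)) : False := by
  classical
  have := hX.1
  obtain ⟨𝒢, hmax⟩ : ∃ 𝒢, Maximal (fun 𝒢 : Set (Set X) =>
      (∀ G ∈ 𝒢, IsOpen G ∧ G.Nonempty ∧ IsLindelof (closure G)) ∧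
      ∀ G ∈ 𝒢, ∀ H ∈ 𝒢, G ≠ H → Disjoint G H) 𝒢 := by
    refine zorn_subset {𝒢 : Set (Set X) |
      (∀ G ∈ 𝒢, IsOpen G ∧ G.Nonempty ∧ IsLindelof (closure G)) ∧
      ∀ G ∈ 𝒢, ∀ H ∈ 𝒢, G ≠ H → Disjoint G H} ?_
    intro c hc hchain
    refine ⟨⋃₀ c, ⟨?_, ?_⟩, fun s hs => subset_sUnion_of_mem hs⟩
    · rintro G ⟨s, hs, hG⟩
      exact (hc hs).1 G hG
    · rintro G ⟨s, hs, hG⟩ H ⟨t, ht, hH⟩ hGH
      rcases hchain.total hs ht with h | h
      · exact (hc ht).2 G (h hG) H hH hGH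
      · exact (hc hs).2 G hG H (h hH) hGH
  obtain ⟨hG1, hG2⟩ := hmax.prop
  have hdense : Dense (⋃₀ 𝒢) := by
    rw [dense_iff_inter_open]
    intro W hW hWne
    by_contra hemp
    rw [not_nonempty_iff_eq_empty] at hemp
    obtain ⟨V, hVW, hV, hVne, hVL⟩ := hloc W hW hWne
    have hVd : ∀ G ∈ 𝒢, Disjoint V G := by
      intro G hG
      rw [disjoint_left]
      intro x hxV hxG
      have : x ∈ W ∩ ⋃₀ 𝒢 := ⟨hVW hxV, G, hG, hxG⟩
      rw [hemp] at this
      exact this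
    have hins : insert V 𝒢 ⊆ 𝒢 := by
      refine hmax.le_of_ge ⟨?_, ?_⟩ (subset_insert V 𝒢)
      · rintro G (rfl | hG)
        · exact ⟨hV, hVne, hVL⟩
        · exact hG1 G hG
      · rintro G (rfl | hG) H (rfl | hH) hGH
        · exact (hGH rfl).elim
        · exact hVd H hH
        · exact (hVd G hG).symm
        · exact hG2 G hG H hH hGH
    have hVG : V ∈ 𝒢 := hins (mem_insert V 𝒢)
    obtain ⟨x, hx⟩ := hVne
    exact disjoint_left.mp (hVd V hVG) hx hx
  have hex : ∀ G : 𝒢, ∃ d : ℕ → X, (∀ n, d n ∈ G.1) ∧ G.1 ⊆ closure (range d) := by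
    intro G
    obtain ⟨hGo, hGne, hGL⟩ := hG1 G.1 G.2
    obtain ⟨C, hCG, hCc, hGC⟩ := exists_countable_dense_of_isCompact hD
      (isCompact_closure_of_isLindelof hX hGo hGL)
    have hCne : C.Nonempty := by
      rw [← closure_nonempty_iff]
      exact hGne.mono hGC
    obtain ⟨d, hd⟩ := hCc.exists_eq_range hCne
    exact ⟨d, fun n => hCG (hd ▸ mem_range_self n), hd ▸ hGC⟩
  choose d hdG hdd using hex
  have hE : ∀ n, IsDiscrete ({x | ∃ G : 𝒢, ∃ m ≤ n, d G m = x} : Set X) := by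
    intro n
    rw [isDiscrete_iff_nhdsWithin]
    rintro x ⟨G, m, hm, rfl⟩
    have hfin : ((d G '' Iic n) \ {d G m}).Finite := ((finite_Iic n).image _).subset sdiff_subset
    have hN : G.1 ∩ ((d G '' Iic n) \ {d G m})ᶜ ∈ 𝓝 (d G m) :=
      ((hG1 G.1 G.2).1.inter hfin.isClosed.isOpen_compl).mem_nhds ⟨hdG G m, fun h => h.2 rfl⟩
    have hset : G.1 ∩ ((d G '' Iic n) \ {d G m})ᶜ ∩ {x | ∃ G : 𝒢, ∃ m ≤ n, d G m = x} = {d G m} := by
      ext y
      constructor
      · rintro ⟨⟨hyG, hyn⟩, H, k, hk, rfl⟩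
        have hHG : H = G := by
          by_contra hne
          exact disjoint_left.mp (hG2 H.1 H.2 G.1 G.2 (fun h => hne (Subtype.ext h))) (hdG H k) hyG
        subst hHG
        by_contra hne
        exact hyn ⟨⟨k, mem_Iic.mpr hk, rfl⟩, hne⟩
      · rintro rfl
        exact ⟨⟨hdG G m, fun h => h.2 rfl⟩, G, m, hm, rfl⟩
    have := nhdsWithin_inter_of_mem' (s := {x | ∃ G : 𝒢, ∃ m ≤ n, d G m = x})
      (t := G.1 ∩ ((d G '' Iic n) \ {d G m})ᶜ)
      (a := d G m) (mem_nhdsWithin_of_mem_nhds hN)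
    rw [← this, inter_comm, hset, nhdsWithin_singleton]
  have hmono : Monotone (fun n => ({x | ∃ G : 𝒢, ∃ m ≤ n, d G m = x} : Set X)) := by
    rintro a b hab x ⟨G, m, hm, rfl⟩
    exact ⟨G, m, hm.trans hab, rfl⟩
  have hL := lindelof_closure_iUnion hD hU _ hmono hE
  have huniv : closure (⋃ n, ({x | ∃ G : 𝒢, ∃ m ≤ n, d G m = x} : Set X)) = univ := by
    rw [← dense_iff_closure_eq]
    have h1 : (⋃₀ 𝒢) ⊆ closure (⋃ n, ({x | ∃ G : 𝒢, ∃ m ≤ n, d G m = x} : Set X)) := by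
      rintro x ⟨G, hG, hx⟩
      refine closure_mono ?_ (hdd ⟨G, hG⟩ hx)
      rintro _ ⟨n, rfl⟩
      exact mem_iUnion.mpr ⟨n, ⟨G, hG⟩, n, le_rfl, rfl⟩
    exact (hdense.mono h1).of_closure
  rw [huniv] at hL
  obtain ⟨S, hS, hS'⟩ := hL.elim_countable_subcover U hU.isOpen (by rw [hU.cover])
  exact hU.small S (lt_of_le_of_lt (Cardinal.le_aleph0_iff_set_countable.mpr hS) hU.unc)
    (univ_subset_iff.mp hS')

end PoolD32
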