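import Pool.Agent.Work.MP_d32a8c_gt.PStep
import Pool.Agent.Work.MP_d32a8c_gt.KFacts

/-!
# PAleph: point-finite families of size below aleph_omega (S-M)

`PF.of_injective`: from `PF T B` and an injection `f : T' → T` get `PF T' B` with
`G' x = f ⁻¹' (G x)` (finite: `Set.Finite.preimage`).

`pf_aleph`: induction on `n`. `n = 0`: `#T ≤ ℵ₀`, `pf_countable`. Step: `θ = (ℵ_(n+1)).ord.ToType`
is well ordered, `#(Iio a) < ℵ_(n+1)`, so `#(Iio a) ≤ ℵ_n < ℵ_ω ≤ κ` (`bad_facts`), countable
subsets are bounded strictly (`ℵ_(n+1)` is regular and `> ℵ₀`, and `θ` has no maximum); the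
induction hypothesis gives `hsmall`; `pf_step` gives `PF θ B`; `#T ≤ ℵ_(n+1) = #θ` gives an
injection `T → θ`.
-/

namespace PoolD32

open Set Topology
open scoped Cardinal

universe u

private theorem bdd_of_lt_cof {c : Cardinal.{u}} (hc : c.IsRegular) (S : Set c.ord.ToType)
    (hS : #S < c) : ∃ b, ∀ s ∈ S, s < b := by
  have h1 : ¬ IsCofinal S := by
    intro h
    have := Order.cof_le h
    rw [Ordinal.cof_toType, hc.cof_ord] at this
    exact absurd hS (not_lt.mpr this)
  rw [not_isCofinal_iff] at h1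
  obtain ⟨b, hb⟩ := h1
  exact ⟨b, fun s hs => by simpa using hb s hs⟩

private theorem regular_aleph_succ (n : ℕ) :
    (Cardinal.aleph.{u} ((n + 1 : ℕ) : Ordinal)).IsRegular := by
  have := Cardinal.isRegular_aleph_add_one (n : Ordinal.{u})
  simpa using this

theorem PF.of_injective {X : Type u} [TopologicalSpace X] {T T' : Type u} {B : Set X}
    (h : PF T B) (f : T' → T) (hf : Function.Injective f) : PF T' B := by
  obtain ⟨hB, p, G, hp, hG, hGp⟩ := h
  exact ⟨hB, p, fun x => f ⁻¹' (G x), hp, fun x hx => (hG x hx).preimage hf.injOn,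
    fun t => hGp (f t)⟩

theorem pf_aleph {X : Type u} [TopologicalSpace X] [T35Space X] (hD : DL X)
    {κ : Cardinal.{u}} {ι : Type u} {U : ι → Set X} (hU : Bad X κ U) (n : ℕ) :
    ∀ T : Type u, #T ≤ Cardinal.aleph.{u} n → ∀ S : Set ι, #S < κ →
      ∃ B : Set X, PF T B ∧ Disjoint B (⋃ i ∈ S, U i) := by
  induction n with
  | zero =>
    intro T hT S hS
    have : Countable T := by
      rw [← Cardinal.mk_le_aleph0_iff]
      simpa using hT
    exact pf_countable hD hU T S hS
  | succ n ih =>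
    intro T hT S hS
    have hk : Cardinal.aleph.{u} ((n + 1 : ℕ) : Ordinal) < κ := by
      refine lt_of_lt_of_le ?_ (bad_facts hD hU).1
      exact Cardinal.aleph_lt_aleph.mpr (Ordinal.natCast_lt_omega0 _)
    have hIio : ∀ a : (Cardinal.aleph.{u} ((n + 1 : ℕ) : Ordinal)).ord.ToType,
        #(Iio a) < Cardinal.aleph.{u} ((n + 1 : ℕ) : Ordinal) :=
      fun a => Cardinal.mk_Iio_toType_ord_lt a
    obtain ⟨B, hB, hBS⟩ := pf_step hD hU
      (θ := (Cardinal.aleph.{u} ((n + 1 : ℕ) : Ordinal)).ord.ToType)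
      (fun a => (hIio a).trans hk)
      (fun C hC => bdd_of_lt_cof (regular_aleph_succ n) C (by
        refine lt_of_le_of_lt (Cardinal.le_aleph0_iff_set_countable.mpr hC) ?_
        rw [Cardinal.aleph0_lt_aleph]
        exact_mod_cast Nat.succ_pos n))
      (fun a S' hS' => ih (Iio a) (by
        have h2 := hIio a
        have h3 : Cardinal.aleph.{u} ((n + 1 : ℕ) : Ordinal) = Order.succ (Cardinal.aleph.{u} n) := by
          rw [Cardinal.succ_aleph]
          simp
        exact Order.lt_succ_iff.mp (h2.trans_eq h3)) S' hS') S hS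
    have hle : #T ≤ #((Cardinal.aleph.{u} ((n + 1 : ℕ) : Ordinal)).ord.ToType) := by
      rw [Cardinal.mk_toType, Cardinal.card_ord]
      exact hT
    obtain ⟨f⟩ := (Cardinal.le_def _ _).mp hle
    exact ⟨B, hB.of_injective f f.injective, hBS⟩

end PoolD32
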