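import Pool.Agent.Work.MP_d32a8c_gt.Merge

/-!
# PUnion: point-finite families give Lindelof closures of unions of discrete sets
-/

namespace PoolD32

open Set Topology
open scoped Cardinal

universe u

theorem lindelof_closure_of_pf_union {X : Type u} [TopologicalSpace X] [T2Space X] (hD : DL X)
    {Λ : Type u} {B : Set X} (h : PF Λ B) (E : Λ → Set X) (hE : ∀ t, IsDiscrete (E t)) :
    IsLindelof (closure (⋃ t, E t)) := by
  classical
  obtain ⟨hB, p, G, hpB, hGf, hG⟩ := h
  have hM : ∀ x : X, ∃ M : Set X, IsDiscrete M ∧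
      (x ∈ B → closure M = closure (⋃ t ∈ G x, E t)) := by
    intro x
    by_cases hx : x ∈ B
    · obtain ⟨M, hM, hMc⟩ := exists_discrete_biUnion E hE (hGf x hx)
      exact ⟨M, hM, fun _ => hMc⟩
    · exact ⟨∅, (subsingleton_empty).isDiscrete, fun h => (hx h).elim⟩
  choose M hMd hMc using hM
  set D : Set (X × X) := {z | z.1 ∈ B ∧ z.2 ∈ M z.1 ∧ z.1 ≠ z.2} with hDdef
  have hdis : IsDiscrete D := by
    rw [isDiscrete_iff_nhdsWithin]
    rintro ⟨x, t⟩ ⟨hx, ht, hxt⟩
    simp only at hx ht hxt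
    obtain ⟨W, hW, hWB⟩ := isOpen_inter_eq_singleton_of_mem_discrete hB hx
    have hxW : x ∈ W := by
      have : x ∈ W ∩ B := by rw [hWB]; rfl
      exact this.1
    obtain ⟨V, hV, hVE⟩ := isOpen_inter_eq_singleton_of_mem_discrete (hMd x) ht
    have htV : t ∈ V := by
      have : t ∈ V ∩ M x := by rw [hVE]; rfl
      exact this.1
    have hN : W ×ˢ V ∈ 𝓝 (x, t) := (hW.prod hV).mem_nhds ⟨hxW, htV⟩
    have hset : W ×ˢ V ∩ D = {(x, t)} := by
      ext ⟨y, s⟩
      constructor
      · rintro ⟨⟨hyW, hs⟩, hy, hsE, hys⟩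
        simp only at hyW hs hy hys hsE
        have hyx : y ∈ W ∩ B := ⟨hyW, hy⟩
        rw [hWB] at hyx
        obtain rfl : y = x := hyx
        have hst : s ∈ V ∩ M y := ⟨hs, hsE⟩
        rw [hVE] at hst
        obtain rfl : s = t := hst
        rfl
      · intro h
        rw [mem_singleton_iff] at h
        obtain ⟨rfl, rfl⟩ := Prod.mk.inj h
        exact ⟨⟨hxW, htV⟩, hx, ht, hxt⟩
    have := nhdsWithin_inter_of_mem' (s := D) (t := W ×ˢ V)
      (a := (x, t)) (mem_nhdsWithin_of_mem_nhds hN)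
    rw [← this, inter_comm, hset, nhdsWithin_singleton]
  have hL := hD D hdis (fun z hz => hz.2.2)
  have h1 : IsLindelof ((closure D \ diagonal X) ∩ ({p} ×ˢ closure (⋃ t, E t))) :=
    hL.inter_right (isClosed_singleton.prod isClosed_closure)
  have h2 := h1.image continuous_snd
  have h3 : IsLindelof (closure (⋃ t, E t) \ {p}) := by
    convert h2 using 1
    ext q
    simp only [mem_sdiff, mem_singleton_iff, mem_image, mem_inter_iff, mem_prod, Prod.exists,
      exists_eq_right]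
    constructor
    · rintro ⟨hq, hqp⟩
      refine ⟨p, ⟨?_, fun h => hqp h.symm⟩, rfl, hq⟩
      rw [mem_closure_iff_nhds]
      intro N hN
      obtain ⟨U, V, hU, hV, hpU, hqV, hUV⟩ := t2_separation (fun h : p = q => hqp h.symm)
      obtain ⟨A, hA, A', hA', hAB⟩ := mem_nhds_prod_iff.mp hN
      obtain ⟨A'', hA''s, hA''o, hqA''⟩ := mem_nhds_iff.mp (Filter.inter_mem hA' (hV.mem_nhds hqV))
      obtain ⟨s, hs1, hs2⟩ := mem_closure_iff.mp hq A'' hA''o hqA''
      obtain ⟨t, ht⟩ := mem_iUnion.mp hs2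
      obtain ⟨x, hx1, hx2, hx3⟩ := mem_closure_iff_nhds.mp (hG t) (A ∩ U)
        (Filter.inter_mem hA (hU.mem_nhds hpU))
      have hsM : s ∈ closure (M x) := by
        rw [hMc x hx2]
        exact subset_closure (mem_biUnion hx3 ht)
      obtain ⟨m, hm1, hm2⟩ := mem_closure_iff.mp hsM A'' hA''o hs1
      refine ⟨(x, m), hAB ⟨hx1.1, (hA''s hm1).1⟩, hx2, hm2, ?_⟩
      intro hxs
      exact disjoint_left.mp hUV hx1.2 (by rw [show x = m from hxs]; exact (hA''s hm1).2)
    · rintro ⟨a, ⟨_, hne⟩, rfl, hq⟩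
      exact ⟨hq, fun e => hne e.symm⟩
  refine (h3.union (isLindelof_singleton (x := p))).of_isClosed_subset isClosed_closure ?_
  intro q hq
  by_cases hqp : q = p
  · exact Or.inr hqp
  · exact Or.inl ⟨hq, hqp⟩

end PoolD32
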