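import Pool.Agent.Work.MP_d32a8c_gt.Funs

/-!
# PsiLt: points of pseudocharacter below aleph_omega are G_delta points
-/

namespace PoolD32

open Set Topology
open scoped Cardinal

universe u v

private theorem rec_scheme {θ Y : Type u} [LinearOrder θ] [WellFoundedLT θ]
    (P : ∀ a : θ, (Iio a → Y) → Y → Prop) (hP : ∀ a (prev : Iio a → Y), ∃ y, P a prev y) :
    ∃ x : θ → Y, ∀ a, P a (fun b => x b) (x a) := by
  classical
  let F : (a : θ) → (∀ b, b < a → Y) → Y := fun a prev =>
    Classical.choose (hP a (fun b => prev b.1 b.2))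
  let x : θ → Y := (wellFounded_lt (α := θ)).fix F
  refine ⟨x, fun a => ?_⟩
  have h1 : x a = F a (fun b _ => x b) := WellFounded.fix_eq _ _ _
  have h2 := Classical.choose_spec (hP a (fun b => x b.1))
  have h3 : Classical.choose (hP a (fun b => x b.1)) = x a := h1.symm
  rw [h3] at h2
  exact h2

private theorem bdd_of_countable {c : Cardinal.{u}} (hc : c.IsRegular) (h0 : ℵ₀ < c)
    (S : Set c.ord.ToType) (hS : S.Countable) : ∃ b, ∀ s ∈ S, s < b := by
  have h1 : ¬ IsCofinal S := by
    intro h
    have := Order.cof_le h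
    rw [Ordinal.cof_toType, hc.cof_ord] at this
    exact absurd (Cardinal.le_aleph0_iff_set_countable.mpr hS) (not_le.mpr (h0.trans_le this))
  rw [not_isCofinal_iff] at h1
  obtain ⟨b, hb⟩ := h1
  exact ⟨b, fun s hs => by simpa using hb s hs⟩

private theorem discrete_of_seq {Y : Type u} [TopologicalSpace Y] {θ : Type v} [LinearOrder θ]
    (x : θ → Y) (h1 : ∀ a, x a ∉ closure (x '' Iio a))
    (h2 : ∀ a, ∃ V, IsOpen V ∧ x a ∈ V ∧ ∀ b, a < b → x b ∉ V) : IsDiscrete (range x) := by
  rw [isDiscrete_iff_nhdsWithin]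
  rintro _ ⟨a, rfl⟩
  obtain ⟨V, hV, hxV, hVb⟩ := h2 a
  have hN : V ∩ (closure (x '' Iio a))ᶜ ∈ 𝓝 (x a) :=
    (hV.inter isClosed_closure.isOpen_compl).mem_nhds ⟨hxV, h1 a⟩
  have hset : V ∩ (closure (x '' Iio a))ᶜ ∩ range x = {x a} := by
    ext y
    constructor
    · rintro ⟨⟨hyV, hyc⟩, b, rfl⟩
      rcases lt_trichotomy b a with h | h | h
      · exact (hyc (subset_closure ⟨b, h, rfl⟩)).elim
      · rw [h]; rfl
      · exact (hVb b h hyV).elim
    · rintro rfl
      exact ⟨⟨hxV, h1 a⟩, a, rfl⟩
  have := nhdsWithin_inter_of_mem' (s := range x) (t := V ∩ (closure (x '' Iio a))ᶜ)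
    (a := x a) (mem_nhdsWithin_of_mem_nhds hN)
  rw [← this, inter_comm, hset, nhdsWithin_singleton]

/-- `p` is separated from all other points by a family of `c` continuous functions. -/
private def Sepd {X : Type u} [TopologicalSpace X] (p : X) (c : Cardinal.{u}) : Prop :=
  ∃ (ι : Type u) (f : ι → X → ℝ), #ι = c ∧ (∀ i, Continuous (f i)) ∧ (∀ i, f i p = 0) ∧
    ∀ x, x ≠ p → ∃ i, f i x ≠ 0

theorem isGdelta_of_psi_lt {X : Type u} [TopologicalSpace X] [T35Space X] (hD : DL X) (p : X)
    (𝒪 : Set (Set X)) (hc : #𝒪 < Cardinal.aleph.{u} Ordinal.omega0) (ho : ∀ O ∈ 𝒪, IsOpen O)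
    (hi : ⋂₀ 𝒪 = {p}) : IsGδ ({p} : Set X) := by
  classical
  have hsep : Sepd p #𝒪 := by
    have hex : ∀ O : 𝒪, ∃ f : X → ℝ, Continuous f ∧ f p = 0 ∧ ∀ x, x ∉ O.1 → f x ≠ 0 := by
      intro O
      have hpO : p ∈ O.1 := by
        have : p ∈ ⋂₀ 𝒪 := by rw [hi]; rfl
        exact this O.1 O.2
      obtain ⟨f, hf, h0, h1⟩ := CompletelyRegularSpace.completely_regular p O.1ᶜ
        (ho O.1 O.2).isClosed_compl (fun h => h hpO)
      refine ⟨fun x => (f x : ℝ), continuous_subtype_val.comp hf, by simp [h0], fun x hx => ?_⟩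
      have := h1 (show x ∈ O.1ᶜ from hx)
      simp [this]
    choose f hfc hfp hfx using hex
    refine ⟨𝒪, f, rfl, hfc, hfp, fun x hx => ?_⟩
    have : x ∉ ⋂₀ 𝒪 := by rw [hi]; exact hx
    simp only [mem_sInter, not_forall] at this
    obtain ⟨O, hO, hxO⟩ := this
    exact ⟨⟨O, hO⟩, hfx _ x hxO⟩
  -- the least cardinal of a separating family
  obtain ⟨c, hcs, hcmin⟩ : ∃ c, Sepd p c ∧ ∀ d, d < c → ¬ Sepd p d := by
    have hmin : ∀ c : Cardinal.{u}, Sepd p c → ∃ c, Sepd p c ∧ ∀ d, d < c → ¬ Sepd p d := by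
      intro c
      induction c using WellFoundedLT.induction with
      | ind c ih =>
        intro hc
        by_cases h : ∃ d, d < c ∧ Sepd p d
        · obtain ⟨d, hd, hds⟩ := h
          exact ih d hd hds
        · exact ⟨c, hc, fun d hd hds => h ⟨d, hd, hds⟩⟩
    exact hmin _ hsep
  have hcle : c ≤ #𝒪 := not_lt.mp fun h => hcmin _ h hsep
  by_cases h0 : c ≤ ℵ₀
  · obtain ⟨ι, f, hι, hfc, hfp, hfx⟩ := hcs
    have : Countable ι := by rw [← Cardinal.mk_le_aleph0_iff, hι]; exact h0
    have heq : ({p} : Set X) = ⋂ i, (f i) ⁻¹' {0} := by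
      ext x
      simp only [mem_singleton_iff, mem_iInter, mem_preimage]
      constructor
      · rintro rfl i
        exact hfp i
      · intro h
        by_contra hx
        obtain ⟨i, hi⟩ := hfx x hx
        exact hi (h i)
    rw [heq]
    exact IsGδ.iInter fun i => (isClosed_singleton.isGδ).preimage (hfc i)
  · exfalso
    rw [not_le] at h0
    have hreg : c.IsRegular := by
      obtain ⟨o, rfl⟩ := Cardinal.mem_range_aleph_iff.mpr h0.le
      obtain ⟨n, rfl⟩ := Ordinal.lt_omega0.mp (Cardinal.aleph_lt_aleph.mp (hcle.trans_lt hc))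
      have hn : n ≠ 0 := by
        rintro rfl
        simp at h0
      obtain ⟨m, rfl⟩ := Nat.exists_eq_succ_of_ne_zero hn
      have := Cardinal.isRegular_aleph_add_one (m : Ordinal.{u})
      simpa using this
    obtain ⟨ι, f, hι, hfc, hfp, hfx⟩ := hcs
    obtain ⟨e⟩ : Nonempty (c.ord.ToType ≃ ι) := by
      rw [← Cardinal.eq, Cardinal.mk_toType, Cardinal.card_ord, hι]
    have hz : ∀ A : Set X, ∃ z : X → ℝ, Continuous z ∧ z p = 0 ∧
        (IsDiscrete A → ∀ x ∈ closure A, x ≠ p → z x ≠ 0) := by
      intro A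
      by_cases hA : IsDiscrete A
      · have hL : IsLindelof (closure A \ {p}) := by
          by_cases hp : p ∈ closure A
          · exact diff_lindelof hD hA hp
          · rw [sdiff_singleton_eq_self hp]
            exact closure_lindelof hD hA
        obtain ⟨g, hg, -, hgp, hpos⟩ := exists_pos_fun hL
        exact ⟨g, hg, hgp, fun _ x hx hxp => (hpos x hx hxp).ne'⟩
      · exact ⟨fun _ => 0, continuous_const, rfl, fun h => (hA h).elim⟩
    choose z hzc hzp hz' using hz
    have hv : ∀ y : X, ∃ v : X → ℝ, Continuous v ∧ v p = 0 ∧ (y ≠ p → v y ≠ 0) := by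
      intro y
      have hL : IsLindelof (({y} : Set X) \ {p}) :=
        ((finite_singleton y).subset sdiff_subset).isLindelof
      obtain ⟨g, hg, -, hgp, hpos⟩ := exists_pos_fun hL
      exact ⟨g, hg, hgp, fun hy => (hpos y rfl hy).ne'⟩
    choose v hvc hvp hv' using hv
    have hIio : ∀ a : c.ord.ToType, #(Iio a) < c := fun a => Cardinal.mk_Iio_toType_ord_lt a
    obtain ⟨x, hx⟩ := rec_scheme (θ := c.ord.ToType) (Y := X) (fun a prev y => y ≠ p ∧
        (∀ b : Iio a, v (prev b) y = 0) ∧ (∀ b : Iio a, f (e b) y = 0) ∧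
        z (range prev) y = 0) (by
      intro a prev
      by_contra hno
      push Not at hno
      refine hcmin #(Iio a ⊕ (Iio a ⊕ PUnit.{u + 1})) ?_ ⟨Iio a ⊕ (Iio a ⊕ PUnit.{u + 1}),
        Sum.elim (fun b => v (prev b)) (Sum.elim (fun b => f (e b)) (fun _ => z (range prev))),
        rfl, ?_, ?_, ?_⟩
      · rw [Cardinal.mk_sum, Cardinal.mk_sum]
        simp only [Cardinal.lift_id, Cardinal.mk_fintype, Fintype.card_punit, Nat.cast_one]
        exact Cardinal.add_lt_of_lt h0.le (hIio a)
          (Cardinal.add_lt_of_lt h0.le (hIio a) (Cardinal.one_lt_aleph0.trans h0))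
      · rintro (b | b | b)
        · exact hvc _
        · exact hfc _
        · exact hzc _
      · rintro (b | b | b)
        · exact hvp _
        · exact hfp _
        · exact hzp _
      · intro y hy
        by_contra hall
        push Not at hall
        exact hno y hy (fun b => hall (Sum.inl b)) (fun b => hall (Sum.inr (Sum.inl b)))
          (hall (Sum.inr (Sum.inr PUnit.unit))))
    have hxp : ∀ a, x a ≠ p := fun a => (hx a).1
    have k1 : ∀ a b, a < b → v (x a) (x b) = 0 := fun a b hab => (hx b).2.1 ⟨a, hab⟩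
    have k2 : ∀ a b, a < b → f (e a) (x b) = 0 := fun a b hab => (hx b).2.2.1 ⟨a, hab⟩
    have k3 : ∀ a, z (x '' Iio a) (x a) = 0 := by
      intro a
      have e3 : range (fun b : Iio a => x b) = x '' Iio a := by
        ext y
        simp
      have := (hx a).2.2.2
      rwa [e3] at this
    have hd : ∀ a, IsDiscrete (x '' Iio a) := by
      intro a
      induction a using WellFoundedLT.induction with
      | ind a ih =>
        have h1 := discrete_of_seq (fun b : Iio a => x b) (by
            intro b hb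
            have e' : (fun b : Iio a => x b) '' Iio b = x '' Iio b.1 := by
              ext y
              constructor
              · rintro ⟨d, hd, rfl⟩
                exact ⟨d.1, hd, rfl⟩
              · rintro ⟨d, hd, rfl⟩
                exact ⟨⟨d, mem_Iio.mpr (lt_trans (mem_Iio.mp hd) (mem_Iio.mp b.2))⟩,
                  mem_Iio.mp hd, rfl⟩
            rw [e'] at hb
            exact hz' _ (ih b b.2) _ hb (hxp _) (k3 b))
          (fun b => ⟨{y | v (x b) y ≠ 0}, isOpen_ne_fun (hvc _) continuous_const, hv' _ (hxp _),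
            fun d hbd => by simpa using k1 b d hbd⟩)
        have e' : range (fun b : Iio a => x b) = x '' Iio a := by
          ext y
          simp
        rwa [e'] at h1
    have hdis : IsDiscrete (range x) := discrete_of_seq x
      (fun a ha => hz' _ (hd a) _ ha (hxp _) (k3 a))
      (fun b => ⟨{y | v (x b) y ≠ 0}, isOpen_ne_fun (hvc _) continuous_const, hv' _ (hxp _),
            fun d hbd => by simpa using k1 b d hbd⟩)
    have hL : IsLindelof (closure (range x) \ {p}) := by
      by_cases hp : p ∈ closure (range x)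
      · exact diff_lindelof hD hdis hp
      · rw [sdiff_singleton_eq_self hp]
        exact closure_lindelof hD hdis
    obtain ⟨t, htc, hti⟩ := hL.elim_countable_subcover (fun a => {y | f (e a) y ≠ 0})
      (fun a => isOpen_ne_fun (hfc _) continuous_const) (by
        rintro y ⟨-, hy⟩
        obtain ⟨i, hi⟩ := hfx y hy
        exact mem_iUnion.mpr ⟨e.symm i, by simpa using hi⟩)
    obtain ⟨b, hb⟩ := bdd_of_countable hreg h0 t htc
    have := hti ⟨subset_closure (mem_range_self b), hxp b⟩
    simp only [mem_iUnion] at this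
    obtain ⟨a, hat, hab⟩ := this
    exact hab (k2 a b (hb a hat))

end PoolD32
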