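import Pool.Agent.Work.MP_d32a8c_gt.Clus
import Pool.Agent.Work.MP_d32a8c_gt.KFacts

/-!
# Tight: tightness below aleph_omega (M)

PROOF. Let `θ = (ℵ_(n+1)).ord.ToType`: `#(Iio a) < ℵ_(n+1) < ℵ_ω ≤ κ` (`bad_facts`), every subset of
size `≤ ℵ_n` is bounded above strictly (regularity of `ℵ_(n+1)`, no maximum), in particular
countable subsets. `exists_blocks` with `Q a B := ∃ x, B = {x}` (any `e`; `ι` is nonempty) gives
points `x a`, `F = range x` discrete, `closure F` Lindelof, and for each `a` an open `O a` with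
`closure {x b | b < a} ⊆ O a` and `x c ∉ O a` for all `c ≥ a`. By `exists_cluster` (with `p = x`)
there is `q ∈ closure F` with `q ∈ closure (x '' Ioi b)` for all `b`. By tightness there is
`F₀ ⊆ F` with `#F₀ ≤ ℵ_n` and `q ∈ closure F₀`. `F₀ ⊆ x '' (Iio a)` for some `a` (choose preimages;
they form a set of size `≤ ℵ_n`, bounded). So `q ∈ closure (x '' Iio a) ⊆ O a`, an open
neighbourhood of `q` containing no `x c` with `c > a`, contradicting `q ∈ closure (x '' Ioi a)`.
-/

namespace PoolD32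

open Set Topology
open scoped Cardinal

universe u

private theorem bdd_of_lt_cof {c : Cardinal.{u}} (hc : c.IsRegular) (S : Set c.ord.ToType)
    (hS : #S < c) : ∃ b, ∀ s ∈ S, s < b := by
  have h1 : ¬ IsCofinal S := by
    intro h
    have := Order.cof_le h
    rw [Ordinal.cof_toType, hc.cof_ord] at this
    exact absurd hS (not_lt.mpr this)
  rw [not_isCofinal_iff] at h1
  obtain ⟨b, hb⟩ := h1
  exact ⟨b, fun s hs => by simpa using hb s hs⟩

private theorem regular_aleph_succ (n : ℕ) :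
    (Cardinal.aleph.{u} ((n + 1 : ℕ) : Ordinal)).IsRegular := by
  have := Cardinal.isRegular_aleph_add_one (n : Ordinal.{u})
  simpa using this

theorem false_of_tight {X : Type u} [TopologicalSpace X] [T35Space X] (hD : DL X)
    {κ : Cardinal.{u}} {ι : Type u} {U : ι → Set X} (hU : Bad X κ U) (n : ℕ)
    (h : ∀ (A : Set X) (x : X), x ∈ closure A →
      ∃ B ⊆ A, #B ≤ Cardinal.aleph.{u} n ∧ x ∈ closure B) : False := by
  have hne : Nonempty ι := by
    rw [← Cardinal.mk_ne_zero_iff, hU.card]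
    exact (Cardinal.aleph0_pos.trans hU.unc).ne'
  have hk : Cardinal.aleph.{u} ((n + 1 : ℕ) : Ordinal) < κ := by
    refine lt_of_lt_of_le ?_ (bad_facts hD hU).1
    exact Cardinal.aleph_lt_aleph.mpr (Ordinal.natCast_lt_omega0 _)
  have hIio : ∀ a : (Cardinal.aleph.{u} ((n + 1 : ℕ) : Ordinal)).ord.ToType,
      #(Iio a) < κ := fun a => (Cardinal.mk_Iio_toType_ord_lt a).trans hk
  obtain ⟨B, hQ, hdis, hO, -, -⟩ := exists_blocks hD hU hIio (fun _ => hne.some)
    (fun _ B => ∃ x, B = {x})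
    (by rintro a B ⟨x, rfl⟩; exact (subsingleton_singleton).isDiscrete)
    (by
      intro a S' hS'
      obtain ⟨x, hx⟩ := (ne_univ_iff_exists_notMem _).mp (hU.small _ hS')
      exact ⟨{x}, ⟨x, rfl⟩, disjoint_singleton_left.mpr hx⟩)
  choose x hBx using hQ
  have hEr : (⋃ a, B a) = range x := by
    ext y
    simp only [mem_iUnion, mem_range]
    constructor
    · rintro ⟨a, ha⟩
      rw [hBx a] at ha
      exact ⟨a, ha.symm⟩
    · rintro ⟨a, rfl⟩
      exact ⟨a, by rw [hBx a]; rfl⟩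
  rw [hEr] at hdis
  have hreg := regular_aleph_succ.{u} n
  obtain ⟨q, hq, hqb⟩ := exists_cluster (fun C hC => bdd_of_lt_cof hreg C (by
        refine lt_of_le_of_lt (Cardinal.le_aleph0_iff_set_countable.mpr hC) ?_
        rw [Cardinal.aleph0_lt_aleph]
        exact_mod_cast Nat.succ_pos n)) (closure_lindelof hD hdis) x
    (fun a => subset_closure (mem_range_self a))
  obtain ⟨F, hFr, hFc, hqF⟩ := h _ q hq
  have hneT : Nonempty (Cardinal.aleph.{u} ((n + 1 : ℕ) : Ordinal)).ord.ToType := by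
    obtain ⟨_, a, -⟩ := closure_nonempty_iff.mp ⟨q, hq⟩
    exact ⟨a⟩
  choose! g hg using fun (y : X) (hy : y ∈ F) => hFr hy
  obtain ⟨b, hb⟩ := bdd_of_lt_cof hreg (g '' F) (by
    refine lt_of_le_of_lt (Cardinal.mk_image_le.trans hFc) ?_
    exact Cardinal.aleph_lt_aleph.mpr (by exact_mod_cast Nat.lt_succ_self n))
  obtain ⟨O, hOo, hOc, hOd⟩ := hO b
  have hqO : q ∈ O := by
    refine hOc (closure_mono ?_ hqF)
    intro y hy
    refine mem_biUnion (mem_Iio.mpr (hb _ ⟨y, hy, rfl⟩)) ?_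
    rw [hBx]
    exact (hg y hy).symm
  obtain ⟨y, hyO, a, ha, rfl⟩ := mem_closure_iff_nhds.mp (hqb b) O (hOo.mem_nhds hqO)
  refine disjoint_left.mp (hOd a (le_of_lt ha)) hyO ?_
  rw [hBx]
  rfl

end PoolD32
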