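import Pool.Agent.Work.MP_d32a8c_gt.CMet
import Pool.Agent.Work.MP_d32a8c_gt.BadEx
import Pool.Agent.Work.MP_d32a8c_gt.PAleph
import Pool.Agent.Work.MP_d32a8c_gt.PUnion
import Pool.Agent.Work.MP_d32a8c_gt.DUnion
import Pool.Agent.Work.MP_d32a8c_gt.PsiLt
import Pool.Agent.Work.MP_d32a8c_gt.Tight
import Pool.Agent.Work.MP_d32a8c_gt.DCont
import Pool.Agent.Work.MP_d32a8c_gt.LocL

/-!
# Main: the assembly
-/

namespace PoolD32

open Set Topology
open scoped Cardinal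

universe u

theorem lt_aleph_omega_iff' {c : Cardinal.{u}} (h : c < Cardinal.aleph.{u} Ordinal.omega0) :
    ∃ n : ℕ, c ≤ Cardinal.aleph.{u} n := by
  rcases le_or_gt c ℵ₀ with h0 | h0
  · exact ⟨0, by simpa using h0⟩
  · obtain ⟨o, rfl⟩ := Cardinal.mem_range_aleph_iff.mpr h0.le
    obtain ⟨n, rfl⟩ := Ordinal.lt_omega0.mp (Cardinal.aleph_lt_aleph.mp h)
    exact ⟨n, le_rfl⟩

theorem not_lindelof_false {X : Type u} [TopologicalSpace X] (hX : Pseudocompact X)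
    (hY : DiscretelyLindelof (OffDiagonal X)) (hn : ¬ IsLindelof (univ : Set X))
    (h : Cardinal.continuum.{u} ≤ Cardinal.aleph.{u} Ordinal.omega0 ∨
      (∃ (Λ : Type u) (E : Λ → Set X), #Λ < Cardinal.aleph.{u} Ordinal.omega0 ∧
        (∀ t, DiscreteTopology (E t)) ∧ Dense (⋃ t, E t)) ∨
      (∃ (Λ : Type u) (E : Λ → Set X), #Λ ≤ Cardinal.aleph.{u} Ordinal.omega0 ∧
        (∀ t, DiscreteTopology (E t)) ∧ (⋃ t, closure (E t)) = univ) ∨
      (∃ c : Cardinal.{u}, c < Cardinal.aleph.{u} Ordinal.omega0 ∧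
        ∀ (A : Set X) (x : X), x ∈ closure A → ∃ B ⊆ A, #B ≤ c ∧ x ∈ closure B) ∨
      (∃ E : Set X, DiscreteTopology E ∧ Cardinal.continuum.{u} ≤ #E) ∨
      (∀ W : Set X, IsOpen W → W.Nonempty →
        ∃ V ⊆ W, IsOpen V ∧ V.Nonempty ∧ IsLindelof (closure V))) : False := by
  have := hX.1
  have hD := dl_of_discretelyLindelof hY
  obtain ⟨κ, ι, U, hU⟩ := exists_bad hn
  obtain ⟨hk1, hk2⟩ := bad_facts hD hU
  rcases h with h | ⟨Λ, E, hΛ, hE, hd⟩ | ⟨Λ, E, hΛ, hE, hcov⟩ | ⟨c, hc, ht⟩ | ⟨E, hE, hEc⟩ | hloc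
  · exact absurd (h.trans hk1) (not_le.mpr hk2)
  · obtain ⟨n, hn'⟩ := lt_aleph_omega_iff' hΛ
    obtain ⟨B, hB, -⟩ := pf_aleph hD hU n Λ hn' ∅ (by simpa using (Cardinal.aleph0_pos.trans hU.unc))
    have := lindelof_closure_of_pf_union hD hB E (fun t => ⟨hE t⟩)
    rw [hd.closure_eq] at this
    exact hn this
  · exact false_of_union_closures hD hU (hΛ.trans hk1) E (fun t => ⟨hE t⟩) hcov
  · obtain ⟨n, hn'⟩ := lt_aleph_omega_iff' hc
    refine false_of_tight hD hU n fun A x hx => ?_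
    obtain ⟨B, hBA, hBc, hxB⟩ := ht A x hx
    exact ⟨B, hBA, hBc.trans hn', hxB⟩
  · exact false_of_discrete_continuum hD hU ⟨hE⟩ hEc
  · exact false_of_locLindelof hX hD hU hloc

theorem main {X : Type u} [TopologicalSpace X] (hX : Pseudocompact X)
    (hY : DiscretelyLindelof (OffDiagonal X))
    (h : Cardinal.continuum.{u} ≤ Cardinal.aleph.{u} Ordinal.omega0 ∨
      (∃ (Λ : Type u) (E : Λ → Set X), #Λ < Cardinal.aleph.{u} Ordinal.omega0 ∧
        (∀ t, DiscreteTopology (E t)) ∧ Dense (⋃ t, E t)) ∨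
      (∃ (Λ : Type u) (E : Λ → Set X), #Λ ≤ Cardinal.aleph.{u} Ordinal.omega0 ∧
        (∀ t, DiscreteTopology (E t)) ∧ (⋃ t, closure (E t)) = univ) ∨
      (∃ c : Cardinal.{u}, c < Cardinal.aleph.{u} Ordinal.omega0 ∧
        ∀ (A : Set X) (x : X), x ∈ closure A → ∃ B ⊆ A, #B ≤ c ∧ x ∈ closure B) ∨
      (∀ p : X, ∃ 𝒪 : Set (Set X), #𝒪 < Cardinal.aleph.{u} Ordinal.omega0 ∧
        (∀ O ∈ 𝒪, IsOpen O) ∧ ⋂₀ 𝒪 = {p}) ∨
      (∃ E : Set X, DiscreteTopology E ∧ Cardinal.continuum.{u} ≤ #E) ∨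
      (∀ W : Set X, IsOpen W → W.Nonempty →
        ∃ V ⊆ W, IsOpen V ∧ V.Nonempty ∧ IsLindelof (closure V)) ∨
      CountablyCompactSpace X) :
    CompactSpace X ∧ TopologicalSpace.MetrizableSpace X := by
  by_cases hn : IsLindelof (univ : Set X)
  · exact of_lindelof hX hY hn
  have := hX.1
  rcases h with h | h | h | h | h | h | h | h
  · exact (not_lindelof_false hX hY hn (Or.inl h)).elim
  · exact (not_lindelof_false hX hY hn (Or.inr (Or.inl h))).elim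
  · exact (not_lindelof_false hX hY hn (Or.inr (Or.inr (Or.inl h)))).elim
  · exact (not_lindelof_false hX hY hn (Or.inr (Or.inr (Or.inr (Or.inl h))))).elim
  · refine of_gdelta hX hY fun p => ?_
    obtain ⟨𝒪, h1, h2, h3⟩ := h p
    exact isGdelta_of_psi_lt (dl_of_discretelyLindelof hY) p 𝒪 h1 h2 h3
  · exact (not_lindelof_false hX hY hn (Or.inr (Or.inr (Or.inr (Or.inr (Or.inl h)))))).elim
  · exact (not_lindelof_false hX hY hn (Or.inr (Or.inr (Or.inr (Or.inr (Or.inr h)))))).elim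
  · exact of_countablyCompact hX hY h

end PoolD32
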