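import Pool.Agent.Work.MP_d32a8c_gt.Defs

/-!
# Merge: finite unions of discrete sets have a discrete set with the same closure
-/

namespace PoolD32

open Set Topology

universe u v

theorem exists_discrete_merge {X : Type u} [TopologicalSpace X] {A B : Set X}
    (hA : IsDiscrete A) (hB : IsDiscrete B) :
    ∃ M : Set X, IsDiscrete M ∧ closure M = closure (A ∪ B) := by
  set A' := A \ closure B with hA'
  set B' := B \ closure A' with hB'
  have hdis : IsDiscrete (A' ∪ B') := by
    rw [isDiscrete_iff_nhdsWithin]
    have key : ∀ (C D C' : Set X) (x : X), IsDiscrete C → C' ⊆ C → x ∈ C' → x ∉ closure D →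
        𝓝[C' ∪ D] x = pure x := by
      intro C D C' x hC hC' hx hxD
      rw [nhdsWithin_union]
      have h1 : 𝓝[D] x = ⊥ := by
        rwa [mem_closure_iff_nhdsWithin_neBot, Filter.not_neBot] at hxD
      rw [h1, sup_bot_eq]
      exact (isDiscrete_iff_nhdsWithin.mp (hC.mono hC')) x hx
    rintro x (hx | hx)
    · refine key A B' A' x hA sdiff_subset hx (fun h => hx.2 (closure_mono sdiff_subset h))
    · rw [union_comm]
      exact key B A' B' x hB sdiff_subset hx hx.2
  refine ⟨A' ∪ B', hdis, ?_⟩
  refine subset_antisymm (closure_mono (union_subset_union sdiff_subset sdiff_subset)) ?_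
  refine closure_minimal ?_ isClosed_closure
  have hBs : B ⊆ closure (A' ∪ B') := by
    intro x hx
    by_cases h : x ∈ closure A'
    · exact closure_mono subset_union_left h
    · exact subset_closure (Or.inr ⟨hx, h⟩)
  refine union_subset ?_ hBs
  intro x hx
  by_cases h : x ∈ closure B
  · exact closure_minimal hBs isClosed_closure h
  · exact subset_closure (Or.inl ⟨hx, h⟩)

theorem exists_discrete_biUnion {X : Type u} [TopologicalSpace X] {Λ : Type v} (E : Λ → Set X)
    (hE : ∀ t, IsDiscrete (E t)) {G : Set Λ} (hG : G.Finite) :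
    ∃ M : Set X, IsDiscrete M ∧ closure M = closure (⋃ t ∈ G, E t) := by
  induction G, hG using Set.Finite.induction_on with
  | empty => exact ⟨∅, (subsingleton_empty).isDiscrete, by simp⟩
  | @insert a s ha hs ih =>
    obtain ⟨M, hM, hMc⟩ := ih
    obtain ⟨N, hN, hNc⟩ := exists_discrete_merge (hE a) hM
    refine ⟨N, hN, ?_⟩
    rw [hNc, closure_union, hMc, biUnion_insert, closure_union]

end PoolD32
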