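import Pool.Agent.Work.MP_d32a8c_gt.Unc

/-!
# PBase: point-finite families indexed by a countable set (S)

PROOF. Take `B, p, g` from `exists_unc` for `S`, and an injection `c : T → ℕ`. Put
`G x = {t | (c t + 1) * g x ≤ 1}`: finite for `x ∈ B` since `g x > 0` bounds `c t`. For `t : T` the
set `{x ∈ B | t ∈ G x}` contains `B ∩ {g < 1/(c t + 1)}`, and `{g < 1/(c t + 1)}` is an open
neighbourhood of `p ∈ closure B`, so `p` is in its closure (`mem_closure_iff_nhds`,
`IsOpen.inter_closure`).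
-/

namespace PoolD32

open Set Topology
open scoped Cardinal

universe u

theorem pf_countable {X : Type u} [TopologicalSpace X] [T35Space X] (hD : DL X)
    {κ : Cardinal.{u}} {ι : Type u} {U : ι → Set X} (hU : Bad X κ U) (T : Type u) [Countable T]
    (S : Set ι) (hS : #S < κ) : ∃ B : Set X, PF T B ∧ Disjoint B (⋃ i ∈ S, U i) := by
  obtain ⟨B, hBS, hB, p, hpB, -, g, hg, hgp, hpos⟩ := exists_unc hD hU S hS
  obtain ⟨c, hc⟩ := Countable.exists_injective_nat T
  refine ⟨B, ⟨hB, p, fun x => {t | ((c t : ℝ) + 1) * g x ≤ 1}, hpB, ?_, ?_⟩, hBS⟩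
  · intro x hx
    have hgx := hpos x hx
    have : {t | ((c t : ℝ) + 1) * g x ≤ 1} ⊆ c ⁻¹' (Iic ⌈1 / g x⌉₊) := by
      intro t ht
      have ht' : ((c t : ℝ) + 1) * g x ≤ 1 := ht
      have h1 : (c t : ℝ) + 1 ≤ 1 / g x := by
        rw [le_div_iff₀ hgx]; exact ht'
      have h2 : (c t : ℝ) ≤ ⌈1 / g x⌉₊ := by
        have := Nat.le_ceil (1 / g x)
        linarith
      exact_mod_cast h2
    exact ((finite_Iic _).preimage hc.injOn).subset this
  · intro t
    have hopen : IsOpen {x | ((c t : ℝ) + 1) * g x < 1} :=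
      isOpen_lt (continuous_const.mul hg) continuous_const
    have hpm : p ∈ {x | ((c t : ℝ) + 1) * g x < 1} := by
      simp [hgp]
    have h1 : p ∈ closure ({x | ((c t : ℝ) + 1) * g x < 1} ∩ B) :=
      hopen.inter_closure ⟨hpm, hpB⟩
    refine closure_mono ?_ h1
    rintro x ⟨hx1, hx2⟩
    have hx1' : ((c t : ℝ) + 1) * g x < 1 := hx1
    exact ⟨hx2, (show ((c t : ℝ) + 1) * g x ≤ 1 from hx1'.le)⟩

end PoolD32
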