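import Pool.Agent.Work.MP_d32a8c_gt.Defs

/-!
# PLind: point-finite families give Lindelof closures (S-M)

PROOF. Let `p, G` be the data of `PF T B`, and
`D = {z : X × X | z.1 ∈ B ∧ ∃ h : z.2 ∈ T, (⟨z.2, h⟩ : T) ∈ G z.1 ∧ z.1 ≠ z.2}`. `D` is discrete:
at `(x, t) ∈ D` take an open `W ∋ x` with `W ∩ B = {x}` and an open `V ∋ t` missing the finitely
many other points of `G x` (T1). `D` is off-diagonal. By `DL X`, `closure D \ diagonal X` is
Lindelof. For `q ∈ closure T`, `q ≠ p`: `(p, q) ∈ closure D`: given open `W ∋ p`, `V ∋ q`, shrink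
them to be disjoint (`t2_separation`); there is `t ∈ V ∩ T`; as `p ∈ closure {x ∈ B | t ∈ G x}`
there is `x ∈ W ∩ B` with `t ∈ G x`; `x ≠ t` since `W`, `V` are disjoint; `(x, t) ∈ D`.
So `closure T \ {p}` is the image under `Prod.snd` of
`(closure D \ diagonal X) ∩ ({p} ×ˢ closure T)`, a closed subset of a Lindelof set
(`IsLindelof.inter_right`, `IsLindelof.image`), and `closure T` is a closed subset of
`(closure T \ {p}) ∪ {p}`, so Lindelof.
-/

namespace PoolD32

open Set Topology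
open scoped Cardinal

universe u

theorem lindelof_closure_of_pf {X : Type u} [TopologicalSpace X] [T2Space X] (hD : DL X)
    {T : Set X} {B : Set X} (h : PF T B) : IsLindelof (closure T) := by
  obtain ⟨hB, p, G, hpB, hGf, hG⟩ := h
  set D : Set (X × X) := {z | z.1 ∈ B ∧ z.1 ≠ z.2 ∧ ∃ h : z.2 ∈ T, (⟨z.2, h⟩ : T) ∈ G z.1} with hDdef
  have hdis : IsDiscrete D := by
    rw [isDiscrete_iff_nhdsWithin]
    rintro ⟨x, t⟩ ⟨hx, hxt, htT, htG⟩
    simp only at hx hxt htT htG
    obtain ⟨W, hW, hWB⟩ := isOpen_inter_eq_singleton_of_mem_discrete hB hx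
    have hxW : x ∈ W := by
      have : x ∈ W ∩ B := by rw [hWB]; rfl
      exact this.1
    have hfin : ((Subtype.val '' (G x)) \ {t}).Finite := ((hGf x hx).image _).subset sdiff_subset
    have hV : IsOpen (((Subtype.val '' (G x)) \ {t})ᶜ) := hfin.isClosed.isOpen_compl
    have htV : t ∈ ((Subtype.val '' (G x)) \ {t})ᶜ := fun h => h.2 rfl
    have hN : W ×ˢ (((Subtype.val '' (G x)) \ {t})ᶜ) ∈ 𝓝 (x, t) :=
      (hW.prod hV).mem_nhds ⟨hxW, htV⟩
    have hset : W ×ˢ (((Subtype.val '' (G x)) \ {t})ᶜ) ∩ D = {(x, t)} := by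
      ext ⟨y, s⟩
      constructor
      · rintro ⟨⟨hyW, hs⟩, hy, hys, hsT, hsG⟩
        simp only at hyW hs hy hys hsT hsG
        have hyx : y ∈ W ∩ B := ⟨hyW, hy⟩
        rw [hWB] at hyx
        obtain rfl : y = x := hyx
        by_contra hne
        refine hs ⟨⟨⟨s, hsT⟩, hsG, rfl⟩, ?_⟩
        intro hst
        apply hne
        rw [show s = t from hst]
        rfl
      · intro h
        rw [mem_singleton_iff] at h
        obtain ⟨rfl, rfl⟩ := Prod.mk.inj h
        exact ⟨⟨hxW, htV⟩, hx, hxt, htT, htG⟩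
    have := nhdsWithin_inter_of_mem' (s := D) (t := W ×ˢ (((Subtype.val '' (G x)) \ {t})ᶜ))
      (a := (x, t)) (mem_nhdsWithin_of_mem_nhds hN)
    rw [← this, inter_comm, hset, nhdsWithin_singleton]
  have hL := hD D hdis (fun z hz => hz.2.1)
  have h1 : IsLindelof ((closure D \ diagonal X) ∩ ({p} ×ˢ closure T)) :=
    hL.inter_right (isClosed_singleton.prod isClosed_closure)
  have h2 := h1.image continuous_snd
  have h3 : IsLindelof (closure T \ {p}) := by
    convert h2 using 1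
    ext q
    simp only [mem_sdiff, mem_singleton_iff, mem_image, mem_inter_iff, mem_prod, Prod.exists,
      exists_eq_right]
    constructor
    · rintro ⟨hq, hqp⟩
      refine ⟨p, ⟨?_, fun h => hqp h.symm⟩, rfl, hq⟩
      rw [mem_closure_iff_nhds]
      intro t ht
      obtain ⟨U, V, hU, hV, hpU, hqV, hUV⟩ := t2_separation (fun h : p = q => hqp h.symm)
      obtain ⟨A, hA, A', hA', hAB⟩ := mem_nhds_prod_iff.mp ht
      obtain ⟨s, hs1, hs2⟩ := mem_closure_iff_nhds.mp hq (A' ∩ V)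
        (Filter.inter_mem hA' (hV.mem_nhds hqV))
      obtain ⟨x, hx1, hx2, hx3⟩ := mem_closure_iff_nhds.mp (hG ⟨s, hs2⟩) (A ∩ U)
        (Filter.inter_mem hA (hU.mem_nhds hpU))
      refine ⟨(x, s), hAB ⟨hx1.1, hs1.1⟩, hx2, ?_, hs2, hx3⟩
      intro hxs
      exact disjoint_left.mp hUV hx1.2 (by rw [show x = s from hxs]; exact hs1.2)
    · rintro ⟨a, ⟨_, hne⟩, rfl, hq⟩
      exact ⟨hq, fun e => hne e.symm⟩
  refine (h3.union (isLindelof_singleton (x := p))).of_isClosed_subset isClosed_closure ?_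
  intro q hq
  by_cases hqp : q = p
  · exact Or.inr hqp
  · exact Or.inl ⟨hq, hqp⟩

end PoolD32
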