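import Pool.Agent.Work.MP_d32a8c_gt.PBase
import Pool.Agent.Work.MP_d32a8c_gt.Clus

/-!
# PStep: from sets of smaller size to a regular uncountable size (M)

PROOF. `θ` is the index set `T` itself, well ordered in a regular uncountable type. Apply
`exists_blocks` with `Q a B := PF (Iio a) B ∧ Disjoint B (⋃ i ∈ S, U i)`; `hQ` for `a` and `S'`:
apply `hsmall` to `a` and `S ∪ S'` (`#(S ∪ S') < κ`); `e` arbitrary. Let `B a` be the blocks, with
points `p a ∈ closure (B a)` and finite sets `G a x ⊆ Iio a` (`x ∈ B a`), and let `E = ⋃ a, B a`,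
discrete. The blocks are pairwise disjoint (from (5) of `exists_blocks`, `subset_closure`).
`closure E` is Lindelof (`closure_lindelof`) and contains all `p a`. By `exists_cluster` there is
`q ∈ closure E` with `q ∈ closure (p '' Ioi b)` for all `b`. Define `G x = Subtype.val '' (G a x)`
for the unique `a` with `x ∈ B a` (and `∅` if there is none). Then `E, q, G` witness `PF θ E`:
for `t : θ` and every `a > t` the point `p a` is in `closure {x ∈ B a | t ∈ G a x} ⊆
closure {x ∈ E | t ∈ G x}`, so `q ∈ closure (p '' Ioi t) ⊆ closure {x ∈ E | t ∈ G x}`.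
`E` is disjoint from `⋃ i ∈ S, U i`.
-/

namespace PoolD32

open Set Topology
open scoped Cardinal

universe u

theorem pf_step {X : Type u} [TopologicalSpace X] [T35Space X] (hD : DL X)
    {κ : Cardinal.{u}} {ι : Type u} {U : ι → Set X} (hU : Bad X κ U)
    {θ : Type u} [LinearOrder θ] [WellFoundedLT θ] (hθ : ∀ a : θ, #(Iio a) < κ)
    (hθc : ∀ S : Set θ, S.Countable → ∃ b, ∀ s ∈ S, s < b)
    (hsmall : ∀ (a : θ) (S : Set ι), #S < κ →
      ∃ B : Set X, PF (Iio a) B ∧ Disjoint B (⋃ i ∈ S, U i))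
    (S : Set ι) (hS : #S < κ) : ∃ B : Set X, PF θ B ∧ Disjoint B (⋃ i ∈ S, U i) := by
  classical
  have hne : Nonempty ι := by
    rw [← Cardinal.mk_ne_zero_iff, hU.card]
    exact (Cardinal.aleph0_pos.trans hU.unc).ne'
  obtain ⟨B, hQ, hdis, -, -, hdj⟩ := exists_blocks hD hU hθ (fun _ => hne.some)
    (fun a B => PF (Iio a) B ∧ Disjoint B (⋃ i ∈ S, U i)) (fun a B h => h.1.1)
    (by
      intro a S' hS'
      have h1 : #(S ∪ S' : Set ι) < κ := lt_of_le_of_lt (Cardinal.mk_union_le S S')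
        (Cardinal.add_lt_of_lt hU.unc.le hS hS')
      obtain ⟨B, hB, hBd⟩ := hsmall a _ h1
      exact ⟨B, ⟨hB, hBd.mono_right (biUnion_subset_biUnion_left subset_union_left)⟩,
        hBd.mono_right (biUnion_subset_biUnion_left subset_union_right)⟩)
  have hBd : ∀ a b, a ≠ b → Disjoint (B a) (B b) := by
    intro a b hab
    rcases lt_or_gt_of_ne hab with h | h
    · exact (hdj a b h).mono_left subset_closure
    · exact ((hdj b a h).mono_left subset_closure).symm
  have hQ1 : ∀ a, ∃ (p : X) (G : X → Set (Iio a)), p ∈ closure (B a) ∧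
      (∀ x ∈ B a, (G x).Finite) ∧ ∀ t, p ∈ closure {x | x ∈ B a ∧ t ∈ G x} := fun a => (hQ a).1.2
  choose p G hp hGf hG using hQ1
  have hL := closure_lindelof hD hdis
  obtain ⟨q, hq, hqb⟩ := exists_cluster hθc hL p
    (fun a => closure_mono (subset_iUnion B a) (hp a))
  refine ⟨⋃ a, B a, ⟨hdis, q, fun x => ⋃ a, ⋃ _ : x ∈ B a, Subtype.val '' (G a x), hq, ?_, ?_⟩, ?_⟩
  · intro x hx
    obtain ⟨a, ha⟩ := mem_iUnion.mp hx
    have : (⋃ b, ⋃ _ : x ∈ B b, Subtype.val '' (G b x)) ⊆ Subtype.val '' (G a x) := by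
      refine iUnion₂_subset fun b hb => ?_
      by_cases hab : a = b
      · subst hab; exact subset_rfl
      · exact (disjoint_left.mp (hBd a b hab) ha hb).elim
    exact ((hGf a x ha).image _).subset this
  · intro t
    have h1 : p '' Ioi t ⊆ closure {x | x ∈ ⋃ a, B a ∧
        t ∈ ⋃ a, ⋃ _ : x ∈ B a, Subtype.val '' (G a x)} := by
      rintro _ ⟨a, ha, rfl⟩
      refine closure_mono ?_ (hG a ⟨t, ha⟩)
      rintro x ⟨hx1, hx2⟩
      exact ⟨mem_iUnion.mpr ⟨a, hx1⟩, mem_iUnion₂.mpr ⟨a, hx1, ⟨⟨t, ha⟩, hx2, rfl⟩⟩⟩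
    have h2 := closure_mono h1 (hqb t)
    rwa [closure_closure] at h2
  · rw [disjoint_iUnion_left]
    exact fun a => (hQ a).2

end PoolD32
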