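import Pool.Agent.Work.MP_d32a8c_gt.Defs

/-!
# PscGd: a G_delta point of a pseudocompact space has a countable base (S-M)

PROOF. Let `{p} = ⋂ n, O n` with `O n` open (`IsGδ`, `isGδ_iff_eq_iInter_nat`). Choose continuous
`f_n : X → [0,1]` with `f_n p = 0` and `f_n = 1` off `O n`
(`CompletelyRegularSpace.completely_regular p (O n)ᶜ`), and `f = ∑' n, (1/2)^n * f_n`
(`continuous_tsum`): `f` is continuous, `f ≥ 0`, `f p = 0`, `f x > 0` for `x ≠ p`.

CLAIM: for every open `W ∋ p` there is `c > 0` with `{f < c} ⊆ W`. Choose a continuous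
`g : X → [0,1]` with `g p = 0`, `g = 1` off `W`, and put `k = max 0 (2 g - 1)`: `k = 0` on the
neighbourhood `{g < 1/2}` of `p` and `k = 1` off `W`. The function `h x = k x / f x` (equal to
`0` at `p`, division by zero) is continuous: near `p` it vanishes, and on the open set `{p}ᶜ` it
is a quotient with nonzero denominator. By pseudocompactness `|h| ≤ C`, so for `x ∉ W`
`1 / f x ≤ C`, `f x ≥ 1/(C+1) =: c > 0`.

Hence the sets `{f < 1/(n+1)}` form a countable neighbourhood base at `p`:
`𝓝 p = comap f (𝓝 0)` (`≤` by continuity, `≥` by the claim), which is countably generated.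
-/

namespace PoolD32

open Set Topology

universe u

theorem nhds_isCountablyGenerated {X : Type u} [TopologicalSpace X] (hX : Pseudocompact X) {p : X}
    (hp : IsGδ ({p} : Set X)) : (𝓝 p).IsCountablyGenerated := by
  classical
  haveI : T35Space X := hX.1
  obtain ⟨O, hO, hOp⟩ := isGδ_iff_eq_iInter_nat.1 hp
  have hpO : ∀ n, p ∈ O n := by
    intro n
    have : p ∈ ⋂ n, O n := by rw [← hOp]; exact mem_singleton p
    exact mem_iInter.1 this n
  have hcr := fun n => CompletelyRegularSpace.completely_regular p (O n)ᶜ (hO n).isClosed_compl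
    (fun h => h (hpO n))
  choose g hgc hg0 hg1 using hcr
  let f : X → ℝ := fun x => ∑' n, (1 / 2 : ℝ) ^ n * (g n x : ℝ)
  have hsum : ∀ x, Summable fun n => (1 / 2 : ℝ) ^ n * (g n x : ℝ) := by
    intro x
    refine Summable.of_nonneg_of_le (fun n => mul_nonneg (by positivity) (g n x).2.1) (fun n => ?_)
      summable_geometric_two
    have := (g n x).2.2
    have h2 : (0 : ℝ) ≤ (1 / 2 : ℝ) ^ n := by positivity
    nlinarith
  have hfc : Continuous f := by
    refine continuous_tsum (u := fun n => (1 / 2 : ℝ) ^ n) (fun n => ?_) summable_geometric_two ?_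
    · exact continuous_const.mul (continuous_subtype_val.comp (hgc n))
    · intro n x
      have h1 := (g n x).2.2
      have h0 := (g n x).2.1
      rw [Real.norm_eq_abs, abs_of_nonneg (mul_nonneg (by positivity) h0)]
      have h2 : (0 : ℝ) ≤ (1 / 2 : ℝ) ^ n := by positivity
      nlinarith
  have hf0 : ∀ x, 0 ≤ f x := fun x => tsum_nonneg fun n => mul_nonneg (by positivity) (g n x).2.1
  have hfp : f p = 0 := by
    have : ∀ n, (1 / 2 : ℝ) ^ n * (g n p : ℝ) = 0 := by
      intro n; rw [hg0 n]; simp
    simp only [f]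
    rw [tsum_congr this, tsum_zero]
  have hfpos : ∀ x, x ≠ p → 0 < f x := by
    intro x hx
    have : x ∉ ⋂ n, O n := by rw [← hOp]; exact hx
    rw [mem_iInter, not_forall] at this
    obtain ⟨n, hn⟩ := this
    have h1 : g n x = 1 := hg1 n hn
    have : (0 : ℝ) < (1 / 2 : ℝ) ^ n * (g n x : ℝ) := by rw [h1]; simp
    exact (hsum x).tsum_pos (fun m => mul_nonneg (by positivity) (g m x).2.1) n this
  have claim : ∀ W : Set X, IsOpen W → p ∈ W → ∃ c : ℝ, 0 < c ∧ ∀ x, f x < c → x ∈ W := by
    intro W hW hpW
    obtain ⟨k0, hk0c, hk00, hk01⟩ := CompletelyRegularSpace.completely_regular p Wᶜ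
      hW.isClosed_compl (fun h => h hpW)
    let k : X → ℝ := fun x => max 0 (2 * (k0 x : ℝ) - 1)
    have hkc : Continuous k := continuous_const.max
      (((continuous_const.mul (continuous_subtype_val.comp hk0c))).sub continuous_const)
    let N : Set X := {x | (k0 x : ℝ) < 1 / 2}
    have hN : IsOpen N := isOpen_lt (continuous_subtype_val.comp hk0c) continuous_const
    have hpN : p ∈ N := by
      show (k0 p : ℝ) < 1 / 2
      rw [hk00]; norm_num
    have hkN : ∀ x ∈ N, k x = 0 := by
      intro x hx
      have : (k0 x : ℝ) < 1 / 2 := hx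
      exact max_eq_left (by linarith)
    have hh : Continuous fun x => k x / f x := by
      rw [continuous_iff_continuousAt]
      intro x
      by_cases hx : x = p
      · have : (fun y => k y / f y) =ᶠ[𝓝 x] fun _ => 0 := by
          filter_upwards [hN.mem_nhds (hx ▸ hpN)] with y hy
          rw [hkN y hy, zero_div]
        exact (continuousAt_const (y := (0 : ℝ))).congr this.symm
      · exact hkc.continuousAt.div hfc.continuousAt (hfpos x hx).ne'
    obtain ⟨C, hC⟩ := hX.2 _ hh
    refine ⟨1 / (|C| + 1), by positivity, fun x hx => ?_⟩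
    by_contra hxW
    have hxp : x ≠ p := fun h => hxW (h ▸ hpW)
    have hk1 : k x = 1 := by
      have : k0 x = 1 := hk01 hxW
      show max 0 (2 * (k0 x : ℝ) - 1) = 1
      rw [this]; norm_num
    have h1 := hC x
    rw [hk1, abs_of_pos (div_pos one_pos (hfpos x hxp))] at h1
    have h2 : 1 < |C| + 1 := by
      have : (0 : ℝ) < |C| := by
        have := div_pos one_pos (hfpos x hxp)
        exact abs_pos.2 (by linarith)
      linarith
    have h3 : 1 / f x < |C| + 1 := by
      have := le_abs_self C
      linarith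
    have h4 := hfpos x hxp
    rw [div_lt_iff₀ h4] at h3
    rw [lt_div_iff₀ (by positivity)] at hx
    linarith
  have key : 𝓝 p = Filter.comap f (𝓝 0) := by
    refine le_antisymm ?_ ?_
    · rw [← Filter.map_le_iff_le_comap, ← hfp]
      exact hfc.continuousAt
    · intro s hs
      obtain ⟨W, hWs, hW, hpW⟩ := mem_nhds_iff.1 hs
      obtain ⟨c, hc, hcW⟩ := claim W hW hpW
      refine Filter.mem_comap.2 ⟨Iio c, Iio_mem_nhds hc, fun x hx => hWs (hcW x hx)⟩
  rw [key]
  infer_instance

end PoolD32
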