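import Pool.Agent.Work.MP_d32a8c_gt.Defs

/-!
# RegCl: regular closed Lindelof subsets of a pseudocompact space are compact (M)

PROOF. Let `K = closure V`, a closed Lindelof set. Suppose a family of open sets `U i` covers `K`
but no finite subfamily does. For `x ∈ K` choose `i x` with `x ∈ U (i x)`, and a continuous
`f_x : X → [0,1]` with `f_x x = 1`, `f_x = 0` off `U (i x)`. Countably many `{f_x > 0}`, say for
`x_n`, cover `K`. `F = ∑' n, (1/2)^n * f_{x_n}` is continuous on `X` and `> 0` on `K`. For each `N`
there is `y ∈ K` with `f_{x_n} y = 0` for `n < N`, so `F y ≤ 2 (1/2)^N`; since `V` is dense in `K`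
and `F` is continuous there are points of `V` with `0 < F < 4 (1/2)^N`: `F` takes arbitrarily small
positive values on `V`. Choose `v_k ∈ V` with `0 < F (v_(k+1)) < F (v_k) / 4` and put
`V_k = V ∩ {x | F (v_k) / 2 < F x < 2 F (v_k)}`: nonempty open sets, contained in `V`; pairwise
disjoint, and LOCALLY FINITE in `X`: a point outside `K` has the neighbourhood `Kᶜ`; a point
`x ∈ K` has `F x > 0`, and only finitely many `k` have `2 F (v_k) > F x / 2`, so the neighbourhood
`{F > F x / 2}` meets only finitely many `V_k`. Choose continuous `g_k : X → [0,1]` with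
`g_k v_k = 1`, `g_k = 0` off `V_k`. `∑ k, k * g_k` (locally finite sum, `continuous_finsum`) is
continuous, nonnegative and takes a value `≥ k` at `v_k`, contradicting pseudocompactness.
-/

namespace PoolD32

open Set Topology

universe u

theorem isCompact_closure_of_isLindelof {X : Type u} [TopologicalSpace X] (hX : Pseudocompact X)
    {V : Set X} (hV : IsOpen V) (h : IsLindelof (closure V)) : IsCompact (closure V) := by
  classical
  haveI : T35Space X := hX.1
  refine isCompact_of_finite_subcover fun {ι} U hU hcov => ?_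
  by_contra hno
  push Not at hno
  have hi : ∀ x : closure V, ∃ i, (x : X) ∈ U i := fun x => mem_iUnion.1 (hcov x.2)
  choose i hi using hi
  have hcr := fun x : closure V => CompletelyRegularSpace.completely_regular (x : X) (U (i x))ᶜ
    (hU (i x)).isClosed_compl (fun h => h (hi x))
  choose g hgc hg0 hg1 using hcr
  have hV' : ∀ x : closure V, IsOpen {y | (g x y : ℝ) < 1} := fun x =>
    isOpen_lt (continuous_subtype_val.comp (hgc x)) continuous_const
  obtain ⟨r, hr, hrc⟩ := h.elim_countable_subcover (fun x : closure V => {y | (g x y : ℝ) < 1})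
    hV' (by
      intro x hx
      refine mem_iUnion.2 ⟨⟨x, hx⟩, ?_⟩
      show (g ⟨x, hx⟩ x : ℝ) < 1
      rw [hg0 ⟨x, hx⟩]; norm_num)
  have hne : (closure V).Nonempty := by
    by_contra hE
    rw [not_nonempty_iff_eq_empty] at hE
    exact hno ∅ (by rw [hE]; exact empty_subset _)
  have hrne : r.Nonempty := by
    obtain ⟨x, hx⟩ := hne
    have := hrc hx
    simp only [mem_iUnion] at this
    obtain ⟨y, hy, -⟩ := this
    exact ⟨y, hy⟩
  obtain ⟨e, he⟩ := hr.exists_eq_range hrne
  let f : ℕ → X → ℝ := fun n y => 1 - (g (e n) y : ℝ)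
  have hf0 : ∀ n y, 0 ≤ f n y := fun n y => by
    have := (g (e n) y).2.2
    simp only [f]; linarith
  have hf1 : ∀ n y, f n y ≤ 1 := fun n y => by
    have := (g (e n) y).2.1
    simp only [f]; linarith
  have hfc : ∀ n, Continuous (f n) := fun n =>
    continuous_const.sub (continuous_subtype_val.comp (hgc (e n)))
  let F : X → ℝ := fun x => ∑' n, (1 / 2 : ℝ) ^ n * f n x
  have hle : ∀ n x, (1 / 2 : ℝ) ^ n * f n x ≤ (1 / 2 : ℝ) ^ n := by
    intro n x
    have h2 : (0 : ℝ) ≤ (1 / 2 : ℝ) ^ n := by positivity
    nlinarith [hf1 n x]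
  have hsum : ∀ x, Summable fun n => (1 / 2 : ℝ) ^ n * f n x := fun x =>
    Summable.of_nonneg_of_le (fun n => mul_nonneg (by positivity) (hf0 n x)) (fun n => hle n x)
      summable_geometric_two
  have hFc : Continuous F := by
    refine continuous_tsum (u := fun n => (1 / 2 : ℝ) ^ n) (fun n => continuous_const.mul (hfc n))
      summable_geometric_two ?_
    intro n x
    rw [Real.norm_eq_abs, abs_of_nonneg (mul_nonneg (by positivity) (hf0 n x))]
    exact hle n x
  have hFpos : ∀ x ∈ closure V, 0 < F x := by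
    intro x hxK
    have hx := hrc hxK
    simp only [mem_iUnion] at hx
    obtain ⟨y, hy, hxy⟩ := hx
    rw [he] at hy
    obtain ⟨n, rfl⟩ := hy
    have hxy' : (g (e n) x : ℝ) < 1 := hxy
    have : (0 : ℝ) < (1 / 2 : ℝ) ^ n * f n x := mul_pos (by positivity) (by simp only [f]; linarith)
    exact (hsum x).tsum_pos (fun m => mul_nonneg (by positivity) (hf0 m x)) n this
  have hsmall : ∀ ε : ℝ, 0 < ε → ∃ v ∈ V, F v < ε := by
    intro ε hε
    obtain ⟨N, hN⟩ := exists_pow_lt_of_lt_one (show (0 : ℝ) < ε / 2 by positivity)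
      (show (1 / 2 : ℝ) < 1 by norm_num)
    obtain ⟨x, hxK, hx⟩ := not_subset.1 (hno ((Finset.range N).image (fun n => i (e n))))
    have hz : ∀ n < N, f n x = 0 := by
      intro n hn
      have hxU : x ∉ U (i (e n)) := by
        intro hxU
        apply hx
        simp only [mem_iUnion]
        exact ⟨i (e n), Finset.mem_image.2 ⟨n, Finset.mem_range.2 hn, rfl⟩, hxU⟩
      have : g (e n) x = 1 := hg1 (e n) hxU
      simp only [f]; rw [this]; simp
    have hFx : F x ≤ 2 * (1 / 2 : ℝ) ^ N := by
      have h1 : F x = ∑' n, (1 / 2 : ℝ) ^ (n + N) * f (n + N) x := by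
        have := (hsum x).sum_add_tsum_nat_add N
        rw [Finset.sum_eq_zero, zero_add] at this
        · exact this.symm
        · intro n hn
          rw [hz n (Finset.mem_range.1 hn), mul_zero]
      rw [h1]
      have h2 : Summable fun n : ℕ => (1 / 2 : ℝ) ^ (n + N) :=
        (summable_nat_add_iff N).2 summable_geometric_two
      calc ∑' n, (1 / 2 : ℝ) ^ (n + N) * f (n + N) x ≤ ∑' n : ℕ, (1 / 2 : ℝ) ^ (n + N) :=
            ((summable_nat_add_iff N).2 (hsum x)).tsum_le_tsum (fun n => hle (n + N) x) h2
        _ = 2 * (1 / 2 : ℝ) ^ N := by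
            simp_rw [pow_add]
            rw [tsum_mul_right, tsum_geometric_two]
    have hFε : F x < ε := by linarith
    obtain ⟨v, hv1, hv2⟩ := mem_closure_iff.1 hxK {y | F y < ε} (isOpen_lt hFc continuous_const) hFε
    exact ⟨v, hv2, hv1⟩
  have hv := fun k : ℕ => hsmall (1 / ((k : ℝ) + 1)) (by positivity)
  choose v hvV hvF using hv
  have hvpos : ∀ k, 0 < F (v k) := fun k => hFpos _ (subset_closure (hvV k))
  let A : ℕ → Set X := fun k => V ∩ {x | F x < 2 * F (v k)}
  have hA : ∀ k, IsOpen (A k) := fun k => hV.inter (isOpen_lt hFc continuous_const)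
  have hvA : ∀ k, v k ∈ A k := fun k => ⟨hvV k, by
    show F (v k) < 2 * F (v k)
    linarith [hvpos k]⟩
  have hcr2 := fun k => CompletelyRegularSpace.completely_regular (v k) (A k)ᶜ
    (hA k).isClosed_compl (fun h => h (hvA k))
  choose q hqc hq0 hq1 using hcr2
  let G : ℕ → X → ℝ := fun k x => (k : ℝ) * (1 - (q k x : ℝ))
  have hGc : ∀ k, Continuous (G k) := fun k =>
    continuous_const.mul (continuous_const.sub (continuous_subtype_val.comp (hqc k)))
  have hG0 : ∀ k x, 0 ≤ G k x := fun k x =>
    mul_nonneg (Nat.cast_nonneg k) (by linarith [(q k x).2.2])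
  have hsupp : ∀ k, Function.support (G k) ⊆ A k := by
    intro k x hx
    by_contra hxA
    have : q k x = 1 := hq1 k hxA
    apply hx
    simp only [G]; rw [this]; simp
  have hlfA : LocallyFinite A := by
    intro x
    by_cases hxK : x ∈ closure V
    · have hFx := hFpos x hxK
      refine ⟨{y | F x / 2 < F y}, (isOpen_lt continuous_const hFc).mem_nhds (by
        show F x / 2 < F x
        linarith), ?_⟩
      obtain ⟨m, hm⟩ := exists_nat_gt (4 / F x)
      refine (finite_Iic m).subset ?_
      rintro k ⟨y, hy1, hy2⟩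
      have h1 : F y < 2 * F (v k) := hy1.2
      have h2 : F x / 2 < F y := hy2
      have h3 := hvF k
      by_contra hkm
      have hkm' : (m : ℝ) < k := by
        have : m < k := not_le.1 hkm
        exact_mod_cast this
      have h4 : 1 / ((k : ℝ) + 1) < F x / 4 := by
        rw [div_lt_div_iff₀ (by positivity) (by norm_num)]
        rw [div_lt_iff₀ hFx] at hm
        nlinarith
      linarith
    · exact ⟨(closure V)ᶜ, isClosed_closure.isOpen_compl.mem_nhds hxK, by
        convert finite_empty
        rw [eq_empty_iff_forall_notMem]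
        rintro k ⟨y, hy1, hy2⟩
        exact hy2 (subset_closure hy1.1)⟩
  have hlf : LocallyFinite fun k => Function.support (G k) := hlfA.subset hsupp
  obtain ⟨C, hC⟩ := hX.2 _ (continuous_finsum hGc hlf)
  obtain ⟨k, hk⟩ := exists_nat_gt C
  have h1 := hC (v k)
  have h2 : G k (v k) ≤ ∑ᶠ j, G j (v k) :=
    single_le_finsum k (hlf.point_finite (v k)) (fun j => hG0 j (v k))
  have h3 : G k (v k) = k := by
    simp only [G]; rw [hq0 k]; simp
  have h4 := le_abs_self (∑ᶠ j, G j (v k))
  linarith

end PoolD32
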