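import Pool.Agent.Work.MP_d32a8c_gt.Blocks
import Pool.Agent.Work.MP_d32a8c_gt.Funs

/-!
# Unc: discrete sets with an accumulation point outside small unions (S-M)

PROOF. Let `θ` be a well ordered type with all `Iio a` countable and `θ` uncountable
(e.g. `(Cardinal.aleph 1).ord.ToType`), so `#(Iio a) ≤ ℵ₀ < κ`. Apply `exists_blocks` with
`Q a B := ∃ x ∉ ⋃ i ∈ S, U i, B = {x}`; `hQ`: for `#S' < κ` also `#(S ∪ S') < κ` and `hU.small`
gives a point outside the union over `S ∪ S'` (`e` arbitrary: `ι` is nonempty since `#ι = κ > ℵ₀`).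
The union `B` of the blocks is discrete, disjoint from `⋃ i ∈ S, U i` and uncountable (the points
are pairwise different by (5)). It is not closed: otherwise `B = closure B` is Lindelof and
discrete, so countable (`IsLindelof.countable_of_isDiscrete`). Take `p ∈ closure B \ B`; by
`diff_lindelof` and `exists_pos_fun` there is `g` with `g p = 0`, `0 < g x` on `closure B \ {p}`.
-/

namespace PoolD32

open Set Topology
open scoped Cardinal

universe u

theorem exists_unc {X : Type u} [TopologicalSpace X] [T35Space X] (hD : DL X)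
    {κ : Cardinal.{u}} {ι : Type u} {U : ι → Set X} (hU : Bad X κ U) (S : Set ι) (hS : #S < κ) :
    ∃ B : Set X, Disjoint B (⋃ i ∈ S, U i) ∧ IsDiscrete B ∧ ∃ p ∈ closure B, p ∉ B ∧
      ∃ g : X → ℝ, Continuous g ∧ g p = 0 ∧ ∀ x ∈ B, 0 < g x := by
  have hne : Nonempty ι := by
    rw [← Cardinal.mk_ne_zero_iff, hU.card]
    exact (Cardinal.aleph0_pos.trans hU.unc).ne'
  have hcard : ∀ a : (Cardinal.aleph.{u} 1).ord.ToType, #(Iio a) < κ := by
    intro a
    refine lt_of_le_of_lt ?_ hU.unc
    have := Cardinal.mk_Iio_toType_ord_lt a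
    exact Cardinal.lt_aleph_one_iff.mp this
  obtain ⟨B, hQ, hdis, -, -, hdj⟩ := exists_blocks hD hU (θ := (Cardinal.aleph.{u} 1).ord.ToType)
    hcard (fun _ => hne.some) (fun _ B => ∃ x, x ∉ (⋃ i ∈ S, U i) ∧ B = {x})
    (by rintro a B ⟨x, -, rfl⟩; exact (subsingleton_singleton).isDiscrete)
    (by
      intro a S' hS'
      have h1 : #(S ∪ S' : Set ι) < κ := lt_of_le_of_lt (Cardinal.mk_union_le S S')
        (Cardinal.add_lt_of_lt hU.unc.le hS hS')
      obtain ⟨x, hx⟩ := (ne_univ_iff_exists_notMem _).mp (hU.small _ h1)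
      refine ⟨{x}, ⟨x, fun h => hx ?_, rfl⟩, ?_⟩
      · exact biUnion_subset_biUnion_left subset_union_left h
      · rw [disjoint_singleton_left]
        exact fun h => hx (biUnion_subset_biUnion_left subset_union_right h))
  choose x hx hBx using hQ
  have hinj : Function.Injective x := by
    have key : ∀ a b, a < b → x a ≠ x b := by
      intro a b hab h
      have := hdj a b hab
      rw [hBx a, hBx b, h] at this
      exact disjoint_left.mp this (subset_closure rfl) rfl
    intro a b hab
    rcases lt_trichotomy a b with h | h | h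
    · exact (key a b h hab).elim
    · exact h
    · exact (key b a h hab.symm).elim
  have hEr : (⋃ a, B a) = range x := by
    ext y
    simp only [mem_iUnion, mem_range]
    constructor
    · rintro ⟨a, ha⟩
      rw [hBx a] at ha
      exact ⟨a, ha.symm⟩
    · rintro ⟨a, rfl⟩
      exact ⟨a, by rw [hBx a]; rfl⟩
  rw [hEr] at hdis
  have hunc : ¬ (range x).Countable := by
    intro hc
    have h1 : (univ : Set ((Cardinal.aleph.{u} 1).ord.ToType)).Countable := by
      have := hc.preimage_of_injOn (f := x) hinj.injOn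
      rwa [preimage_range] at this
    rw [countable_univ_iff, ← Cardinal.mk_le_aleph0_iff, Cardinal.mk_toType, Cardinal.card_ord] at h1
    exact absurd h1 (not_le.mpr Cardinal.aleph0_lt_aleph_one)
  refine ⟨range x, ?_, hdis, ?_⟩
  · rw [disjoint_left]
    rintro _ ⟨a, rfl⟩
    exact hx a
  · by_cases hcl : closure (range x) ⊆ range x
    · exfalso
      have := closure_lindelof hD hdis
      rw [subset_antisymm hcl subset_closure] at this
      exact hunc (this.countable_of_isDiscrete hdis)
    · obtain ⟨p, hp, hpn⟩ := not_subset.mp hcl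
      obtain ⟨g, hg, -, hgp, hgpos⟩ := exists_pos_fun (diff_lindelof hD hdis hp)
      exact ⟨p, hp, hpn, g, hg, hgp, fun y hy => hgpos y (subset_closure hy)
        (fun h => hpn (h ▸ hy))⟩

end PoolD32
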